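import Pool.Agent.G6.St

/-!
# Module ALL (helper57): all stages
-/

set_option autoImplicit false

namespace G6

open Finset MldGap

namespace ALL

theorem dn_lt {h i : ℕ} (hi : i < h) : dn h i = 1 := by
  unfold dn
  rw [if_pos hi]

theorem dn_add (h j : ℕ) : dn h (h + j) = sylvester j := by
  unfold dn
  rw [if_neg (by omega), Nat.add_sub_cancel_left]

end ALL

theorem t_ALL : Stmt_ALL := by
  intro hCEX hTAI hGRO hTHR hDNS hPSI hHLF hSTG hCLO hCLA hCLB c h x hc hS hSm
  have hDNS' : Stmt_DNS := hDNS
  obtain ⟨-, -, -, -, -, d3, d4⟩ := hDNS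
  have hx0 : x h ≤ 1 / 2 := hHLF (h + c + 2) h x (by omega) hS
  have hsc : 43 ≤ sylvester c := (d4 c hc).1
  have hscR : (0 : ℝ) < sylvester c := by
    have : 0 < sylvester c := by omega
    exact_mod_cast this
  -- the ones
  have hone : ∀ i < h, 0 ≤ ep h x i ∧ ep h x i * dn h i * sylvester c < 1 := by
    intro i hi
    have e1 : ep h x i = 1 - x i := by
      unfold ep
      rw [ALL.dn_lt hi]
      norm_num
    have e2 := hS.lt_one i (by omega)
    refine ⟨by rw [e1]; linarith, ?_⟩
    have e3 := hCLO hCEX hTAI hGRO hTHR hDNS' hPSI c h x hc (by omega) hS hSm hx0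
    have e4 := hS.anti i (h - 1) (by omega) (by omega)
    rw [e1, ALL.dn_lt hi]
    have e5 : 1 - x i < 1 / (sylvester c : ℝ) := by linarith
    rw [lt_div_iff₀ hscR] at e5
    push_cast
    linarith
  have hhalf : 0 ≤ ep h x h ∧ ep h x h * dn h h * sylvester c < 1 := by
    refine ⟨?_, hCLA hCEX hTAI hGRO hTHR hDNS' hPSI c h x hc hS hSm⟩
    have e1 : dn h h = 2 := by
      have := ALL.dn_add h 0
      rw [Nat.add_zero] at this
      rw [this]
      rfl
    unfold ep
    rw [e1]
    push_cast
    linarith
  have hstg : ∀ j, 1 ≤ j → j ≤ c → (∀ i < h + j, 0 ≤ ep h x i ∧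
      ep h x i * dn h i * sylvester c < 1) → 0 ≤ ep h x (h + j) := by
    intro j hj hjc hP
    have e1 : x (h + j) ≤ 1 / (sylvester j : ℝ) := by
      refine hSTG hDNS' (h + c + 2) h j x hj (by omega) hS (fun i hi => (hP i hi).1) ?_
      intro i hi
      obtain ⟨p1, p2⟩ := hP i hi
      have e2 : (sylvester j : ℝ) ≤ sylvester c := by exact_mod_cast d3 j c hjc
      have e3 : ep h x i * dn h i * sylvester j ≤ ep h x i * dn h i * sylvester c :=
        mul_le_mul_of_nonneg_left e2 (mul_nonneg p1 (Nat.cast_nonneg _))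
      linarith
    unfold ep
    rw [ALL.dn_add]
    linarith
  have hind : ∀ j, 1 ≤ j → j ≤ c → ∀ i < h + j, 0 ≤ ep h x i ∧
      ep h x i * dn h i * sylvester c < 1 := by
    intro j hj
    induction j, hj using Nat.le_induction with
    | base =>
      intro _ i hi
      rcases Nat.lt_or_ge i h with h1 | h1
      · exact hone i h1
      · have h2 : i = h := by omega
        rw [h2]
        exact hhalf
    | succ j hj ih =>
      intro hjc i hi
      have ih' := ih (by omega)
      rcases Nat.lt_or_ge i (h + j) with h1 | h1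
      · exact ih' i h1
      · have h2 : i = h + j := by omega
        rw [h2]
        refine ⟨hstg j hj (by omega) ih', ?_⟩
        exact hCLB hCEX hTAI hGRO hTHR hDNS' hPSI c h j x hc hj (by omega) hS hSm
          (fun i hi => (ih' i hi).1)
  have hfin := hind c (by omega) le_rfl
  refine ⟨?_, fun i hi => (hfin i hi).2⟩
  intro i hi
  rcases Nat.lt_or_ge i (h + c) with h1 | h1
  · exact (hfin i h1).1
  · have h2 : i = h + c := by omega
    rw [h2]
    exact hstg c (by omega) le_rfl hfin

end G6
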