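import Pool.Agent.G6.St
import Pool.Agent.MldGap.Seq

/-!
The extremal lemma with caps.
-/

namespace G6

open Finset MldGap

theorem t_CEX : Stmt_CEX := by
  intro n a x y hx hanti hy hprod hcap k
  induction k using Nat.strong_induction_on with
  | _ k ih =>
    intro hk
    by_contra hcon
    push Not at hcon
    rcases Nat.eq_zero_or_pos k with hk0 | hk0
    · subst hk0
      simp at hcon
    obtain ⟨k', rfl⟩ : ∃ k', k = k' + 1 := ⟨k - 1, by omega⟩
    have hsub : ∀ j, ∑ i ∈ range j, (x i - y i) = ∑ i ∈ range j, x i - ∑ i ∈ range j, y i :=
      fun j => sum_sub_distrib _ _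
    have hprev := ih k' (by omega) (by omega)
    have hk'lt : y k' < x k' := by
      rw [sum_range_succ, sum_range_succ] at hcon
      linarith
    rcases hcap k' (by omega) with h1 | heq
    · linarith
    have htail : ∀ j < k' + 1, 0 < ∑ i ∈ Ico j (k' + 1), (x i - y i) := by
      intro j hj
      have h1 := ih j hj (by omega)
      have h2 := hsub (k' + 1)
      rw [← sum_range_add_sum_Ico _ hj.le, hsub j] at h2
      linarith
    have hw := weighted_nonneg (k' + 1) (fun i => x i - y i) (fun i => (x i)⁻¹)
      (fun i hi => (inv_pos.2 (hx i (by omega))).le)
      (fun i hi => inv_anti₀ (hx (i + 1) (by omega)) (hanti i (by omega)))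
      (fun j hj => (htail j hj).le)
    have hratio : ∏ i ∈ range (k' + 1), (y i / x i) ≤ 1 := by
      calc ∏ i ∈ range (k' + 1), (y i / x i)
          ≤ ∏ i ∈ range (k' + 1), Real.exp (y i / x i - 1) := by
            refine prod_le_prod (fun i hi => ?_) (fun i hi => ?_)
            · have hi' := mem_range.1 hi
              exact div_nonneg (hy i (by omega)).le (hx i (by omega)).le
            · have := Real.add_one_le_exp (y i / x i - 1)
              linarith
        _ = Real.exp (∑ i ∈ range (k' + 1), (y i / x i - 1)) := by
            rw [Real.exp_sum]
        _ ≤ 1 := by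
            rw [Real.exp_le_one_iff]
            have h1 : ∑ i ∈ range (k' + 1), (y i / x i - 1)
                = - ∑ i ∈ range (k' + 1), (x i)⁻¹ * (x i - y i) := by
              rw [← sum_neg_distrib]
              refine sum_congr rfl fun i hi => ?_
              have hi' := mem_range.1 hi
              have := (hx i (by omega)).ne'
              field_simp
              ring
            rw [h1]
            linarith
    have hle : ∏ i ∈ range (k' + 1), y i ≤ ∏ i ∈ range (k' + 1), x i := by
      have hposx : 0 < ∏ i ∈ range (k' + 1), x i := prod_pos fun i hi => by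
        have hi' := mem_range.1 hi
        exact hx i (by omega)
      rw [prod_div_distrib, div_le_one hposx] at hratio
      exact hratio
    have h5 := hprod (k' + 1) hk
    linarith

end G6
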