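import Pool.Agent.G6.St

/-!
# CLA: the coordinate `1/2`
-/

set_option autoImplicit false

namespace G6

open Finset MldGap

noncomputable section

namespace CLA

theorem dn_self (h : ℕ) : dn h h = 2 := by
  unfold dn
  rw [if_neg (lt_irrefl h), Nat.sub_self]
  rfl

theorem syl_two : sylvester 2 = 7 := by decide

/-- The start of the greedy tail. -/
theorem start {θ : ℝ} (h0 : 0 < θ) (h1 : θ ≤ 1 / 43) :
    (1 + 3 / 10 * θ) / (7 - 1) ≤ (1 - θ) / 2 * ((1 + θ) / 2) / (1 + (1 - θ) / 2) := by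
  rw [div_le_div_iff₀ (by norm_num) (by linarith)]
  nlinarith

end CLA

open CLA in
theorem t_CLA : Stmt_CLA := by
  intro hCEX hTAI hGRO hTHR hDNS hPSI c h x hc hS hsm
  obtain ⟨-, -, -, -, -, -, h43⟩ := hDNS
  obtain ⟨hs43, -⟩ := h43 c hc
  have hs : (43 : ℝ) ≤ sylvester c := by exact_mod_cast hs43
  have hs0 : (0 : ℝ) < sylvester c := by linarith
  by_contra hcon
  push Not at hcon
  obtain ⟨θ, hθ⟩ : ∃ θ : ℝ, θ = 1 / (sylvester c : ℝ) := ⟨_, rfl⟩
  have hθ0 : 0 < θ := by rw [hθ]; positivity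
  have hθ1 : θ ≤ 1 / 43 := by
    rw [hθ]
    exact one_div_le_one_div_of_le (by norm_num) hs
  have hθs : θ * sylvester c = 1 := by
    rw [hθ]
    field_simp
  have hx : x h ≤ (1 - θ) / 2 := by
    unfold ep at hcon
    rw [dn_self] at hcon
    push_cast at hcon
    have h1 : θ * sylvester c ≤ (1 - 2 * x h) * sylvester c := by
      rw [hθs]
      linarith
    have h2 := le_of_mul_le_mul_right h1 hs0
    linarith
  have hm : h + 1 + c + 1 = h + c + 2 := by ring
  let y : ℕ → ℝ := fun i => if i < h then 1 else (1 - θ) / 2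
  have hyh : y h = (1 - θ) / 2 := if_neg (lt_irrefl h)
  have hyl : ∀ i < h, y i = 1 := fun i hi => if_pos hi
  have hP : ∏ i ∈ range (h + 1), y i = (1 - θ) / 2 := by
    rw [prod_range_succ, hyh, prod_congr rfl fun i hi => hyl i (mem_range.1 hi), prod_const_one,
      one_mul]
  have hR : (h : ℝ) + 1 - ∑ i ∈ range (h + 1), y i = (1 + θ) / 2 := by
    rw [sum_range_succ, hyh, sum_congr rfl fun i hi => hyl i (mem_range.1 hi), sum_const,
      card_range, nsmul_eq_mul]
    ring
  have h1 := hTAI hCEX (h + 1) c ((h : ℝ) + 1) x y (fun i hi => hS.pos i (by omega))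
    (fun i hi => hS.anti i (i + 1) (by omega) (by omega)) (fun i hi => ?_)
    (fun k hk => hPSI _ _ _ hS k (by omega)) (by rw [hR]; linarith)
  · rw [hP, hR, hm] at h1
    have h2 := hGRO 2 c (3 / 10 * θ) ((1 - θ) / 2 * ((1 + θ) / 2) / (1 + (1 - θ) / 2)) le_rfl
      (by positivity) (by rw [syl_two]; exact start hθ0 hθ1)
    have h3 : (6 : ℝ) ≤ (13 / 7) ^ c := by
      calc (6 : ℝ) ≤ (13 / 7) ^ 3 := by norm_num
        _ ≤ (13 / 7) ^ c := pow_le_pow_right₀ (by norm_num) hc
    have h4 : 1 + (21 / 20) / (sylvester c : ℝ) ≤ 1 + (13 / 7) ^ c * (3 / 10 * θ) := by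
      have h5 : (21 / 20 : ℝ) / (sylvester c : ℝ) = 21 / 20 * θ := by
        rw [hθ]
        ring
      rw [h5]
      have h6 : 6 * (3 / 10 * θ) ≤ (13 / 7) ^ c * (3 / 10 * θ) :=
        mul_le_mul_of_nonneg_right h3 (by positivity)
      linarith
    have h5 := hTHR c _ hc h4
    rw [add_comm 2 c] at h2
    have h6 := h2.trans h1
    have h7 := mul_le_mul_of_nonneg_right h6 (Nat.cast_nonneg (HH (LL c)) : (0 : ℝ) ≤ _)
    unfold Small at hsm
    linarith
  · rcases Nat.lt_or_ge i h with h2 | h2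
    · rw [hyl i h2]
      exact ⟨one_pos, (hS.lt_one i (by omega)).le⟩
    · have h3 : i = h := by omega
      rw [h3, hyh]
      exact ⟨by linarith, hx⟩

end

end G6
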