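import Pool.Agent.G6.St

/-!
# G6_CLB: the coordinates `1/3, 1/7, …` up to `1 / s_(c-1)`
-/

namespace G6

open Finset MldGap

namespace CLB

theorem dn_add (h j : ℕ) : dn h (h + j) = sylvester j := by
  unfold dn
  rw [if_neg (by omega), Nat.add_sub_cancel_left]

/-- real arithmetic -/
theorem arith (A s B θ : ℝ) (hA : 2 ≤ A) (hs : s = A + 1) (hB : B = s * A) (h0 : 0 < θ)
    (h1 : θ ≤ 1 / 43) :
    (1 + 9 / 10 * θ) / ((B + 1) * B) ≤
      ((1 - θ) / B) * ((1 + A * θ) / B) / (1 + (1 - θ) / B) := by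
  have hBp : 0 < B := by
    rw [hB, hs]
    positivity
  have hp : 0 < B + 1 - θ := by linarith
  have e : ((1 - θ) / B) * ((1 + A * θ) / B) / (1 + (1 - θ) / B) =
      (1 - θ) * (1 + A * θ) / (B * (B + 1 - θ)) := by
    have h2 : (1 : ℝ) + (1 - θ) / B = (B + 1 - θ) / B := by
      field_simp
      ring
    rw [h2, div_mul_div_comm, div_div_div_eq]
    rw [div_eq_div_iff (by positivity) (by positivity)]
    ring
  rw [e, div_le_div_iff₀ (by positivity) (by positivity)]
  have h3 : 1 + 9 / 10 * θ ≤ (1 - θ) * (1 + A * θ) := by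
    have h4 : (1 - θ) * (1 + A * θ) - (1 + 9 / 10 * θ) = θ * (A * (1 - θ) - 1 - 9 / 10) := by ring
    have h5 : 2 * (1 - θ) ≤ A * (1 - θ) := mul_le_mul_of_nonneg_right hA (by linarith)
    have h6 : 0 ≤ θ * (A * (1 - θ) - 1 - 9 / 10) := mul_nonneg h0.le (by linarith)
    linarith
  have h7 : B * (B + 1 - θ) ≤ (B + 1) * B := by nlinarith
  calc (1 + 9 / 10 * θ) * (B * (B + 1 - θ)) ≤ (1 + 9 / 10 * θ) * ((B + 1) * B) :=
        mul_le_mul_of_nonneg_left h7 (by positivity)
    _ ≤ (1 - θ) * (1 + A * θ) * ((B + 1) * B) :=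
        mul_le_mul_of_nonneg_right h3 (by positivity)

end CLB

open CLB in
theorem t_CLB : Stmt_CLB := by
  intro hCEX hTAI hGRO hTHR hDNS hPSI c h j x hc hj hjc hS hsm hep
  obtain ⟨r, rfl⟩ : ∃ r, c = j + r := ⟨c - j, by omega⟩
  have hr : 1 ≤ r := by omega
  obtain ⟨D1, D2, -, D4, -, D6, D7⟩ := hDNS
  by_contra hcon
  push Not at hcon
  have hs43 := (D7 (j + r) hc).1
  have hs43' : (43 : ℝ) ≤ sylvester (j + r) := by exact_mod_cast hs43
  set sc : ℝ := (sylvester (j + r) : ℝ) with hsc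
  have hscp : 0 < sc := by linarith
  set θ : ℝ := 1 / sc with hθ
  have hθ0 : 0 < θ := by positivity
  have hθ1 : θ ≤ 1 / 43 := one_div_le_one_div_of_le (by norm_num) hs43'
  have hsj3 : 3 ≤ sylvester j := by
    have h1 := D6 1 j hj
    have h2 : sylvester 1 = 3 := rfl
    omega
  set s : ℝ := (sylvester j : ℝ) with hs
  have hs3 : 3 ≤ s := by
    rw [hs]
    exact_mod_cast hsj3
  have hsp : 0 < s := by linarith
  set A : ℝ := s - 1 with hA
  have hA2 : 2 ≤ A := by linarith
  set B : ℝ := s * A with hB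
  have hBp : 0 < B := by positivity
  have hB1 : ((sylvester (j + 1) : ℕ) : ℝ) - 1 = B := by rw [sylvester_cast]
  have hB2 : ((sylvester (j + 2) : ℕ) : ℝ) - 1 = (B + 1) * B := by
    have h1 := sylvester_cast (j + 1)
    rw [hB1] at h1
    rw [show j + 2 = j + 1 + 1 from rfl, h1]
    congr 1
    linarith
  -- the coordinate
  have hxj : x (h + j) ≤ (1 - θ) / s := by
    rw [dn_add] at hcon
    unfold ep at hcon
    rw [dn_add] at hcon
    have h1 : (1 / s - x (h + j)) * s = 1 - x (h + j) * s := by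
      rw [sub_mul, one_div, inv_mul_cancel₀ hsp.ne']
    rw [h1] at hcon
    rw [le_div_iff₀ hsp]
    have h2 : θ ≤ 1 - x (h + j) * s := by
      rw [hθ, div_le_iff₀ hscp]
      exact hcon
    linarith
  -- the majorant
  let y : ℕ → ℝ := fun i => if i < h + j then 1 / (dn h i : ℝ) else (1 - θ) / s
  have hy1 : ∀ i, i < h + j → y i = 1 / (dn h i : ℝ) := fun i hi => if_pos hi
  have hy2 : y (h + j) = (1 - θ) / s := if_neg (lt_irrefl _)
  have hP : ∏ i ∈ range (h + j + 1), y i = (1 - θ) / B := by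
    rw [prod_range_succ, prod_congr rfl (fun i hi => hy1 i (mem_range.1 hi)), D2, hy2,
      ← hs, ← hA, div_mul_div_comm, one_mul, mul_comm A s]
  have hR : (h : ℝ) + 1 - ∑ i ∈ range (h + j + 1), y i = (1 + A * θ) / B := by
    rw [sum_range_succ, sum_congr rfl (fun i hi => hy1 i (mem_range.1 hi)), D1, hy2, ← hs, ← hA]
    have hA0 : A ≠ 0 := by linarith
    rw [hB]
    have hs' : s = A + 1 := by rw [hA]; ring
    rw [hs']
    have hA1 : A + 1 ≠ 0 := by linarith
    field_simp
    ring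
  have hm : h + j + 1 + r + 1 = h + (j + r) + 2 := by omega
  have hT := hTAI hCEX (h + j + 1) r ((h : ℝ) + 1) x y
    (fun i hi => hS.pos i (by omega))
    (fun i hi => hS.anti i (i + 1) (by omega) (by omega))
    (by
      intro i hi
      rcases Nat.lt_or_ge i (h + j) with h1 | h1
      · rw [hy1 i h1]
        have h2 : (1 : ℝ) ≤ dn h i := by exact_mod_cast D4 h i
        refine ⟨by positivity, ?_⟩
        have h3 := hep i h1
        unfold ep at h3
        linarith
      · have h2 : i = h + j := by omega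
        rw [h2, hy2]
        refine ⟨?_, hxj⟩
        have : 0 < 1 - θ := by linarith
        positivity)
    (by
      intro k hk
      exact hPSI (h + (j + r) + 2) h x hS k (by omega))
    (by
      rw [hR]
      positivity)
  rw [hP, hR, hm] at hT
  have hQ := arith A s B θ hA2 (by rw [hA]; ring) hB hθ0 hθ1
  have hG := hGRO (j + 2) r (9 / 10 * θ)
    (((1 - θ) / B) * ((1 + A * θ) / B) / (1 + (1 - θ) / B)) (by omega) (by positivity)
    (by
      rw [hB2]
      exact hQ)
  have hw : 1 + (21 / 20) / (sylvester (j + r) : ℝ) ≤ 1 + (13 / 7) ^ r * (9 / 10 * θ) := by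
    have h1 : (21 / 20) / (sylvester (j + r) : ℝ) = 21 / 20 * θ := by
      rw [hθ, ← hsc]
      ring
    rw [h1]
    have h2 : (13 / 7 : ℝ) ≤ (13 / 7) ^ r := by
      calc (13 / 7 : ℝ) = (13 / 7) ^ 1 := (pow_one _).symm
        _ ≤ (13 / 7) ^ r := pow_le_pow_right₀ (by norm_num) hr
    have h3 : 13 / 7 * (9 / 10 * θ) ≤ (13 / 7) ^ r * (9 / 10 * θ) :=
      mul_le_mul_of_nonneg_right h2 (by positivity)
    linarith
  have hH := hTHR (j + r) _ hc hw
  have e : j + 2 + r = j + r + 2 := by omega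
  rw [e] at hG
  have h1 := hG.trans hT
  have h2 : (0 : ℝ) ≤ (HH (LL (j + r)) : ℝ) := Nat.cast_nonneg _
  have h3 := mul_le_mul_of_nonneg_right h1 h2
  unfold Small at hsm
  linarith

end G6
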