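import Pool.Agent.G6.St

/-!
# CLC: the coordinate `1 / s_c`
-/

namespace G6

open Finset MldGap

namespace CLC

/-- the comparison of the greedy value with the bound -/
theorem key {s : ℝ} (hs : 43 ≤ s) :
    1 + (21 / 20) / s ≤
      (1 / (s - 1) * (3 / 4 / s)) * (1 / (s - 1) - 3 / 4 / s) / (1 + 1 / (s - 1) * (3 / 4 / s)) *
        ((s * (s - 1) + 1) * (s * (s - 1))) := by
  have h1 : 0 < s - 1 := by linarith
  have h0 : 0 < s := by linarith
  have hK : 0 < s * (s - 1) := mul_pos h0 h1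
  have e : (1 / (s - 1) * (3 / 4 / s)) * (1 / (s - 1) - 3 / 4 / s) /
      (1 + 1 / (s - 1) * (3 / 4 / s)) * ((s * (s - 1) + 1) * (s * (s - 1))) =
      (3 / 16) * (s + 3) * ((s * (s - 1) + 1) / (s * (s - 1) + 3 / 4)) := by
    have h2 : s * (s - 1) + 3 / 4 ≠ 0 := by positivity
    have h3 : 1 + 1 / (s - 1) * (3 / 4 / s) = (s * (s - 1) + 3 / 4) / (s * (s - 1)) := by
      field_simp
    rw [h3]
    field_simp
    ring
  rw [e]
  have h4 : 1 ≤ (s * (s - 1) + 1) / (s * (s - 1) + 3 / 4) := by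
    rw [one_le_div (by positivity)]
    linarith
  have h5 : (21 / 20) / s ≤ 1 := by
    rw [div_le_one h0]
    linarith
  have h6 : (2 : ℝ) ≤ (3 / 16) * (s + 3) := by linarith
  have h7 : (3 / 16) * (s + 3) * 1 ≤
      (3 / 16) * (s + 3) * ((s * (s - 1) + 1) / (s * (s - 1) + 3 / 4)) :=
    mul_le_mul_of_nonneg_left h4 (by linarith)
  linarith

end CLC

open CLC in
theorem t_CLC : Stmt_CLC := by
  intro hCEX hTAI hTHR hDNS hPSI c h x hc hx hsm hep
  obtain ⟨d1, d2, -, d4, -, -, d7⟩ := hDNS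
  have hs : (43 : ℝ) ≤ sylvester c := by exact_mod_cast (d7 c hc).1
  have h0 : (0 : ℝ) < sylvester c := by linarith
  have h1 : (0 : ℝ) < (sylvester c : ℝ) - 1 := by linarith
  have hdn : dn h (h + c) = sylvester c := by simp [dn]
  by_contra hcon
  rw [not_lt] at hcon
  have hxc : x (h + c) ≤ 3 / 4 / (sylvester c : ℝ) := by
    rw [le_div_iff₀ h0]
    unfold ep at hcon
    rw [hdn, sub_mul, one_div_mul_cancel h0.ne'] at hcon
    linarith
  let y : ℕ → ℝ := fun i => if i < h + c then 1 / (dn h i : ℝ) else 3 / 4 / (sylvester c : ℝ)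
  have hy1 : ∀ i ∈ range (h + c), y i = 1 / (dn h i : ℝ) := by
    intro i hi
    simp only [y]
    rw [if_pos (mem_range.1 hi)]
  have hy2 : y (h + c) = 3 / 4 / (sylvester c : ℝ) := by
    simp only [y]
    rw [if_neg (lt_irrefl _)]
  have hP : ∏ i ∈ range (h + c + 1), y i =
      1 / ((sylvester c : ℝ) - 1) * (3 / 4 / (sylvester c : ℝ)) := by
    rw [prod_range_succ, prod_congr rfl hy1, d2, hy2]
  have hR : (h : ℝ) + 1 - ∑ i ∈ range (h + c + 1), y i =
      1 / ((sylvester c : ℝ) - 1) - 3 / 4 / (sylvester c : ℝ) := by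
    rw [sum_range_succ, sum_congr rfl hy1, d1, hy2]
    ring
  have hRpos : 0 < 1 / ((sylvester c : ℝ) - 1) - 3 / 4 / (sylvester c : ℝ) := by
    rw [sub_pos, div_lt_div_iff₀ h0 h1]
    linarith
  have hT := hTAI hCEX (h + c + 1) 0 ((h : ℝ) + 1) x y (fun i hi => hx.pos i hi)
    (fun i hi => hx.anti i (i + 1) (Nat.le_succ i) hi) (fun i hi => ?_)
    (fun k hk => hPSI _ _ _ hx k hk) (by rw [hR]; exact hRpos)
  · rw [Function.iterate_zero, id_eq, hP, hR] at hT
    have hK : (sylvester (c + 2) : ℝ) - 1 = ((sylvester c : ℝ) * ((sylvester c : ℝ) - 1) + 1) *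
        ((sylvester c : ℝ) * ((sylvester c : ℝ) - 1)) := by
      have e1 := sylvester_cast (c + 1)
      have e2 := sylvester_cast c
      have e3 : (sylvester (c + 1) : ℝ) =
          (sylvester c : ℝ) * ((sylvester c : ℝ) - 1) + 1 := by linarith
      rw [e2] at e1
      rw [e1, e3]
    have hKpos : 0 < (sylvester (c + 2) : ℝ) - 1 := by
      rw [hK]
      positivity
    have hk := key hs
    rw [← hK] at hk
    have hH := hTHR c _ hc hk
    rw [mul_div_assoc, div_self hKpos.ne', mul_one] at hH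
    have hHpos : (0 : ℝ) ≤ (HH (LL c) : ℝ) := Nat.cast_nonneg _
    have h8 := mul_le_mul_of_nonneg_right hT hHpos
    unfold Small at hsm
    have e9 : h + c + 1 + 0 + 1 = h + c + 2 := rfl
    rw [e9] at h8
    linarith
  · rcases Nat.lt_succ_iff_lt_or_eq.1 hi with h2 | h2
    · have h3 : y i = 1 / (dn h i : ℝ) := hy1 i (mem_range.2 h2)
      rw [h3]
      have h4 : (0 : ℝ) < dn h i := by exact_mod_cast d4 h i
      refine ⟨by positivity, ?_⟩
      have h5 := hep i h2
      unfold ep at h5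
      linarith
    · rw [h2, hy2]
      exact ⟨by positivity, hxc⟩

end G6
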