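import Pool.Agent.G6.St

/-!
# G6, module CLO: the ones
-/

set_option autoImplicit false

namespace G6

open Finset MldGap

namespace CLO

/-- the caps -/
noncomputable def yc (g : ℕ) (θ : ℝ) (i : ℕ) : ℝ := if i < g then 1 else if i = g then 1 - θ else 1 / 2

theorem yc_sum (g : ℕ) (θ : ℝ) : ∑ i ∈ range (g + 2), yc g θ i = g + (1 - θ) + 1 / 2 := by
  rw [sum_range_succ, sum_range_succ]
  have h1 : ∑ i ∈ range g, yc g θ i = g := by
    rw [sum_congr rfl (g := fun _ => (1 : ℝ)) (fun i hi => by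
      unfold yc
      rw [if_pos (mem_range.1 hi)])]
    simp
  have h2 : yc g θ g = 1 - θ := by
    unfold yc
    rw [if_neg (lt_irrefl g), if_pos rfl]
  have h3 : yc g θ (g + 1) = 1 / 2 := by
    unfold yc
    rw [if_neg (by omega), if_neg (by omega)]
  rw [h1, h2, h3]

theorem yc_prod (g : ℕ) (θ : ℝ) : ∏ i ∈ range (g + 2), yc g θ i = (1 - θ) * (1 / 2) := by
  rw [prod_range_succ, prod_range_succ]
  have h1 : ∏ i ∈ range g, yc g θ i = 1 := by
    refine prod_eq_one fun i hi => ?_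
    unfold yc
    rw [if_pos (mem_range.1 hi)]
  have h2 : yc g θ g = 1 - θ := by
    unfold yc
    rw [if_neg (lt_irrefl g), if_pos rfl]
  have h3 : yc g θ (g + 1) = 1 / 2 := by
    unfold yc
    rw [if_neg (by omega), if_neg (by omega)]
  rw [h1, h2, h3, one_mul]

end CLO

open CLO in
theorem t_CLO : Stmt_CLO := by
  intro hCEX hTAI hGRO hTHR hDNS hPSI c h x hc hh hx hsm hhalf
  by_contra hcon
  rw [not_lt] at hcon
  obtain ⟨g, rfl⟩ : ∃ g, h = g + 1 := ⟨h - 1, by omega⟩
  rw [Nat.add_sub_cancel] at hcon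
  have hs : (43 : ℝ) ≤ (sylvester c : ℝ) := by
    exact_mod_cast (hDNS.2.2.2.2.2.2 c hc).1
  set θ : ℝ := 1 / (sylvester c : ℝ) with hθ
  have hθ0 : 0 < θ := by positivity
  have hθ1 : θ ≤ 1 / 43 := by
    rw [hθ]
    exact one_div_le_one_div_of_le (by norm_num) hs
  have key := hTAI hCEX (g + 2) c (((g + 1 : ℕ) : ℝ) + 1) x (yc g θ)
    (fun i hi => hx.pos i (by omega))
    (fun i hi => hx.anti i (i + 1) (by omega) (by omega))
    (fun i hi => by
      unfold yc
      by_cases h1 : i < g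
      · rw [if_pos h1]
        exact ⟨one_pos, (hx.lt_one i (by omega)).le⟩
      · rw [if_neg h1]
        by_cases h2 : i = g
        · rw [if_pos h2, h2]
          exact ⟨by linarith, hcon⟩
        · rw [if_neg h2]
          have h3 : i = g + 1 := by omega
          rw [h3]
          exact ⟨by norm_num, hhalf⟩)
    (fun k hk => hPSI _ _ x hx k (by omega))
    (by
      rw [yc_sum]
      push_cast
      linarith)
  rw [yc_sum, yc_prod] at key
  have hR : ((g + 1 : ℕ) : ℝ) + 1 - ((g : ℝ) + (1 - θ) + 1 / 2) = 1 / 2 + θ := by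
    push_cast
    ring
  rw [hR] at key
  have h7 : sylvester 2 = 7 := by decide
  have hQ : (1 + (9 / 10) * θ) / ((sylvester 2 : ℝ) - 1) ≤
      (1 - θ) * (1 / 2) * (1 / 2 + θ) / (1 + (1 - θ) * (1 / 2)) := by
    rw [h7]
    push_cast
    rw [div_le_div_iff₀ (by norm_num) (by linarith)]
    nlinarith
  have hG := hGRO 2 c ((9 / 10) * θ) _ le_rfl (by positivity) hQ
  have hw : 1 + (21 / 20) / (sylvester c : ℝ) ≤ 1 + (13 / 7) ^ c * ((9 / 10) * θ) := by
    have h1 : (21 / 20) / (sylvester c : ℝ) = (21 / 20) * θ := by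
      rw [hθ]
      ring
    have h2 : ((13 / 7 : ℝ)) ^ 3 ≤ (13 / 7) ^ c := pow_le_pow_right₀ (by norm_num) hc
    have h3 : (6 : ℝ) ≤ (13 / 7) ^ c := le_trans (by norm_num) h2
    rw [h1]
    nlinarith
  have hT := hTHR c _ hc hw
  have hfin := hG.trans key
  rw [add_comm 2 c] at hfin
  have hH : (0 : ℝ) ≤ (HH (LL c) : ℝ) := Nat.cast_nonneg _
  have h1 := mul_le_mul_of_nonneg_right hfin hH
  unfold Small at hsm
  have h2 : g + 2 + c + 1 = g + 1 + c + 2 := by omega
  rw [h2] at h1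
  linarith

end G6
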