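import Pool.Agent.G6.St

/-!
# G6_END: the contradiction
-/

namespace G6

open Finset MldGap

theorem t_END : Stmt_END := by
  rintro ⟨-, -, D3, D4, -⟩ c h x hc hS hep ⟨he, k, ⟨z, hz⟩, hne⟩
  have h0 : ∀ i < h + c, ep h x i = 0 := by
    intro i hi
    exact (Finset.sum_eq_zero_iff_of_nonneg fun j hj =>
      hep j (by have := mem_range.1 hj; omega)).1 he i (mem_range.2 hi)
  have h1 : ∀ i < h + c, x i = 1 / (dn h i : ℝ) := by
    intro i hi
    have h2 := h0 i hi
    unfold ep at h2
    linarith
  have h3 : h = 0 := by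
    by_contra hh
    have h4 := h1 0 (by omega)
    have h5 := hS.lt_one 0 (by omega)
    have h6 : dn h 0 = 1 := by
      unfold dn
      rw [if_pos (by omega)]
    rw [h4, h6] at h5
    norm_num at h5
  subst h3
  have h4 : ∀ i < 0 + c, Int.fract ((k : ℝ) * x i) = 0 := by
    intro i hi
    obtain ⟨d, hd⟩ := D3 0 c i hi
    have hpos : (dn 0 i : ℝ) ≠ 0 := by
      have := D4 0 i
      positivity
    have h5 : (k : ℝ) = (dn 0 i : ℝ) * d * z := by
      rw [hz]
      unfold LL
      rw [hd]
      push_cast
      ring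
    have h6 : (k : ℝ) * x i = ((d * z : ℤ) : ℝ) := by
      rw [h1 i hi, h5]
      push_cast
      field_simp
    rw [h6, Int.fract_intCast]
  apply hne
  constructor
  · intro ha
    apply hS.refl (0 + c + 1) (by omega) k
    intro j hj hj2
    by_cases h5 : j < 0 + c
    · exact h4 j h5
    · have h6 : j = 0 + c := by omega
      rw [h6]
      exact ha
  · intro hb
    apply hS.refl (0 + c) (by omega) k
    intro j hj hj2
    by_cases h5 : j < 0 + c
    · exact h4 j h5
    · have h6 : j = 0 + c + 1 := by omega
      rw [h6]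
      exact hb

end G6
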