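import Pool.Agent.G6.St

/-!
# G6, module GRO: growth of the function `gg` along the Sylvester numbers
-/

namespace G6

open Finset MldGap

noncomputable section

namespace GRO

theorem gg_mono {P Q : ℝ} (hP : 0 < P) (h : P ≤ Q) : gg P ≤ gg Q := by
  unfold gg
  rw [div_le_div_iff₀ (by linarith) (by linarith)]
  nlinarith [mul_pos hP (lt_of_lt_of_le hP h), mul_nonneg (mul_pos hP (lt_of_lt_of_le hP h)).le
    (sub_nonneg.2 h), sq_nonneg P, sq_nonneg Q]

theorem seven_le (j : ℕ) (hj : 2 ≤ j) : (7 : ℝ) ≤ (sylvester j : ℝ) := by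
  induction j, hj using Nat.le_induction with
  | base =>
    have : sylvester 2 = 7 := by decide
    rw [this]
    norm_num
  | succ j hj ih =>
    have h := sylvester_cast j
    nlinarith

theorem step {A x Q : ℝ} (hA : 6 ≤ A) (hx : 0 ≤ x) (hQ : (1 + x) / A ≤ Q) :
    (1 + (13 / 7) * x) / (A * (A + 1)) ≤ gg Q := by
  have hA0 : 0 < A := by linarith
  have h1 : 0 < (1 + x) / A := by positivity
  refine le_trans ?_ (gg_mono h1 hQ)
  have h2 : gg ((1 + x) / A) = (1 + x) ^ 2 / (A * (A + 1 + x)) := by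
    unfold gg
    have h3 : A + 1 + x ≠ 0 := by positivity
    have h4 : 1 + (1 + x) / A ≠ 0 := by positivity
    field_simp
    ring
  rw [h2, div_le_div_iff₀ (by positivity) (by positivity)]
  have h5 : (1 + 13 / 7 * x) * (A + 1 + x) ≤ (1 + x) ^ 2 * (A + 1) := by
    nlinarith [mul_nonneg hx (sub_nonneg.2 hA), mul_nonneg (mul_nonneg hx hx) (sub_nonneg.2 hA)]
  calc (1 + 13 / 7 * x) * (A * (A + 1 + x)) = A * ((1 + 13 / 7 * x) * (A + 1 + x)) := by ring
    _ ≤ A * ((1 + x) ^ 2 * (A + 1)) := mul_le_mul_of_nonneg_left h5 hA0.le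
    _ = (1 + x) ^ 2 * (A * (A + 1)) := by ring

end GRO

theorem t_GRO : Stmt_GRO := by
  intro j r
  induction r generalizing j with
  | zero =>
    intro x Q _ _ hQ
    simpa using hQ
  | succ r ih =>
    intro x Q hj hx hQ
    rw [Function.iterate_succ_apply]
    have h7 := GRO.seven_le j hj
    have h1 := GRO.step (A := (sylvester j : ℝ) - 1) (by linarith) hx hQ
    have h2 : (1 + (13 / 7) * x) / ((sylvester (j + 1) : ℝ) - 1) ≤ gg Q := by
      rw [sylvester_cast]
      refine le_trans (le_of_eq ?_) h1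
      congr 1
      ring
    have h3 := ih (j + 1) ((13 / 7) * x) (gg Q) (by omega) (by positivity) h2
    have h4 : j + (r + 1) = j + 1 + r := by omega
    rw [h4, pow_succ, mul_assoc]
    exact h3

end

end G6
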