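import Pool.Agent.G6.St

set_option autoImplicit false

/-!
# HLF: the first coordinate after the ones
-/

namespace G6

open Finset MldGap

namespace HLF

theorem card_le {m h : ℕ} (hm : h < m) :
    ∑ i ∈ range m, (if i ≤ h then (1 : ℝ) else 0) = h + 1 := by
  rw [Finset.sum_ite, Finset.sum_const_zero, add_zero, Finset.sum_const, nsmul_eq_mul, mul_one]
  have h1 : (range m).filter (fun i => i ≤ h) = range (h + 1) := by
    ext i
    simp only [Finset.mem_filter, Finset.mem_range]
    omega
  rw [h1, Finset.card_range]
  push_cast
  rfl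

end HLF

open HLF in
theorem t_HLF : Stmt_HLF := by
  intro m h x hm hx
  by_contra hc
  push Not at hc
  have h1 := hx.min 2
  have h2 : ∑ i ∈ range m, thr (((2 : ℤ) : ℝ) * x i) ≤
      ∑ i ∈ range m, (2 * x i - if i ≤ h then (1 : ℝ) else 0) := by
    refine Finset.sum_le_sum fun i hi => ?_
    have hi' := Finset.mem_range.1 hi
    have h3 := hx.pos i hi'
    split_ifs with h4
    · have h5 := hx.anti i h h4 hm
      refine thr_le 1 (by linarith) ?_
      push_cast
      ring
    · refine thr_le 0 (by linarith) ?_
      push_cast
      ring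
  rw [Finset.sum_sub_distrib, card_le hm, ← Finset.mul_sum] at h2
  have h3 := hx.lt
  linarith

end G6
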