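import Pool.Agent.G6.St

/-!
# G6_MAI: the bound for sorted families
-/

namespace G6

open Finset MldGap

theorem t_MAI : Stmt_MAI := by
  intro hDNS hPSI hCEX hTAI hGRO hTHR hHLF hSTG hCLO hCLA hCLB hCLC hALL hUBD hPLN hPLA hEND
    c h x hc hh hS
  by_contra hcon
  push Not at hcon
  have hs : 43 ≤ sylvester c := (hDNS.2.2.2.2.2.2 c hc).1
  have hL : 42 ≤ LL c := by
    unfold LL
    omega
  have hH : (0 : ℝ) < (HH (LL c) : ℝ) := by
    have : 0 < HH (LL c) := by
      unfold HH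
      positivity
    exact_mod_cast this
  have hSmall : Small h c x := by
    unfold Small
    rw [← lt_div_iff₀ hH]
    linarith
  obtain ⟨h1, h2⟩ := hALL hCEX hTAI hGRO hTHR hDNS hPSI hHLF hSTG hCLO hCLA hCLB c h x hc hS hSmall
  have h3 := hCLC hCEX hTAI hTHR hDNS hPSI c h x hc hS hSmall (fun i hi => h1 i (by omega))
  have h4 := hUBD hDNS hPSI c h x hc hh hS hSmall h1 h2 h3
  have h5 := hPLN hDNS c h x hc hS hSmall h1 h2 h4
  exact hEND hDNS c h x hc hS h1 (hPLA _ _ _ _ _ (by omega) h5)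

end G6
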