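import Pool.Agent.G6.St
import Mathlib.Algebra.Order.Floor.Semifield

/-!
# G6, module P11: the first case of the plane problem
-/

namespace G6

open Finset MldGap

noncomputable section

namespace P11

/-- the minimality for a multiple with given positive representatives -/
theorem use_min {L : ℕ} {a b e δ : ℝ} (hP : Plane L a b e δ) (k z₁ z₂ : ℤ) {y y' : ℝ}
    (hk : (L : ℤ) ∣ k - 1) (he : ((k : ℝ) - 1) * e ≤ 2 / L) (hy : 0 < y) (hy' : 0 < y')
    (h1 : k * a = y + z₁) (h2 : k * b = y' + z₂) : a + b + ((k : ℝ) - 1) * e ≤ y + y' :=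
  (hP.min k hk he).trans (add_le_add (thr_le z₁ hy h1) (thr_le z₂ hy' h2))

/-- the real number part of the proof, after the introduction of `K, ε, μ, ν` -/
theorem phi_lt {l m K b μ : ℝ} (hl : 6 ≤ l) (hm : l ^ 2 ≤ m) (hK : K = l * (l + 1))
    (hμ : K * b = 1 - μ) (hμ1 : μ * (l ^ 3 + l ^ 2 + 1) < l + 1) (h1 : 1 + b ≤ (m + 1) * μ)
    (hφ : 0 < 1 - m * μ) : 1 - m * μ < b ∧ (1 - m * μ) * (K + 1) ≤ 1 := by
  have hK0 : 0 < K := by
    rw [hK]
    positivity
  have hm0 : 0 < m := by nlinarith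
  have h2 : K * (1 - m * μ) ≤ (K + 1) * μ - 1 := by
    have h3 : K * (1 - m * μ) ≤ K * (μ - b) := by
      refine mul_le_mul_of_nonneg_left ?_ hK0.le
      linarith
    linarith
  have h4 : (1 - m * μ) * (m * K + K + 1) ≤ K + 1 - m := by
    have h5 := mul_le_mul_of_nonneg_left h2 hm0.le
    nlinarith
  have h5 : (1 - m * μ) * (l ^ 2 * K + K + 1) ≤ l + 1 := by
    have h6 : (1 - m * μ) * (l ^ 2 * K + K + 1) ≤ (1 - m * μ) * (m * K + K + 1) := by
      refine mul_le_mul_of_nonneg_left ?_ hφ.le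
      nlinarith
    nlinarith
  have h6 : (1 - m * μ) * (K * (l ^ 2 + 1)) ≤ l + 1 := by nlinarith
  refine ⟨?_, ?_⟩
  · have h7 : K * (1 - m * μ) * (l ^ 2 + 1) ≤ l + 1 := by linarith
    have h8 : l ^ 3 - l < K * b * (l ^ 3 + l ^ 2 + 1) := by
      rw [hμ]
      nlinarith
    have h9 : (l + 1) * (l ^ 3 + l ^ 2 + 1) < (l ^ 3 - l) * (l ^ 2 + 1) := by
      have i1 : 0 ≤ l ^ 3 * (l - 6) := by
        have : 0 ≤ l - 6 := by linarith
        positivity
      have i2 : 0 ≤ l ^ 2 * (l - 6) := by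
        have : 0 ≤ l - 6 := by linarith
        positivity
      nlinarith [mul_nonneg (sq_nonneg l) i2, mul_nonneg (by linarith : (0 : ℝ) ≤ l) i1]
    have hp1 : 0 < l ^ 3 + l ^ 2 + 1 := by positivity
    have hp2 : 0 < l ^ 2 + 1 := by positivity
    by_contra hc
    rw [not_lt] at hc
    have j1 : K * b * (l ^ 2 + 1) ≤ l + 1 := by
      have : K * b * (l ^ 2 + 1) ≤ K * (1 - m * μ) * (l ^ 2 + 1) := by gcongr
      linarith
    have j2 : K * b * (l ^ 2 + 1) * (l ^ 3 + l ^ 2 + 1) ≤ (l + 1) * (l ^ 3 + l ^ 2 + 1) :=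
      mul_le_mul_of_nonneg_right j1 hp1.le
    have j3 : (l ^ 3 - l) * (l ^ 2 + 1) < K * b * (l ^ 3 + l ^ 2 + 1) * (l ^ 2 + 1) :=
      mul_lt_mul_of_pos_right h8 hp2
    linarith
  · have h7 : (1 - m * μ) * (l * (l ^ 2 + 1)) ≤ 1 := by
      have h8 : ((1 - m * μ) * (l * (l ^ 2 + 1))) * (l + 1) ≤ 1 * (l + 1) := by
        rw [hK] at h6
        linarith
      exact le_of_mul_le_mul_right h8 (by linarith)
    have h8 : (1 - m * μ) * (K + 1) ≤ (1 - m * μ) * (l * (l ^ 2 + 1)) := by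
      refine mul_le_mul_of_nonneg_left ?_ hφ.le
      rw [hK]
      nlinarith
    linarith

/-- the slack in step 1 -/
theorem slack_one {l m K μ Y Z : ℝ} (hl : 6 ≤ l) (hm : l ^ 2 ≤ m) (hK : K = l * (l + 1))
    (hμK : 1 ≤ (K + 1) * μ) (hY : m * Y ≤ 1) (hY0 : 0 ≤ Y) (hZ : Z ≤ Y - μ) :
    (m + 1) * Z * l ≤ 2 := by
  have hl0 : 0 < l := by linarith
  have hm0 : 0 < m := by nlinarith
  have hY1 : Y * l ^ 2 ≤ 1 := by
    have : Y * l ^ 2 ≤ Y * m := mul_le_mul_of_nonneg_left hm hY0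
    linarith
  have hY2 : Y * l ≤ 1 := by
    have : Y * l ≤ Y * l ^ 2 := by
      refine mul_le_mul_of_nonneg_left ?_ hY0
      nlinarith
    linarith
  have h1 : l ^ 2 + 1 ≤ (m + 1) * μ * (K + 1) := by
    have h2 : (m + 1) * 1 ≤ (m + 1) * ((K + 1) * μ) :=
      mul_le_mul_of_nonneg_left hμK (by linarith)
    linarith
  obtain ⟨X, hX⟩ : ∃ X, X = (m + 1) * μ := ⟨_, rfl⟩
  rw [← hX] at h1
  have h2 : (m + 1) * Z ≤ 1 + Y - X := by
    have h3 : (m + 1) * Z ≤ (m + 1) * (Y - μ) := mul_le_mul_of_nonneg_left hZ (by linarith)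
    rw [hX]
    linarith
  have h7 : (1 - X) * (K + 1) ≤ l := by
    rw [hK] at h1 ⊢
    linarith
  have h6 : (1 - X) * l ≤ 1 := by
    by_cases h8 : 0 ≤ 1 - X
    · have h9 : (1 - X) * l ^ 2 ≤ (1 - X) * (K + 1) := by
        refine mul_le_mul_of_nonneg_left ?_ h8
        rw [hK]
        nlinarith
      have h10 : ((1 - X) * l) * l ≤ 1 * l := by linarith
      exact le_of_mul_le_mul_right h10 hl0
    · rw [not_le] at h8
      have : (1 - X) * l < 0 := mul_neg_of_neg_of_pos h8 hl0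
      linarith
  have h8 : (m + 1) * Z * l ≤ (1 + Y - X) * l := mul_le_mul_of_nonneg_right h2 hl0.le
  linarith

/-- the bounds in step 2 -/
theorem small_two {l K μ φ : ℝ} (hl : 6 ≤ l) (hK : K = l * (l + 1))
    (hμ1 : μ * (l ^ 3 + l ^ 2 + 1) < l + 1) (hφK : φ * (K + 1) ≤ 1) :
    (μ + 2 * φ) * (l + 3) < 1 := by
  have h1 : μ * (l + 3) * 2 < 1 := by
    have h2 : (μ * (l + 3) * 2) * (l ^ 3 + l ^ 2 + 1) < 1 * (l ^ 3 + l ^ 2 + 1) := by
      have h3 : (μ * (l + 3) * 2) * (l ^ 3 + l ^ 2 + 1) =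
          (μ * (l ^ 3 + l ^ 2 + 1)) * ((l + 3) * 2) := by ring
      rw [h3]
      have h4 : (μ * (l ^ 3 + l ^ 2 + 1)) * ((l + 3) * 2) < (l + 1) * ((l + 3) * 2) :=
        mul_lt_mul_of_pos_right hμ1 (by linarith)
      have h5 : (l + 1) * ((l + 3) * 2) ≤ 1 * (l ^ 3 + l ^ 2 + 1) := by
        nlinarith [mul_nonneg (sq_nonneg l) (by linarith : (0 : ℝ) ≤ l - 6)]
      linarith
    exact lt_of_mul_lt_mul_right h2 (by positivity)
  have h5 : φ * (l + 3) * 4 < 1 := by
    have h6 : (φ * (l + 3) * 4) * (K + 1) < 1 * (K + 1) := by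
      have h7 : (φ * (l + 3) * 4) * (K + 1) = (φ * (K + 1)) * ((l + 3) * 4) := by ring
      rw [h7]
      have h8 : (φ * (K + 1)) * ((l + 3) * 4) ≤ 1 * ((l + 3) * 4) :=
        mul_le_mul_of_nonneg_right hφK (by linarith)
      have h9 : 1 * ((l + 3) * 4) < 1 * (K + 1) := by
        rw [hK]
        nlinarith
      linarith
    exact lt_of_mul_lt_mul_right h6 (by rw [hK]; nlinarith)
  linarith

/-- the lower bound for `a` -/
theorem a_low {l a ε : ℝ} (hl : 6 ≤ l) (h1 : ε * (l ^ 3 * (l + 1)) ≤ l + 3)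
    (h2 : a * (l + 1) = 1 - ε * (l + 1)) : 1 < a * (l + 3) := by
  have h3 : (ε * (l + 1)) * (l + 3) < 2 := by
    have h4 : ((ε * (l + 1)) * (l + 3)) * l ^ 3 < 2 * l ^ 3 := by
      have h5 : ((ε * (l + 1)) * (l + 3)) * l ^ 3 = (ε * (l ^ 3 * (l + 1))) * (l + 3) := by ring
      rw [h5]
      have h6 : (ε * (l ^ 3 * (l + 1))) * (l + 3) ≤ (l + 3) * (l + 3) :=
        mul_le_mul_of_nonneg_right h1 (by linarith)
      nlinarith [mul_nonneg (sq_nonneg l) (by linarith : (0 : ℝ) ≤ l - 6)]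
    exact lt_of_mul_lt_mul_right h4 (by positivity)
  have h7 : 1 * (l + 1) < (a * (l + 3)) * (l + 1) := by
    have h8 : (a * (l + 3)) * (l + 1) = (1 - ε * (l + 1)) * (l + 3) := by
      rw [← h2]
      ring
    rw [h8]
    linarith
  exact lt_of_mul_lt_mul_right h7 (by linarith)

end P11

open P11 in
theorem t_P11 : Stmt_P11 := by
  intro L M a b e δ hL hP hb hLM hMδ hMδ1 ha
  have hl : (6 : ℝ) ≤ L := by exact_mod_cast hL
  have hm : (L : ℝ) ^ 2 ≤ M := by exact_mod_cast hLM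
  have hsum := hP.sum
  have hsmall := hP.small
  have hale := hP.a_le
  have hps := hP.ps
  have he0 := hP.e_nonneg
  have hb0 := hP.b_pos
  have ha0 := hP.a_pos
  have hδ0 := hP.δ_pos
  obtain ⟨l, hldef⟩ : ∃ l : ℝ, l = L := ⟨_, rfl⟩
  obtain ⟨m, hmdef⟩ : ∃ m : ℝ, m = M := ⟨_, rfl⟩
  obtain ⟨K, hK⟩ : ∃ K : ℝ, K = l * (l + 1) := ⟨_, rfl⟩
  obtain ⟨ε, hε⟩ : ∃ ε : ℝ, ε = 1 / (l + 1) - a := ⟨_, rfl⟩
  rw [← hldef] at hl hm hsum hsmall hale hps hb hMδ hMδ1 ha
  rw [← hmdef] at hm hMδ hMδ1 ha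
  rw [← hK] at hb hMδ hMδ1 ha
  rw [← hε] at hps ha
  have hl0 : 0 < l := by linarith
  have hm1 : 1 ≤ m := le_trans (by nlinarith : (1 : ℝ) ≤ l ^ 2) hm
  have hm0 : 0 < m := by linarith
  have hK0 : 0 < K := by
    rw [hK]
    positivity
  have hε0 : 0 ≤ ε := by
    rw [hε, sub_nonneg, le_div_iff₀ (by linarith)]
    exact hale
  have hKa : K * a = l - K * ε := by
    rw [hε, hK]
    field_simp
    ring
  obtain ⟨μ, hμ⟩ : ∃ μ : ℝ, μ = 1 - K * b := ⟨_, rfl⟩
  obtain ⟨ν, hν⟩ : ∃ ν : ℝ, ν = K * (ε + e) := ⟨_, rfl⟩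
  have hKb : K * b = 1 - μ := by linarith
  have hKδ : K * δ = μ + ν := by
    have h1 : δ = 1 / l + e - (a + b) := by linarith
    have h2 : K * δ = K * (1 / l) + K * e - K * a - K * b := by
      rw [h1]
      ring
    have h3 : K * (1 / l) = l + 1 := by
      rw [hK]
      field_simp
    rw [h2, h3, hKa, hKb, hν]
    ring
  have hν0 : 0 ≤ ν := by
    rw [hν]
    positivity
  have hbμ : b ≤ μ := by linarith
  have hμK : 1 ≤ (K + 1) * μ := by
    have h1 : K * (b * (K + 1)) ≤ K * 1 := mul_le_mul_of_nonneg_left hb hK0.le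
    rw [hμ]
    linarith
  have hμ1 : μ * (l ^ 3 + l ^ 2 + 1) < l + 1 := by
    have h1 : μ ≤ K * δ := by linarith
    have h2 : μ * (l ^ 3 + l ^ 2 + 1) ≤ K * δ * (l ^ 3 + l ^ 2 + 1) :=
      mul_le_mul_of_nonneg_right h1 (by positivity)
    have h3 : K * δ * (l ^ 3 + l ^ 2 + 1) = (l + 1) * (δ * (l * (l ^ 3 + l ^ 2 + 1))) := by
      rw [hK]
      ring
    have h4 : (l + 1) * (δ * (l * (l ^ 3 + l ^ 2 + 1))) < (l + 1) * 1 :=
      mul_lt_mul_of_pos_left hsmall (by linarith)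
    linarith
  have hμ0 : 0 < μ := by linarith
  have hν1 : m * ν ≤ 1 - m * μ := by
    rw [hKδ] at hMδ
    linarith
  have hKe : K * e ≤ ν := by
    rw [hν]
    linarith [mul_nonneg hK0.le hε0]
  have hKε : K * ε ≤ ν := by
    rw [hν]
    linarith [mul_nonneg hK0.le he0]
  have hcastK : ((L : ℝ) * (L + 1)) = K := by rw [hK, hldef]
  -- step 1
  have step1 : 1 + b ≤ (m + 1) * μ := by
    by_contra hc
    rw [not_le] at hc
    have hk : (((1 + (M + 1) * (L * (L + 1)) : ℤ)) : ℝ) = 1 + (m + 1) * K := by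
      push_cast
      rw [hcastK, hmdef]
    have he : (((1 + (M + 1) * (L * (L + 1)) : ℤ) : ℝ) - 1) * e ≤ 2 / L := by
      rw [hk, ← hldef, le_div_iff₀ hl0]
      have h1 := slack_one hl hm hK hμK hMδ (by positivity) (by linarith : K * e ≤ K * δ - μ)
      linarith
    have hmin := use_min hP (1 + (M + 1) * (L * (L + 1))) ((M + 1) * L) M
      (y := a - (m + 1) * (K * ε)) (y' := 1 + b - (m + 1) * μ)
      ⟨(M + 1) * (L + 1), by ring⟩ he (by linarith) (by linarith)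
      (by
        rw [hk]
        push_cast
        rw [← hldef, ← hmdef]
        linear_combination (m + 1) * hKa)
      (by
        rw [hk]
        push_cast
        rw [← hmdef]
        linear_combination (m + 1) * hKb)
    rw [hk] at hmin
    have h1 : (m + 1) * (K * δ) ≤ 1 := by
      rw [hKδ, hν]
      linarith
    linarith
  -- step 2
  have step2 : 1 - m * μ ≤ 0 := by
    by_contra hc
    rw [not_le] at hc
    obtain ⟨hφb, hφK⟩ := phi_lt hl hm hK hKb hμ1 step1 hc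
    obtain ⟨φ, hφ⟩ : ∃ φ : ℝ, φ = 1 - m * μ := ⟨_, rfl⟩
    rw [← hφ] at hφb hφK hc hν1
    have hζ0 : 0 ≤ (μ - b) / φ := div_nonneg (by linarith) hc.le
    obtain ⟨t, ht⟩ : ∃ t : ℕ, t = ⌊(μ - b) / φ⌋₊ + 1 := ⟨_, rfl⟩
    have ht1 : μ - b < t * φ := by
      have h1 := Nat.lt_floor_add_one ((μ - b) / φ)
      rw [div_lt_iff₀ hc] at h1
      rw [ht]
      push_cast
      exact h1
    have ht2 : t * φ ≤ μ - b + φ := by
      have h1 := Nat.floor_le hζ0
      rw [le_div_iff₀ hc] at h1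
      rw [ht]
      push_cast
      linarith
    have ht0 : (0 : ℝ) ≤ t := Nat.cast_nonneg t
    have hν2 : ν ≤ φ := by
      have h1 : 1 * ν ≤ m * ν := mul_le_mul_of_nonneg_right hm1 hν0
      linarith
    have hbd : (t * m + 1) * ν ≤ μ + 2 * φ := by
      have h1 : t * (m * ν) ≤ t * φ := mul_le_mul_of_nonneg_left hν1 ht0
      linarith
    have hbd2 : (μ + 2 * φ) * (l + 3) < 1 := small_two hl hK hμ1 hφK
    have halow : 1 < a * (l + 3) := by
      refine a_low (ε := ε) hl ?_ ?_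
      · have : ε * (l ^ 3 * (l + 1)) ≤ (ε + e) * (l ^ 3 * (l + 1)) := by
          refine mul_le_mul_of_nonneg_right ?_ (by positivity)
          linarith
        linarith
      · rw [hε]
        field_simp
        ring
    have hνa : (t * m + 1) * ν < a := by
      have h1 : ((t * m + 1) * ν) * (l + 3) < a * (l + 3) := by
        have : ((t * m + 1) * ν) * (l + 3) ≤ (μ + 2 * φ) * (l + 3) :=
          mul_le_mul_of_nonneg_right hbd (by positivity)
        linarith
      exact lt_of_mul_lt_mul_right h1 (by positivity)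
    have htm : (0 : ℝ) ≤ t * m + 1 := by positivity
    have hk : (((1 + (t * M + 1) * (L * (L + 1)) : ℤ)) : ℝ) = 1 + (t * m + 1) * K := by
      push_cast
      rw [hcastK, hmdef]
    have he : (((1 + (t * M + 1) * (L * (L + 1)) : ℤ) : ℝ) - 1) * e ≤ 2 / L := by
      rw [hk, ← hldef, le_div_iff₀ hl0]
      have h1 : (t * m + 1) * (K * e) ≤ (t * m + 1) * ν := mul_le_mul_of_nonneg_left hKe htm
      have h2 : (t * m + 1) * (K * e) ≤ μ + 2 * φ := by linarith
      have h3 : ((t * m + 1) * (K * e)) * l ≤ (μ + 2 * φ) * l := mul_le_mul_of_nonneg_right h2 hl0.le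
      have h4 : (μ + 2 * φ) * l ≤ (μ + 2 * φ) * (l + 3) := by
        refine mul_le_mul_of_nonneg_left (by linarith) ?_
        linarith
      linarith
    have hyp : 0 < a - (t * m + 1) * (K * ε) := by
      have h1 : (t * m + 1) * (K * ε) ≤ (t * m + 1) * ν := mul_le_mul_of_nonneg_left hKε htm
      linarith
    have hmin := use_min hP (1 + (t * M + 1) * (L * (L + 1))) ((t * M + 1) * L) (t * M + 1 - t)
      (y := a - (t * m + 1) * (K * ε)) (y' := t * φ - (μ - b))
      ⟨(t * M + 1) * (L + 1), by ring⟩ he hyp (by linarith)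
      (by
        rw [hk]
        push_cast
        rw [← hldef, ← hmdef]
        linear_combination (t * m + 1) * hKa)
      (by
        rw [hk]
        push_cast
        rw [← hmdef, hφ]
        linear_combination (t * m + 1) * hKb)
    rw [hk] at hmin
    have h1 : 0 ≤ (t * m + 1) * (K * e) := by positivity
    have h2 : 0 ≤ (t * m + 1) * (K * ε) := by positivity
    linarith
  -- step 3
  have hν3 : m * ν = 0 := le_antisymm (by linarith) (by positivity)
  have hν4 : ν = 0 := by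
    rcases mul_eq_zero.1 hν3 with h | h
    · exact absurd h hm0.ne'
    · exact h
  have hee : ε + e = 0 := by
    rw [hν] at hν4
    rcases mul_eq_zero.1 hν4 with h | h
    · exact absurd h hK0.ne'
    · exact h
  have hmμ : m * μ = 1 := by
    have h1 : m * ν = 0 := hν3
    linarith
  refine ⟨by linarith, ?_, ?_⟩
  · rw [← hldef]
    have h1 : ε = 0 := by linarith
    have h2 : a = 1 / (l + 1) := by linarith
    rw [h2]
    field_simp
  · rw [hcastK, ← hμ, ← hmdef]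
    exact hmμ

end

end G6
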