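import Pool.Agent.G6.St

/-!
P12A: the case of the second value
-/

namespace G6

open Finset MldGap

noncomputable section

theorem t_P12A : Stmt_P12A := by
  intro L a b e δ hL hP hb h1 ha
  have hl : (6 : ℝ) ≤ L := by exact_mod_cast hL
  have hs := hP.sum
  have he := hP.e_nonneg
  have hps := hP.ps
  have hbp := hP.b_pos
  have hmin := hP.min (1 - (L : ℤ) ^ 2 * ((L : ℤ) * (L + 1) + 1)) (by
    refine ⟨-((L : ℤ) * ((L : ℤ) * (L + 1) + 1)), ?_⟩
    ring)
  have ek : (((1 - (L : ℤ) ^ 2 * ((L : ℤ) * (L + 1) + 1) : ℤ)) : ℝ) =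
      1 - (L : ℝ) ^ 2 * (L * (L + 1) + 1) := by
    push_cast
    ring
  rw [ek] at hmin
  have hthr1 : ∀ y : ℝ, 0 < y → (1 - (L : ℝ) ^ 2 * (L * (L + 1) + 1)) * a =
      y - ((L : ℝ) ^ 3 + L - 1) → thr ((1 - (L : ℝ) ^ 2 * (L * (L + 1) + 1)) * a) ≤ y := by
    intro y hy h
    refine thr_le (-((L : ℤ) ^ 3 + L - 1)) hy ?_
    rw [h]
    push_cast
    ring
  have hthr2 : ∀ y : ℝ, 0 < y → (1 - (L : ℝ) ^ 2 * (L * (L + 1) + 1)) * b =
      y - (L : ℝ) ^ 2 → thr ((1 - (L : ℝ) ^ 2 * (L * (L + 1) + 1)) * b) ≤ y := by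
    intro y hy h
    refine thr_le (-((L : ℤ) ^ 2)) hy ?_
    rw [h]
    push_cast
    ring
  clear hP ek
  generalize (L : ℝ) = l at *
  obtain ⟨ε, hε⟩ : ∃ ε, ε = 1 / (l + 1) - a := ⟨_, rfl⟩
  rw [← hε] at ha hps
  have hl1 : (0 : ℝ) < l + 1 := by linarith
  have hl0 : (0 : ℝ) < l := by linarith
  have ha' : a = 1 / (l + 1) - ε := by linarith
  obtain ⟨K, hK⟩ : ∃ K, K = l * (l + 1) := ⟨_, rfl⟩
  rw [← hK] at hb h1 ha hmin hthr1 hthr2
  have hK0 : 0 < K := by rw [hK]; positivity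
  obtain ⟨β, hβ⟩ : ∃ β, β = 1 / (K + 1) - b := ⟨_, rfl⟩
  have hb' : b = 1 / (K + 1) - β := by linarith
  have hβ0 : 0 ≤ β := by
    have : b ≤ 1 / (K + 1) := by
      rw [le_div_iff₀ (by linarith)]
      exact hb
    linarith
  have hW : β + ε + e = δ - 1 / (K * (K + 1)) := by
    have h2 : 1 / l - 1 / (l + 1) = 1 / K := by
      rw [hK]
      field_simp
      ring
    have h3 : 1 / K - 1 / (K + 1) = 1 / (K * (K + 1)) := by
      field_simp
      ring
    linarith
  -- the upper bound for `W`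
  have hDW : l ^ 2 * (K + 1) * (β + ε + e) < 1 / (l + 1) := by
    rw [hW, lt_div_iff₀ hl1]
    have h4 : l ^ 2 * (K + 1) * (δ - 1 / (K * (K + 1))) * (l + 1) =
        (l * (K + 1)) * (K * δ) - l := by
      have h5 : l * (l + 1) / K = 1 := by rw [hK]; field_simp
      have h6 : l ^ 2 * (K + 1) * (δ - 1 / (K * (K + 1))) * (l + 1) =
          l ^ 2 * (K + 1) * (l + 1) * δ - l * (l * (l + 1) / K) := by
        field_simp
      rw [h6, h5, hK]
      ring
    rw [h4]
    have h7 : K * δ ≤ 1 / (l ^ 2 + 1) := by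
      rw [le_div_iff₀ (by positivity)]
      linarith
    have h8 : (l * (K + 1)) * (K * δ) ≤ (l * (K + 1)) * (1 / (l ^ 2 + 1)) :=
      mul_le_mul_of_nonneg_left h7 (by positivity)
    have h9 : (l * (K + 1)) * (1 / (l ^ 2 + 1)) < l + 1 := by
      rw [mul_one_div, div_lt_iff₀ (by positivity), hK]
      nlinarith
    linarith
  -- `ε` is not too small
  have hε1 : 1 ≤ (l + 1) * ε * ((l ^ 2 + 2) * K + 1) := by
    have h10 := ha
    rw [ha'] at h10
    have h2 := mul_le_mul_of_nonneg_left h10 hl1.le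
    have h3 : (l + 1) * (1 / (l + 1) - ε) = 1 - (l + 1) * ε := by field_simp
    rw [h3] at h2
    linarith
  have hε0 : 0 < (l + 1) * ε := by
    by_contra hcon
    push Not at hcon
    have h2 : (l + 1) * ε * ((l ^ 2 + 2) * K + 1) ≤ 0 :=
      mul_nonpos_of_nonpos_of_nonneg hcon (by positivity)
    linarith
  have hω : (l + 1) * (1 / (l + 1) - l ^ 2 * (K + 1) * ε) < 1 / 2 := by
    have h2 : (l + 1) * (1 / (l + 1) - l ^ 2 * (K + 1) * ε) =
        1 - (l + 1) * ε * (l ^ 2 * (K + 1)) := by field_simp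
    rw [h2]
    have h3 : (l ^ 2 + 2) * K + 1 < 2 * (l ^ 2 * (K + 1)) := by
      rw [hK]
      nlinarith [mul_pos hl0 hl0, mul_pos (mul_pos hl0 hl0) hl0]
    have h4 := mul_lt_mul_of_pos_left h3 hε0
    linarith
  have haa : 1 / 2 < (l + 1) * a := by
    have h2 : (l + 1) * a = 1 - (l + 1) * ε := by
      rw [ha']
      field_simp
    rw [h2]
    have h3 : ε * (l ^ 3 * (l + 1)) ≤ l + 3 := by
      have : 0 ≤ e * (l ^ 3 * (l + 1)) := by positivity
      linarith
    have h4 : (l + 1) * ε * l ^ 3 ≤ l + 3 := by linarith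
    by_contra hcon
    push Not at hcon
    have h5 : 1 / 2 ≤ (l + 1) * ε := by linarith
    have h6 := mul_le_mul_of_nonneg_right h5 (show 0 ≤ l ^ 3 by positivity)
    have h7 : 2 * (l + 3) < l ^ 3 := by nlinarith [mul_pos hl0 hl0]
    linarith
  have hpos : 0 < a - (1 / (l + 1) - l ^ 2 * (K + 1) * ε) := by
    by_contra hcon
    push Not at hcon
    have h2 := mul_le_mul_of_nonneg_left hcon hl1.le
    linarith
  -- the multiple
  have e1 := hthr1 (a - (1 / (l + 1) - l ^ 2 * (K + 1) * ε)) hpos (by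
    have h2 : l ^ 2 * (K + 1) / (l + 1) = l ^ 3 + l - 1 + 1 / (l + 1) := by
      rw [hK]
      field_simp
      ring
    have h3 : l ^ 2 * (K + 1) * a = l ^ 2 * (K + 1) / (l + 1) - l ^ 2 * (K + 1) * ε := by
      rw [ha']
      ring
    linarith)
  have e2 := hthr2 (b + l ^ 2 * (K + 1) * β) (by positivity) (by
    have h3 : l ^ 2 * (K + 1) * b = l ^ 2 - l ^ 2 * (K + 1) * β := by
      rw [hb']
      field_simp
    linarith)
  have hm := hmin (by
    have h2 : (1 - l ^ 2 * (K + 1) - 1) * e ≤ 0 := by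
      have : 0 ≤ l ^ 2 * (K + 1) * e := by positivity
      linarith
    have h3 : 0 < 2 / l := by positivity
    linarith)
  linarith

end

end G6
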