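import Pool.Agent.G6.St

/-!
# P12B: the plane problem, case I.2 b
-/

set_option autoImplicit false

namespace G6

open Finset MldGap

namespace P12B

/-- The inequalities: everything before the condition `min` is used. -/
theorem ineqs (l a b e δ u v w ε β ω : ℝ) (hl : 6 ≤ l) (hu : (l + 1) * u = 1) (hv : l * v = 1)
    (hw : (l * (l + 1) + 1) * w = 1) (hε : ε = u - a) (hβ : β = w - b)
    (hω : ω = u - l ^ 2 * (l * (l + 1) + 1) * ε) (he : 0 ≤ e)
    (hsum : a + b = v + e - δ) (hsmall : δ * (l * (l ^ 3 + l ^ 2 + 1)) < 1)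
    (hb : b * (l * (l + 1) + 1) ≤ 1) (ha : a ≤ (l ^ 2 + 1) * (l * (l + 1) * ε)) :
    0 ≤ β ∧ 0 < ε ∧ 0 < a + ω ∧ 0 < a - ω ∧ l ^ 2 * (l * (l + 1) + 1) * (β + e) < b ∧
      ω * (l ^ 4 + l ^ 3 + l ^ 2 + l + 1) ≤ 1 ∧
      (ε + β + e) * ((l * (l + 1) + 1) * l ^ 3) < 1 := by
  have hl0 : 0 < l := by linarith
  have hu0 : 0 < u := by
    by_contra h
    push Not at h
    nlinarith
  have hw0 : 0 < w := by
    by_contra h
    push Not at h
    nlinarith [mul_nonneg (by positivity : (0 : ℝ) ≤ l * (l + 1) + 1) (neg_nonneg.2 h)]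
  have hδ : δ = (v - u - w) + (ε + β + e) := by
    rw [hε, hβ]
    linarith
  have huvw : (v - u - w) * (l * (l + 1) * (l * (l + 1) + 1)) = 1 := by
    have h1 : (v - u - w) * (l * (l + 1) * (l * (l + 1) + 1)) =
        (l * v) * ((l + 1) * (l * (l + 1) + 1)) - ((l + 1) * u) * (l * (l * (l + 1) + 1)) -
          ((l * (l + 1) + 1) * w) * (l * (l + 1)) := by ring
    rw [h1, hu, hv, hw]
    ring
  have hA : (ε + β + e) * ((l ^ 3 + l ^ 2 + 1) * (l + 1) * (l * (l + 1) + 1)) < l + 2 := by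
    have h1 : δ * (l * (l ^ 3 + l ^ 2 + 1)) * ((l + 1) * (l * (l + 1) + 1)) <
        1 * ((l + 1) * (l * (l + 1) + 1)) := mul_lt_mul_of_pos_right hsmall (by positivity)
    have h2 : δ * (l * (l ^ 3 + l ^ 2 + 1)) * ((l + 1) * (l * (l + 1) + 1)) =
        (l ^ 3 + l ^ 2 + 1) + l * ((ε + β + e) *
          ((l ^ 3 + l ^ 2 + 1) * (l + 1) * (l * (l + 1) + 1))) := by
      have h3 : ((v - u - w) + (ε + β + e)) * (l * (l ^ 3 + l ^ 2 + 1)) *
          ((l + 1) * (l * (l + 1) + 1)) =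
          (l ^ 3 + l ^ 2 + 1) * ((v - u - w) * (l * (l + 1) * (l * (l + 1) + 1))) +
          l * ((ε + β + e) * ((l ^ 3 + l ^ 2 + 1) * (l + 1) * (l * (l + 1) + 1))) := by ring
      rw [hδ, h3, huvw, mul_one]
    have h4 : l * ((ε + β + e) * ((l ^ 3 + l ^ 2 + 1) * (l + 1) * (l * (l + 1) + 1))) <
        l * (l + 2) := by
      have h5 : 1 * ((l + 1) * (l * (l + 1) + 1)) - (l ^ 3 + l ^ 2 + 1) = l * (l + 2) := by ring
      linarith
    exact lt_of_mul_lt_mul_left h4 hl0.le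
  have hβ0 : 0 ≤ β := by
    have h1 : 0 ≤ (l * (l + 1) + 1) * β := by
      rw [hβ, mul_sub, hw]
      linarith
    exact nonneg_of_mul_nonneg_right h1 (by positivity)
  have hB : 1 ≤ ε * ((l ^ 4 + l ^ 3 + l ^ 2 + l + 1) * (l + 1)) := by
    have h1 : u ≤ ε * (l ^ 4 + l ^ 3 + l ^ 2 + l + 1) := by
      have h2 : a = u - ε := by rw [hε]; ring
      have h3 : (l ^ 2 + 1) * (l * (l + 1) * ε) + ε = ε * (l ^ 4 + l ^ 3 + l ^ 2 + l + 1) := by ring
      linarith
    have h4 := mul_le_mul_of_nonneg_left h1 (by linarith : (0 : ℝ) ≤ l + 1)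
    rw [hu] at h4
    calc (1 : ℝ) ≤ (l + 1) * (ε * (l ^ 4 + l ^ 3 + l ^ 2 + l + 1)) := h4
      _ = ε * ((l ^ 4 + l ^ 3 + l ^ 2 + l + 1) * (l + 1)) := by ring
  have hε0 : 0 < ε := by
    by_contra h
    push Not at h
    have h1 : 0 ≤ (-ε) * ((l ^ 4 + l ^ 3 + l ^ 2 + l + 1) * (l + 1)) :=
      mul_nonneg (by linarith) (by positivity)
    linarith
  have hA' : (ε + β + e) * ((l * (l + 1) + 1) * l ^ 3) < 1 := by
    have h1 : (ε + β + e) * ((l ^ 3 + l ^ 2 + 1) * (l + 1) * (l * (l + 1) + 1)) * l ^ 3 <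
        (l + 2) * l ^ 3 := mul_lt_mul_of_pos_right hA (by positivity)
    have h2 : (l + 2) * l ^ 3 ≤ 1 * ((l ^ 3 + l ^ 2 + 1) * (l + 1)) := by
      have : 1 * ((l ^ 3 + l ^ 2 + 1) * (l + 1)) - (l + 2) * l ^ 3 = l ^ 2 + l + 1 := by ring
      have : 0 < l ^ 2 + l + 1 := by positivity
      linarith
    have h3 : (ε + β + e) * ((l * (l + 1) + 1) * l ^ 3) * ((l ^ 3 + l ^ 2 + 1) * (l + 1)) <
        1 * ((l ^ 3 + l ^ 2 + 1) * (l + 1)) := by
      calc (ε + β + e) * ((l * (l + 1) + 1) * l ^ 3) * ((l ^ 3 + l ^ 2 + 1) * (l + 1))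
          = (ε + β + e) * ((l ^ 3 + l ^ 2 + 1) * (l + 1) * (l * (l + 1) + 1)) * l ^ 3 := by ring
        _ < (l + 2) * l ^ 3 := h1
        _ ≤ _ := h2
    exact lt_of_mul_lt_mul_right h3 (by positivity)
  have hεW : ε * ((l * (l + 1) + 1) * l ^ 3) < 1 := by
    have h1 : ε * ((l * (l + 1) + 1) * l ^ 3) ≤ (ε + β + e) * ((l * (l + 1) + 1) * l ^ 3) :=
      mul_le_mul_of_nonneg_right (by linarith) (by positivity)
    linarith
  have hl3 : (216 : ℝ) ≤ l ^ 3 := by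
    have : (6 : ℝ) ^ 3 ≤ l ^ 3 := pow_le_pow_left₀ (by norm_num) hl 3
    linarith
  have hKε : (l * (l + 1) + 1) * ε < 1 / 216 := by
    have h1 : (l * (l + 1) + 1) * ε * 216 ≤ (l * (l + 1) + 1) * ε * l ^ 3 :=
      mul_le_mul_of_nonneg_left hl3 (by positivity)
    have h2 : (l * (l + 1) + 1) * ε * l ^ 3 = ε * ((l * (l + 1) + 1) * l ^ 3) := by ring
    linarith
  have hω2 : ω * (l ^ 4 + l ^ 3 + l ^ 2 + l + 1) ≤ 1 := by
    have h1 : (l + 1) * (ω * (l ^ 4 + l ^ 3 + l ^ 2 + l + 1)) =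
        ((l + 1) * u) * (l ^ 4 + l ^ 3 + l ^ 2 + l + 1) -
          l ^ 2 * (l * (l + 1) + 1) * (ε * ((l ^ 4 + l ^ 3 + l ^ 2 + l + 1) * (l + 1))) := by
      rw [hω]
      ring
    have h2 : l ^ 2 * (l * (l + 1) + 1) * 1 ≤
        l ^ 2 * (l * (l + 1) + 1) * (ε * ((l ^ 4 + l ^ 3 + l ^ 2 + l + 1) * (l + 1))) :=
      mul_le_mul_of_nonneg_left hB (by positivity)
    have h3 : (l + 1) * (ω * (l ^ 4 + l ^ 3 + l ^ 2 + l + 1)) ≤ (l + 1) * 1 := by
      rw [h1, hu]
      have h4 : 1 * (l ^ 4 + l ^ 3 + l ^ 2 + l + 1) - l ^ 2 * (l * (l + 1) + 1) * 1 =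
        (l + 1) * 1 := by ring
      linarith
    exact le_of_mul_le_mul_left h3 (by linarith)
  refine ⟨hβ0, hε0, ?_, ?_, ?_, hω2, hA'⟩
  · -- `a + ω`
    have h1 : l ^ 2 * (l * (l + 1) + 1) * ε < v := by
      have h2 : l * (l ^ 2 * (l * (l + 1) + 1) * ε) < l * v := by
        rw [hv]
        calc l * (l ^ 2 * (l * (l + 1) + 1) * ε) = ε * ((l * (l + 1) + 1) * l ^ 3) := by ring
          _ < 1 := hεW
      exact lt_of_mul_lt_mul_left h2 hl0.le
    have h3 : a = u - ε := by rw [hε]; ring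
    have h4 : 0 < (l * (l + 1)) * (2 * u - v - ε) := by
      have h5 : (l * (l + 1)) * (2 * u - v - ε) =
          2 * l * ((l + 1) * u) - (l + 1) * (l * v) - ((l * (l + 1) + 1) * ε - ε) := by ring
      rw [h5, hu, hv]
      linarith
    have h6 : 0 < 2 * u - v - ε := (mul_pos_iff_of_pos_left (by positivity)).1 h4
    rw [h3, hω]
    linarith
  · -- `a - ω`
    have h3 : a = u - ε := by rw [hε]; ring
    have h4 : 0 < (l + 1) * (a - ω) := by
      by_contra hcon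
      push Not at hcon
      have h5 : (l + 1) * (a - ω) = 1 - (l + 1) * ε - (l + 1) * ω := by
        rw [h3]
        linear_combination hu
      have h6 : (l + 1) * ε ≤ (l * (l + 1) + 1) * ε := by
        apply mul_le_mul_of_nonneg_right _ hε0.le
        nlinarith
      have h7 : 1 / 2 < (l + 1) * ω := by linarith
      have h8 : 0 < ω := by
        by_contra h
        push Not at h
        nlinarith
      have h9 : (l + 1) * 2 ≤ l ^ 4 + l ^ 3 + l ^ 2 + l + 1 := by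
        have : (0 : ℝ) ≤ l ^ 4 := by positivity
        nlinarith
      have h10 : ω * ((l + 1) * 2) ≤ ω * (l ^ 4 + l ^ 3 + l ^ 2 + l + 1) :=
        mul_le_mul_of_nonneg_left h9 h8.le
      linarith
    exact (mul_pos_iff_of_pos_left (by linarith)).1 h4
  · -- `D (β + e) < b`
    have h1 : (l + 1) * (l ^ 4 + l ^ 3 + l ^ 2 + l + 1) * (β + e) ≤
        (l + 1) * (l ^ 4 + l ^ 3 + l ^ 2 + l + 1) * (ε + β + e) - 1 := by
      have h2 : (l + 1) * (l ^ 4 + l ^ 3 + l ^ 2 + l + 1) * (ε + β + e) =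
          (l + 1) * (l ^ 4 + l ^ 3 + l ^ 2 + l + 1) * (β + e) +
            ε * ((l ^ 4 + l ^ 3 + l ^ 2 + l + 1) * (l + 1)) := by ring
      linarith
    have h3 : (l + 1) * (l ^ 4 + l ^ 3 + l ^ 2 + l + 1) * (β + e) *
        ((l ^ 3 + l ^ 2 + 1) * (l * (l + 1) + 1)) < (l ^ 4 + l ^ 3 + l ^ 2 + l + 1) + l := by
      have h4 := mul_le_mul_of_nonneg_right h1
        (by positivity : (0 : ℝ) ≤ (l ^ 3 + l ^ 2 + 1) * (l * (l + 1) + 1))
      have h5 : ((l + 1) * (l ^ 4 + l ^ 3 + l ^ 2 + l + 1) * (ε + β + e) - 1) *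
          ((l ^ 3 + l ^ 2 + 1) * (l * (l + 1) + 1)) =
          (l ^ 4 + l ^ 3 + l ^ 2 + l + 1) * ((ε + β + e) *
            ((l ^ 3 + l ^ 2 + 1) * (l + 1) * (l * (l + 1) + 1))) -
            (l ^ 3 + l ^ 2 + 1) * (l * (l + 1) + 1) := by ring
      have h6 := mul_lt_mul_of_pos_left hA
        (by positivity : (0 : ℝ) < l ^ 4 + l ^ 3 + l ^ 2 + l + 1)
      have h7 : (l ^ 4 + l ^ 3 + l ^ 2 + l + 1) * (l + 2) -
          (l ^ 3 + l ^ 2 + 1) * (l * (l + 1) + 1) = (l ^ 4 + l ^ 3 + l ^ 2 + l + 1) + l := by ring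
      linarith
    have h8 : (l ^ 2 * (l * (l + 1) + 1) + 1) * ((l ^ 4 + l ^ 3 + l ^ 2 + l + 1) + l) ≤
        (l + 1) * (l ^ 4 + l ^ 3 + l ^ 2 + l + 1) * (l ^ 3 + l ^ 2 + 1) * 1 := by
      have h9 : (l + 1) * (l ^ 4 + l ^ 3 + l ^ 2 + l + 1) * (l ^ 3 + l ^ 2 + 1) * 1 -
          (l ^ 2 * (l * (l + 1) + 1) + 1) * ((l ^ 4 + l ^ 3 + l ^ 2 + l + 1) + l) =
          l ^ 7 + l ^ 6 + l ^ 5 + l ^ 4 + l ^ 3 + l ^ 2 := by ring
      have h10 : 0 < l ^ 7 + l ^ 6 + l ^ 5 + l ^ 4 + l ^ 3 + l ^ 2 := by positivity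
      linarith
    have h11 : (l + 1) * (l ^ 4 + l ^ 3 + l ^ 2 + l + 1) * (l ^ 3 + l ^ 2 + 1) *
        ((l ^ 2 * (l * (l + 1) + 1) + 1) * (β + e) * (l * (l + 1) + 1)) <
        (l + 1) * (l ^ 4 + l ^ 3 + l ^ 2 + l + 1) * (l ^ 3 + l ^ 2 + 1) * 1 := by
      have h12 := mul_lt_mul_of_pos_left h3
        (by positivity : (0 : ℝ) < l ^ 2 * (l * (l + 1) + 1) + 1)
      have h13 : (l + 1) * (l ^ 4 + l ^ 3 + l ^ 2 + l + 1) * (l ^ 3 + l ^ 2 + 1) *
        ((l ^ 2 * (l * (l + 1) + 1) + 1) * (β + e) * (l * (l + 1) + 1)) =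
        (l ^ 2 * (l * (l + 1) + 1) + 1) * ((l + 1) * (l ^ 4 + l ^ 3 + l ^ 2 + l + 1) * (β + e) *
        ((l ^ 3 + l ^ 2 + 1) * (l * (l + 1) + 1))) := by ring
      rw [h13]
      exact h12.trans_le h8
    have h14 : (l ^ 2 * (l * (l + 1) + 1) + 1) * (β + e) * (l * (l + 1) + 1) < 1 :=
      lt_of_mul_lt_mul_left h11 (by positivity)
    have h15 : (l ^ 2 * (l * (l + 1) + 1) + 1) * (β + e) < w := by
      have h16 : (l ^ 2 * (l * (l + 1) + 1) + 1) * (β + e) * (l * (l + 1) + 1) <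
          w * (l * (l + 1) + 1) := by
        rw [mul_comm w, hw]
        exact h14
      exact lt_of_mul_lt_mul_right h16 (by positivity)
    have h17 : b = w - β := by rw [hβ]; ring
    rw [h17]
    linarith

end P12B

open P12B in
theorem t_P12B : Stmt_P12B := by
  intro L a b e δ hL hP hb ha
  obtain ⟨ha0, hb0, he0, hδ0, hsum, hsmall, ha_le, hps, hmin⟩ := hP
  have hl6 : (6 : ℝ) ≤ (L : ℝ) := by exact_mod_cast hL
  have hlp : (0 : ℝ) < (L : ℝ) := by linarith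
  obtain ⟨l, hl⟩ : ∃ l : ℝ, l = (L : ℝ) := ⟨_, rfl⟩
  obtain ⟨u, hu'⟩ : ∃ u : ℝ, u = 1 / (l + 1) := ⟨_, rfl⟩
  obtain ⟨v, hv'⟩ : ∃ v : ℝ, v = 1 / l := ⟨_, rfl⟩
  obtain ⟨w, hw'⟩ : ∃ w : ℝ, w = 1 / (l * (l + 1) + 1) := ⟨_, rfl⟩
  obtain ⟨ε, hε⟩ : ∃ ε : ℝ, ε = u - a := ⟨_, rfl⟩
  obtain ⟨β, hβ⟩ : ∃ β : ℝ, β = w - b := ⟨_, rfl⟩
  obtain ⟨ω, hω⟩ : ∃ ω : ℝ, ω = u - l ^ 2 * (l * (l + 1) + 1) * ε := ⟨_, rfl⟩
  rw [← hl] at hsum hsmall ha_le hps hb ha hl6 hlp
  simp only [← hl] at hmin ⊢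
  rw [← hu'] at ha hps ⊢
  rw [← hv'] at hsum
  rw [← hε] at ha ⊢
  have hu : (l + 1) * u = 1 := by
    rw [hu']
    have : l + 1 ≠ 0 := by positivity
    field_simp
  have hv : l * v = 1 := by
    rw [hv']
    field_simp
  have hw : (l * (l + 1) + 1) * w = 1 := by
    rw [hw']
    have : l * (l + 1) + 1 ≠ 0 := by positivity
    field_simp
  obtain ⟨hβ0, hε0, haω, haω', hDG, hω2, hW⟩ := ineqs l a b e δ u v w ε β ω hl6 hu hv hw hε hβ hω
    he0 hsum hsmall hb ha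
  have hbw : b ≤ w := by rw [hβ] at hβ0; linarith
  have h2v : (2 : ℝ) / l = 2 * v := by rw [hv']; ring
  have hv0 : 0 < v := by rw [hv']; positivity
  have hwv : w ≤ v := by
    have h1 : (l * (l + 1) + 1) * w ≤ (l * (l + 1) + 1) * v := by
      rw [hw]
      have : (l * (l + 1) + 1) * v = (l + 1) * (l * v) + v := by ring
      rw [this, hv]
      linarith
    exact le_of_mul_le_mul_left h1 (by positivity)
  have hD0 : 0 < l ^ 2 * (l * (l + 1) + 1) := by positivity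
  have hDa : l ^ 2 * (l * (l + 1) + 1) * a = (l ^ 3 + l - 1) + ω := by
    have h1 : a = u - ε := by rw [hε]; ring
    rw [h1, hω]
    linear_combination (l ^ 3 + l - 1) * hu
  have hDb : l ^ 2 * (l * (l + 1) + 1) * b = l ^ 2 - l ^ 2 * (l * (l + 1) + 1) * β := by
    have h1 : b = w - β := by rw [hβ]; ring
    rw [h1]
    linear_combination (l ^ 2) * hw
  have hDe : l ^ 2 * (l * (l + 1) + 1) * e ≤ l ^ 2 * (l * (l + 1) + 1) * (β + e) :=
    mul_le_mul_of_nonneg_left (by linarith) hD0.le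
  have hDβ : l ^ 2 * (l * (l + 1) + 1) * β ≤ l ^ 2 * (l * (l + 1) + 1) * (β + e) :=
    mul_le_mul_of_nonneg_left (by linarith) hD0.le
  -- first
  have e1 : l ^ 2 * (l * (l + 1) + 1) * e ≤ ω - l ^ 2 * (l * (l + 1) + 1) * β := by
    have h1 := hmin (1 + (L : ℤ) ^ 2 * (L * (L + 1) + 1)) ⟨(L : ℤ) * (L * (L + 1) + 1), by ring⟩ (by
      push_cast
      rw [← hl, h2v]
      have : (1 + l ^ 2 * (l * (l + 1) + 1) - 1) * e = l ^ 2 * (l * (l + 1) + 1) * e := by ring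
      rw [this]
      linarith)
    have h2 : thr (((1 + (L : ℤ) ^ 2 * (L * (L + 1) + 1) : ℤ) : ℝ) * a) ≤ a + ω := by
      refine thr_le ((L : ℤ) ^ 3 + L - 1) haω ?_
      push_cast
      rw [← hl]
      linear_combination hDa
    have h3 : thr (((1 + (L : ℤ) ^ 2 * (L * (L + 1) + 1) : ℤ) : ℝ) * b) ≤
        b - l ^ 2 * (l * (l + 1) + 1) * β := by
      refine thr_le ((L : ℤ) ^ 2) (by linarith) ?_
      push_cast
      rw [← hl]
      linear_combination hDb
    have h4 : ((1 + (L : ℤ) ^ 2 * (L * (L + 1) + 1) : ℤ) : ℝ) - 1 = l ^ 2 * (l * (l + 1) + 1) := by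
      push_cast
      rw [← hl]
      ring
    rw [h4] at h1
    linarith
  have e2 : ω ≤ l ^ 2 * (l * (l + 1) + 1) * β + l ^ 2 * (l * (l + 1) + 1) * e := by
    have h1 := hmin (1 - (L : ℤ) ^ 2 * (L * (L + 1) + 1)) ⟨-((L : ℤ) * (L * (L + 1) + 1)), by ring⟩
      (by
        push_cast
        rw [← hl, h2v]
        have : (1 - l ^ 2 * (l * (l + 1) + 1) - 1) * e = - (l ^ 2 * (l * (l + 1) + 1) * e) := by
          ring
        rw [this]
        have : 0 ≤ l ^ 2 * (l * (l + 1) + 1) * e := by positivity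
        linarith)
    have h2 : thr (((1 - (L : ℤ) ^ 2 * (L * (L + 1) + 1) : ℤ) : ℝ) * a) ≤ a - ω := by
      refine thr_le (-((L : ℤ) ^ 3 + L - 1)) haω' ?_
      push_cast
      rw [← hl]
      linear_combination -hDa
    have h3 : thr (((1 - (L : ℤ) ^ 2 * (L * (L + 1) + 1) : ℤ) : ℝ) * b) ≤
        b + l ^ 2 * (l * (l + 1) + 1) * β := by
      refine thr_le (-((L : ℤ) ^ 2)) (by positivity) ?_
      push_cast
      rw [← hl]
      linear_combination -hDb
    have h4 : ((1 - (L : ℤ) ^ 2 * (L * (L + 1) + 1) : ℤ) : ℝ) - 1 =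
        - (l ^ 2 * (l * (l + 1) + 1)) := by
      push_cast
      rw [← hl]
      ring
    rw [h4] at h1
    have h5 : -(l ^ 2 * (l * (l + 1) + 1)) * e = - (l ^ 2 * (l * (l + 1) + 1) * e) := by ring
    rw [h5] at h1
    linarith
  have hωeq : ω = l ^ 2 * (l * (l + 1) + 1) * (β + e) := by
    have : l ^ 2 * (l * (l + 1) + 1) * (β + e) =
        l ^ 2 * (l * (l + 1) + 1) * β + l ^ 2 * (l * (l + 1) + 1) * e := by ring
    linarith
  have hω0 : 0 ≤ ω := by
    rw [hωeq]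
    exact mul_nonneg hD0.le (by linarith)
  rcases hω0.eq_or_lt with hω00 | hωp
  · -- the family
    have h1 : β + e = 0 := by
      rw [← hω00] at hωeq
      rcases mul_eq_zero.1 hωeq.symm with h2 | h2
      · exact absurd h2 hD0.ne'
      · exact h2
    have h2 : e = 0 := by linarith
    have h3 : β = 0 := by linarith
    refine ⟨h2, ?_, ?_⟩
    · have h4 : b = w := by rw [hβ] at h3; linarith
      rw [h4, mul_comm]
      exact hw
    · rw [← hω00] at hω
      have h5 : u = l ^ 2 * (l * (l + 1) + 1) * ε := by linarith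
      calc ε * ((l + 1) * l ^ 2 * (l * (l + 1) + 1)) = (l + 1) * (l ^ 2 * (l * (l + 1) + 1) * ε) := by
            ring
        _ = 1 := by rw [← h5, hu]
  · exfalso
    obtain ⟨n, hn1, hn2⟩ : ∃ n : ℕ, ε < n * ω ∧ n * ω ≤ ε + ω := by
      refine ⟨⌊ε / ω⌋₊ + 1, ?_, ?_⟩
      · have h1 := Nat.lt_floor_add_one (ε / ω)
        rw [div_lt_iff₀ hωp] at h1
        push_cast
        exact h1
      · have h1 := Nat.floor_le (div_nonneg hε0.le hω0)
        have h2 := mul_le_mul_of_nonneg_right h1 hω0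
        rw [div_mul_cancel₀ _ hωp.ne'] at h2
        push_cast
        linarith
    have hn0 : (0 : ℝ) ≤ n := Nat.cast_nonneg n
    -- bounds
    have hl3 : (216 : ℝ) ≤ l ^ 3 := by
      have : (6 : ℝ) ^ 3 ≤ l ^ 3 := pow_le_pow_left₀ (by norm_num) hl6 3
      linarith
    have hK0 : 0 < l * (l + 1) + 1 := by positivity
    have hWb : (l * (l + 1) + 1) * (ε + β + e) < 1 / 216 := by
      have hW0 : 0 ≤ (l * (l + 1) + 1) * (ε + β + e) := by positivity
      have h1 : (l * (l + 1) + 1) * (ε + β + e) * 216 ≤ (l * (l + 1) + 1) * (ε + β + e) * l ^ 3 :=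
        mul_le_mul_of_nonneg_left hl3 hW0
      have h2 : (l * (l + 1) + 1) * (ε + β + e) * l ^ 3 =
          (ε + β + e) * ((l * (l + 1) + 1) * l ^ 3) := by ring
      linarith
    have hωb : (l * (l + 1) + 1) * ω ≤ 1 / 36 := by
      have h1 : (l * (l + 1) + 1) * 36 ≤ l ^ 4 + l ^ 3 + l ^ 2 + l + 1 := by
        have h2 : (36 : ℝ) ≤ l ^ 2 := by nlinarith
        have h3 : (l * (l + 1) + 1) * 36 ≤ (l * (l + 1) + 1) * l ^ 2 :=
          mul_le_mul_of_nonneg_left h2 hK0.le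
        have h4 : l ^ 4 + l ^ 3 + l ^ 2 + l + 1 - (l * (l + 1) + 1) * l ^ 2 = l + 1 := by ring
        linarith
      have h5 : ω * ((l * (l + 1) + 1) * 36) ≤ ω * (l ^ 4 + l ^ 3 + l ^ 2 + l + 1) :=
        mul_le_mul_of_nonneg_left h1 hω0
      have h6 : ω * ((l * (l + 1) + 1) * 36) = 36 * ((l * (l + 1) + 1) * ω) := by ring
      linarith
    have hbig : (l * (l + 1) + 1) * (ε + β + e + ω) < 1 / 4 := by
      have : (l * (l + 1) + 1) * (ε + β + e + ω) = (l * (l + 1) + 1) * (ε + β + e) +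
          (l * (l + 1) + 1) * ω := by ring
      linarith
    have hεωb : ε + ω < b := by
      have h1 : (l * (l + 1) + 1) * (ε + ω) < (l * (l + 1) + 1) * b := by
        have h2 : (l * (l + 1) + 1) * b = 1 - (l * (l + 1) + 1) * β := by
          rw [hβ]
          linear_combination hw
        have h3 : (l * (l + 1) + 1) * (ε + β + e + ω) = (l * (l + 1) + 1) * (ε + ω) +
          (l * (l + 1) + 1) * β + (l * (l + 1) + 1) * e := by ring
        have h4 : 0 ≤ (l * (l + 1) + 1) * e := by positivity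
        linarith
      exact lt_of_mul_lt_mul_left h1 hK0.le
    have hDβω : l ^ 2 * (l * (l + 1) + 1) * β ≤ ω := by rw [hωeq]; exact hDβ
    have hDeω : l ^ 2 * (l * (l + 1) + 1) * e ≤ ω := by rw [hωeq]; exact hDe
    have hnβ : n * (l ^ 2 * (l * (l + 1) + 1) * β) ≤ n * ω := mul_le_mul_of_nonneg_left hDβω hn0
    have hne : n * (l ^ 2 * (l * (l + 1) + 1) * e) ≤ n * ω := mul_le_mul_of_nonneg_left hDeω hn0
    have h1 := hmin (((L : ℤ) + 1) * (1 + n * ((L : ℤ) ^ 2 * (L * (L + 1) + 1))))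
      ⟨1 + ((L : ℤ) + 1) * n * (L * (L * (L + 1) + 1)), by ring⟩ (by
        push_cast
        rw [← hl, h2v]
        have h2 : ((l + 1) * (1 + n * (l ^ 2 * (l * (l + 1) + 1))) - 1) * e =
            l * e + (l + 1) * (n * (l ^ 2 * (l * (l + 1) + 1) * e)) := by ring
        rw [h2]
        have h3 : (l + 1) * (n * (l ^ 2 * (l * (l + 1) + 1) * e)) ≤ (l + 1) * (ε + ω) :=
          mul_le_mul_of_nonneg_left (by linarith) (by linarith)
        have h4 : l * e ≤ (l + 1) * e := mul_le_mul_of_nonneg_right (by linarith) he0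
        have h5 : (l + 1) * (ε + β + e + ω) < v := by
          have h6 : l * ((l + 1) * (ε + β + e + ω)) < l * v := by
            rw [hv]
            have h7 : l * ((l + 1) * (ε + β + e + ω)) ≤ (l * (l + 1) + 1) * (ε + β + e + ω) := by
              have h8 : (l * (l + 1) + 1) * (ε + β + e + ω) - l * ((l + 1) * (ε + β + e + ω)) =
                ε + β + e + ω := by ring
              linarith
            linarith
          exact lt_of_mul_lt_mul_left h6 hlp.le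
        have h9 : (l + 1) * (ε + β + e + ω) = (l + 1) * e + (l + 1) * (ε + ω) + (l + 1) * β := by
          ring
        have h10 : 0 ≤ (l + 1) * β := by positivity
        linarith)
    have h2 : thr ((((L : ℤ) + 1) * (1 + n * ((L : ℤ) ^ 2 * (L * (L + 1) + 1))) : ℤ) * a) ≤
        (l + 1) * (n * ω - ε) := by
      refine thr_le (((L : ℤ) + 1) * n * ((L : ℤ) ^ 3 + L - 1) + 1) ?_ ?_
      · exact mul_pos (by linarith) (by linarith)
      · push_cast
        rw [← hl]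
        have h3 : a = u - ε := by rw [hε]; ring
        have h4 : (l + 1) * a = 1 - (l + 1) * ε := by
          rw [h3]
          linear_combination hu
        linear_combination h4 + (l + 1) * n * hDa
    have h3 : thr ((((L : ℤ) + 1) * (1 + n * ((L : ℤ) ^ 2 * (L * (L + 1) + 1))) : ℤ) * b) ≤
        (l + 1) * (b - n * (l ^ 2 * (l * (l + 1) + 1) * β)) := by
      refine thr_le (((L : ℤ) + 1) * n * (L : ℤ) ^ 2) ?_ ?_
      · exact mul_pos (by linarith) (by linarith)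
      · push_cast
        rw [← hl]
        linear_combination (l + 1) * n * hDb
    have h4 : ((((L : ℤ) + 1) * (1 + n * ((L : ℤ) ^ 2 * (L * (L + 1) + 1))) : ℤ) : ℝ) - 1 =
        l + (l + 1) * n * (l ^ 2 * (l * (l + 1) + 1)) := by
      push_cast
      rw [← hl]
      ring
    rw [h4] at h1
    have h5 : a + b + (l + (l + 1) * n * (l ^ 2 * (l * (l + 1) + 1))) * e ≤
        (l + 1) * (n * ω - ε) + (l + 1) * (b - n * (l ^ 2 * (l * (l + 1) + 1) * β)) := by
      linarith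
    have h6 : (l + 1) * (n * ω - ε) + (l + 1) * (b - n * (l ^ 2 * (l * (l + 1) + 1) * β)) =
        (l + 1) * (b - ε) + (l + 1) * n * (l ^ 2 * (l * (l + 1) + 1)) * e := by
      linear_combination (l + 1) * n * hωeq
    have h7 : a + b + l * e ≤ (l + 1) * (b - ε) := by
      have : a + b + (l + (l + 1) * n * (l ^ 2 * (l * (l + 1) + 1))) * e =
        a + b + l * e + (l + 1) * n * (l ^ 2 * (l * (l + 1) + 1)) * e := by ring
      linarith
    have h8 : a = u - ε := by rw [hε]; ring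
    have h9 : u + l * ε + l * e ≤ l * b := by
      rw [h8] at h7
      have : (l + 1) * (b - ε) = l * b + b - l * ε - ε := by ring
      linarith
    have h10 : b = v + e - δ - u + ε := by linarith
    have h11 : l * b = (l * v) - l * u + l * e + l * ε - l * δ := by
      rw [h10]
      ring
    rw [hv] at h11
    have h12 : l * u = 1 - u := by linarith
    have h13 : 0 < l * δ := mul_pos hlp hδ0
    linarith

end G6
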