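import Pool.Agent.G6.St

/-!
# G6, module P2A: the plane problem, case II, first part
-/

set_option autoImplicit false

namespace G6

open Finset MldGap

namespace P2A

lemma poly (L p : ℝ) (hL : 6 ≤ L) (h1 : 1 ≤ p) (h2 : p ≤ L - 1) :
    (L + 1 + p * L ^ 2) * (L + 1 + (p + 1) * L ^ 2) ≤ (L ^ 2 * p + 1) * (L ^ 3 + L ^ 2 + 1) := by
  have hF1 : 0 ≤ L ^ 5 - L ^ 4 - 2 * L ^ 3 - 2 * L ^ 2 - 2 * L := by
    have e : L ^ 5 - L ^ 4 - 2 * L ^ 3 - 2 * L ^ 2 - 2 * L =
        (L - 6) * (L ^ 4 + 5 * L ^ 3 + 28 * L ^ 2 + 166 * L + 994) + 5964 := by ring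
    have h0 : 0 ≤ L - 6 := by linarith
    have : 0 ≤ L ^ 4 + 5 * L ^ 3 + 28 * L ^ 2 + 166 * L + 994 := by positivity
    rw [e]
    positivity
  have hF2 : 0 ≤ L ^ 5 - 3 * L ^ 4 + L ^ 3 - 2 * L := by
    have e : L ^ 5 - 3 * L ^ 4 + L ^ 3 - 2 * L =
        (L - 6) * (L ^ 4 + 3 * L ^ 3 + 19 * L ^ 2 + 114 * L + 682) + 4092 := by ring
    have h0 : 0 ≤ L - 6 := by linarith
    rw [e]
    positivity
  have h3 : 0 < L - 2 := by linarith
  have h4 : 0 ≤ p - 1 := by linarith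
  have h5 : 0 ≤ L - 1 - p := by linarith
  have e : (L - 2) * ((L ^ 2 * p + 1) * (L ^ 3 + L ^ 2 + 1) -
      (L + 1 + p * L ^ 2) * (L + 1 + (p + 1) * L ^ 2)) =
      (L - 2) * (L ^ 4 * ((p - 1) * (L - 1 - p))) +
        (L ^ 5 - L ^ 4 - 2 * L ^ 3 - 2 * L ^ 2 - 2 * L) * (L - 1 - p) +
        (L ^ 5 - 3 * L ^ 4 + L ^ 3 - 2 * L) * (p - 1) := by ring
  have h6 : 0 ≤ (L - 2) * ((L ^ 2 * p + 1) * (L ^ 3 + L ^ 2 + 1) -
      (L + 1 + p * L ^ 2) * (L + 1 + (p + 1) * L ^ 2)) := by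
    rw [e]
    positivity
  have h7 := nonneg_of_mul_nonneg_right h6 h3
  linarith

end P2A

theorem t_P2A : Stmt_P2A := by
  intro L a b e δ hL hP hb hK
  obtain ⟨R, hR⟩ : ∃ R : ℝ, R = (L : ℝ) := ⟨_, rfl⟩
  have hR6 : (6 : ℝ) ≤ R := by rw [hR]; exact_mod_cast hL
  have hR0 : 0 < R := by linarith
  obtain ⟨φ, hφ⟩ : ∃ φ, φ = R ^ 2 * a - (R - 1) := ⟨_, rfl⟩
  obtain ⟨ψ, hψ⟩ : ∃ ψ, ψ = 1 - R ^ 2 * b := ⟨_, rfl⟩
  have hsum := hP.sum
  have hsmall := hP.small
  have he := hP.e_nonneg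
  have hδ := hP.δ_pos
  have hmin := hP.min
  rw [← hR] at hsum hsmall hb hK
  rw [← hR, ← hφ]
  have hs1 : R ^ 2 * δ = ψ - φ + R ^ 2 * e := by
    have h1 : R ^ 2 * (a + b) = R ^ 2 * (1 / R + e - δ) := by rw [hsum]
    have h2 : R ^ 2 * (1 / R) = R := by field_simp
    rw [hψ, hφ]
    linarith
  have hs2 : (R ^ 2 + R + 1) * φ ≤ 1 := by
    rw [hφ]
    nlinarith [mul_le_mul_of_nonneg_left hK (sq_nonneg R)]
  have hs3 : 1 ≤ (R ^ 2 + 1) * ψ := by
    rw [hψ]
    nlinarith [mul_le_mul_of_nonneg_left hb (sq_nonneg R)]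
  have hψ0 : 0 < ψ := by
    by_contra h
    push Not at h
    nlinarith [mul_nonneg (by positivity : (0 : ℝ) ≤ R ^ 2 + 1) (neg_nonneg.2 h)]
  have hs4' : R ^ 2 * δ * (R ^ 3 + R ^ 2 + 1) < R := by
    have h1 : R * (δ * (R * (R ^ 3 + R ^ 2 + 1))) < R * 1 := mul_lt_mul_of_pos_left hsmall hR0
    linarith
  have hs4 : (ψ - φ) * (R ^ 3 + R ^ 2 + 1) < R := by
    have h1 : 0 ≤ R ^ 2 * e * (R ^ 3 + R ^ 2 + 1) := by positivity
    rw [hs1] at hs4'
    linarith
  have hφ0 : 0 < φ := by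
    by_contra h
    push Not at h
    have h1 : 0 ≤ -φ * (R ^ 3 + R ^ 2 + 1) := mul_nonneg (neg_nonneg.2 h) (by positivity)
    have h2 : R ≤ R * ((R ^ 2 + 1) * ψ) := by
      have := mul_le_mul_of_nonneg_left hs3 hR0.le
      linarith
    have h3 : 0 < (R ^ 2 - R + 1) * ψ := mul_pos (by nlinarith) hψ0
    nlinarith
  have hφψ : φ < ψ := by
    have h1 : 0 < R * φ := mul_pos hR0 hφ0
    have h2 : (R ^ 2 + 1) * φ < (R ^ 2 + 1) * ψ := by nlinarith
    exact lt_of_mul_lt_mul_left h2 (by positivity)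
  have heδ : e < δ := by
    have h1 : R ^ 2 * e < R ^ 2 * δ := by rw [hs1]; linarith
    exact lt_of_mul_lt_mul_left h1 (by positivity)
  -- (D)
  have hD : ∀ q : ℕ, 1 ≤ q → q ≤ L → (R + 1 + q * R ^ 2) * φ ≤ 1 ∨
      R + 1 ≤ (R + 1 + q * R ^ 2) * ψ := by
    intro q hq1 hqL
    by_contra hcon
    push Not at hcon
    obtain ⟨hc1, hc2⟩ := hcon
    have hq1' : (1 : ℝ) ≤ q := by exact_mod_cast hq1
    have hqL' : (q : ℝ) ≤ R := by rw [hR]; exact_mod_cast hqL
    have hk := hmin (1 + L + q * L ^ 2) ⟨1 + q * L, by ring⟩ ?_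
    · have hy : 0 < a + R * a - 1 + q * φ := by
        have h1 : R ^ 2 * (a + R * a - 1 + q * φ) = (R + 1 + q * R ^ 2) * φ - 1 := by
          rw [hφ]; ring
        have h2 : 0 < R ^ 2 * (a + R * a - 1 + q * φ) := by rw [h1]; linarith
        exact pos_of_mul_pos_right h2 (by positivity)
      have hy' : 0 < (R + 1) * b - q * ψ := by
        have h1 : R ^ 2 * ((R + 1) * b - q * ψ) = (R + 1) - (R + 1 + q * R ^ 2) * ψ := by
          rw [hψ]; ring
        have h2 : 0 < R ^ 2 * ((R + 1) * b - q * ψ) := by rw [h1]; linarith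
        exact pos_of_mul_pos_right h2 (by positivity)
      have h1 : thr (((1 + L + q * L ^ 2 : ℤ) : ℝ) * a) ≤ a + R * a - 1 + q * φ := by
        refine thr_le (1 + q * ((L : ℤ) - 1)) hy ?_
        push_cast
        rw [← hR, hφ]
        ring
      have h2 : thr (((1 + L + q * L ^ 2 : ℤ) : ℝ) * b) ≤ (R + 1) * b - q * ψ := by
        refine thr_le (q : ℤ) hy' ?_
        push_cast
        rw [← hR, hψ]
        ring
      have h3 : (((1 + L + q * L ^ 2 : ℤ) : ℝ) - 1) = R + q * R ^ 2 := by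
        push_cast
        rw [← hR]
        ring
      rw [h3] at hk
      have h4 : R * (a + b) = R * (1 / R + e - δ) := by rw [hsum]
      have h5 : R * (1 / R) = 1 := by field_simp
      have h6 : (q : ℝ) * (R ^ 2 * δ) = q * (ψ - φ + R ^ 2 * e) := by rw [hs1]
      have h7 : 0 < (R + q * R ^ 2) * δ := by positivity
      nlinarith
    · push_cast
      rw [← hR, le_div_iff₀ hR0]
      have h1 : (q : ℝ) * R ^ 2 ≤ R * R ^ 2 := mul_le_mul_of_nonneg_right hqL' (by positivity)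
      have h2 : (1 + R + q * R ^ 2 - 1) * e * R ≤ (R + R * R ^ 2) * δ * R := by
        have h3 : (1 + R + q * R ^ 2 - 1) ≤ R + R * R ^ 2 := by linarith
        have h4 : (1 + R + q * R ^ 2 - 1) * e ≤ (R + R * R ^ 2) * δ :=
          mul_le_mul h3 heδ.le he (by positivity)
        exact mul_le_mul_of_nonneg_right h4 hR0.le
      have h3 : R ^ 2 * δ * (R ^ 3 + R ^ 2 + 1) = R * (δ * (R * (R ^ 3 + R ^ 2 + 1))) := by ring
      have h4 : 0 ≤ δ * R ^ 3 * (R - 1) := by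
        have : 0 ≤ R - 1 := by linarith
        positivity
      have h5 : 0 < δ * R := by positivity
      nlinarith
  -- induction
  have hI : ∀ n : ℕ, 1 ≤ n → n ≤ L → (R + 1 + n * R ^ 2) * φ ≤ 1 := by
    intro n hn
    induction n, hn using Nat.le_induction with
    | base =>
      intro _
      push_cast
      linarith
    | succ n hn ih =>
      intro hnL
      by_contra hcon
      push Not at hcon
      have hA := ih (by omega)
      have hB : R + 1 ≤ (R + 1 + (n + 1 : ℕ) * R ^ 2) * ψ := by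
        rcases hD (n + 1) (by omega) hnL with h | h
        · exact absurd hcon (not_lt.2 h)
        · exact h
      push_cast at hB
      have hn1 : (1 : ℝ) ≤ n := by exact_mod_cast hn
      have hnR : (n : ℝ) ≤ R - 1 := by
        have : ((n + 1 : ℕ) : ℝ) ≤ L := by exact_mod_cast hnL
        push_cast at this
        rw [hR]
        linarith
      have hpoly := P2A.poly R n hR6 hn1 hnR
      obtain ⟨A, hAdef⟩ : ∃ A, A = R + 1 + n * R ^ 2 := ⟨_, rfl⟩
      obtain ⟨B, hBdef⟩ : ∃ B, B = R + 1 + (n + 1) * R ^ 2 := ⟨_, rfl⟩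
      obtain ⟨N, hN⟩ : ∃ N, N = R ^ 3 + R ^ 2 + 1 := ⟨_, rfl⟩
      have hA0 : 0 < A := by rw [hAdef]; positivity
      have hB0 : 0 < B := by rw [hBdef]; positivity
      have hN0 : 0 < N := by rw [hN]; positivity
      rw [← hAdef] at hA hpoly
      rw [← hBdef] at hB hpoly
      rw [← hN] at hs4 hpoly
      -- multiply the inequality by A B
      have h1 : (ψ - φ) * N * (A * B) < R * (A * B) :=
        mul_lt_mul_of_pos_right hs4 (by positivity)
      have h2 : (R + 1) * (N * A) ≤ B * ψ * (N * A) :=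
        mul_le_mul_of_nonneg_right hB (by positivity)
      have h3 : A * φ * (N * B) ≤ 1 * (N * B) := mul_le_mul_of_nonneg_right hA (by positivity)
      have h4 : (R + 1) * A - B = R * (1 + n * R ^ 2) := by rw [hAdef, hBdef]; ring
      have h5 : N * (R * (1 + n * R ^ 2)) < R * (A * B) := by
        rw [← h4]
        linarith
      have h6 : R * (A * B) ≤ R * ((R ^ 2 * n + 1) * N) := mul_le_mul_of_nonneg_left hpoly hR0.le
      linarith
  have := hI L (by omega) le_rfl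
  rw [← hR] at this
  linarith

end G6
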