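import Pool.Agent.G6.St

/-!
# G6, module P2B: the second case of the plane problem, second step
-/

namespace G6

open Finset MldGap

noncomputable section

namespace P2B

/-- the minimality for a multiple with given positive representatives -/
theorem use_min {L : ℕ} {a b e δ : ℝ} (hP : Plane L a b e δ) (k z₁ z₂ : ℤ) {y y' : ℝ}
    (hk : (L : ℤ) ∣ k - 1) (he : ((k : ℝ) - 1) * e ≤ 2 / L) (hy : 0 < y) (hy' : 0 < y')
    (h1 : k * a = y + z₁) (h2 : k * b = y' + z₂) : a + b + ((k : ℝ) - 1) * e ≤ y + y' :=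
  (hP.min k hk he).trans (add_le_add (thr_le z₁ hy h1) (thr_le z₂ hy' h2))

/-- the representative of `(1 - D) a` -/
theorem y1 {l a φ : ℝ} (hl : 6 ≤ l) (ha : a * (l + 1) ≤ 1) (hφ : (l ^ 3 + l + 1) * φ ≤ 1) :
    0 < 1 - (l - 1) * a - (l * (l + 1) + 1) * φ := by
  have h1 : 2 ≤ (1 - (l - 1) * a) * (l + 1) := by
    have h2 : (l - 1) * (a * (l + 1)) ≤ (l - 1) * 1 :=
      mul_le_mul_of_nonneg_left ha (by linarith)
    linarith
  have h3 : (l * (l + 1) + 1) * ((l ^ 3 + l + 1) * φ) ≤ (l * (l + 1) + 1) * 1 :=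
    mul_le_mul_of_nonneg_left hφ (by positivity)
  have hv : 0 < l ^ 3 + l + 1 := by positivity
  have h4 : 2 * (l ^ 3 + l + 1) ≤ (1 - (l - 1) * a) * (l + 1) * (l ^ 3 + l + 1) :=
    mul_le_mul_of_nonneg_right h1 hv.le
  have h5 : (l * (l + 1) + 1) * ((l ^ 3 + l + 1) * φ) * (l + 1) ≤
      (l * (l + 1) + 1) * 1 * (l + 1) := mul_le_mul_of_nonneg_right h3 (by linarith)
  have h6 : (l * (l + 1) + 1) * 1 * (l + 1) < 2 * (l ^ 3 + l + 1) := by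
    nlinarith [mul_nonneg (sq_nonneg l) (by linarith : (0 : ℝ) ≤ l - 6)]
  have h7 : 0 < (1 - (l - 1) * a - (l * (l + 1) + 1) * φ) * ((l + 1) * (l ^ 3 + l + 1)) := by
    linarith
  exact (pos_iff_pos_of_mul_pos h7).2 (by positivity)

/-- the representative of `(1 - D) b` -/
theorem y2 {l b ψ : ℝ} (hl : 6 ≤ l) (hb : b * (l ^ 2 + 1) ≤ 1) (hψ : 1 ≤ (l ^ 2 + 1) * ψ) :
    0 < (l * (l + 1) + 1) * ψ - 1 - (l - 1) * b := by
  have h1 : (l * (l + 1) + 1) * 1 ≤ (l * (l + 1) + 1) * ((l ^ 2 + 1) * ψ) :=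
    mul_le_mul_of_nonneg_left hψ (by positivity)
  have h2 : (l - 1) * (b * (l ^ 2 + 1)) ≤ (l - 1) * 1 :=
    mul_le_mul_of_nonneg_left hb (by linarith)
  have h7 : 0 < ((l * (l + 1) + 1) * ψ - 1 - (l - 1) * b) * (l ^ 2 + 1) := by
    linarith
  exact (pos_iff_pos_of_mul_pos h7).2 (by positivity)

/-- the lower bound for `φ` -/
theorem phi_low {l φ ψ : ℝ} (hl : 6 ≤ l) (hψ : 1 ≤ (l ^ 2 + 1) * ψ)
    (h : (ψ - φ) * (l ^ 3 + l ^ 2 + 1) < l) :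
    l ^ 2 - l + 1 < φ * ((l ^ 2 + 1) * (l ^ 3 + l ^ 2 + 1)) := by
  have h1 : 1 * (l ^ 3 + l ^ 2 + 1) ≤ (l ^ 2 + 1) * ψ * (l ^ 3 + l ^ 2 + 1) :=
    mul_le_mul_of_nonneg_right hψ (by positivity)
  have h2 : (ψ - φ) * (l ^ 3 + l ^ 2 + 1) * (l ^ 2 + 1) < l * (l ^ 2 + 1) :=
    mul_lt_mul_of_pos_right h (by positivity)
  linarith

/-- the representative of `(1 + D) a` -/
theorem y3 {l a φ : ℝ} (hl : 6 ≤ l) (ha : φ = l ^ 2 * a - (l - 1))
    (h : l ^ 2 - l + 1 < φ * ((l ^ 2 + 1) * (l ^ 3 + l ^ 2 + 1))) :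
    0 < (l + 1) * a - 1 + (l * (l + 1) + 1) * φ := by
  have hl0 : 0 < l := by linarith
  have h1 : l ^ 2 * ((l + 1) * a - 1 + (l * (l + 1) + 1) * φ) =
      φ * (l ^ 4 + l ^ 3 + l ^ 2 + l + 1) - 1 := by
    rw [ha]
    ring
  have h2 : (l ^ 2 - l + 1) * (l ^ 4 + l ^ 3 + l ^ 2 + l + 1) <
      φ * ((l ^ 2 + 1) * (l ^ 3 + l ^ 2 + 1)) * (l ^ 4 + l ^ 3 + l ^ 2 + l + 1) :=
    mul_lt_mul_of_pos_right h (by positivity)
  have h3 : 0 < (l ^ 2 - l + 1) * (l ^ 4 + l ^ 3 + l ^ 2 + l + 1) -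
      (l ^ 2 + 1) * (l ^ 3 + l ^ 2 + 1) := by
    have h4 : (l ^ 2 - l + 1) * (l ^ 4 + l ^ 3 + l ^ 2 + l + 1) -
      (l ^ 2 + 1) * (l ^ 3 + l ^ 2 + 1) = l ^ 2 * (l ^ 3 * (l - 1) - 1) := by ring
    rw [h4]
    have h5 : 1 < l ^ 3 * (l - 1) := by
      have h6 : (1 : ℝ) ≤ l ^ 3 := one_le_pow₀ (by linarith)
      nlinarith
    have h7 : 0 < l ^ 3 * (l - 1) - 1 := by linarith
    positivity
  have h8 : 0 < (φ * (l ^ 4 + l ^ 3 + l ^ 2 + l + 1) - 1) *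
      ((l ^ 2 + 1) * (l ^ 3 + l ^ 2 + 1)) := by linarith
  have h9 : 0 < φ * (l ^ 4 + l ^ 3 + l ^ 2 + l + 1) - 1 :=
    (pos_iff_pos_of_mul_pos h8).2 (by positivity)
  have h10 : 0 < l ^ 2 * ((l + 1) * a - 1 + (l * (l + 1) + 1) * φ) := by
    rw [h1]
    exact h9
  exact (pos_iff_pos_of_mul_pos h10).1 (by positivity)

/-- the representative of `(1 + D) b` -/
theorem y4 {l b φ ψ : ℝ} (hl : 6 ≤ l) (hb : ψ = 1 - l ^ 2 * b) (hφ0 : 0 ≤ φ)
    (hφ : (l ^ 3 + l + 1) * φ ≤ 1) (hφψ : φ ≤ ψ) (h : (ψ - φ) * (l ^ 3 + l ^ 2 + 1) < l)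
    (h1 : l * (l + 1) * ψ ≤ 1 + (l - 1) * b) :
    0 < (l + 1) * b + 1 - (l * (l + 1) + 1) * ψ := by
  have hl0 : 0 < l := by linarith
  have h2 : (l ^ 2 + 2) * φ ≤ 1 := by
    have h3 : (l ^ 2 + 2) * φ ≤ (l ^ 3 + l + 1) * φ := by
      refine mul_le_mul_of_nonneg_right ?_ hφ0
      nlinarith [mul_nonneg (sq_nonneg l) (by linarith : (0 : ℝ) ≤ l - 6)]
    linarith
  have h4 : (ψ - φ) * (l ^ 2 + 2) < 1 := by
    have h5 : (ψ - φ) * (l ^ 2 + 2) * l < 1 * l := by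
      have h6 : (ψ - φ) * ((l ^ 2 + 2) * l) ≤ (ψ - φ) * (l ^ 3 + l ^ 2 + 1) := by
        refine mul_le_mul_of_nonneg_left ?_ (by linarith)
        nlinarith
      linarith
    exact lt_of_mul_lt_mul_right h5 hl0.le
  have h5 : 0 < l ^ 2 * (2 * b - ψ) := by
    have h6 : l ^ 2 * b = 1 - ψ := by linarith
    have h7 : l ^ 2 * (2 * b - ψ) = 2 - (l ^ 2 + 2) * ψ := by
      linear_combination 2 * h6
    rw [h7]
    linarith
  have h6 : 0 < 2 * b - ψ := (pos_iff_pos_of_mul_pos h5).1 (by positivity)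
  linarith

/-- the slack -/
theorem slack {l e δ φ ψ : ℝ} (hl : 6 ≤ l) (hδ : δ * (l * (l ^ 3 + l ^ 2 + 1)) < 1)
    (hψ : 1 ≤ (l ^ 2 + 1) * ψ) (hφ : (l ^ 3 + l + 1) * φ ≤ 1)
    (hs : l ^ 2 * δ = ψ - φ + l ^ 2 * e) : l * (l + 1) * (l ^ 2 + 1) * e * l ≤ 2 := by
  have hl0 : 0 < l := by linarith
  have hu : 0 < l ^ 3 + l ^ 2 + 1 := by positivity
  have hv : 0 < l ^ 3 + l + 1 := by positivity
  obtain ⟨u, hud⟩ : ∃ u, u = l ^ 3 + l ^ 2 + 1 := ⟨_, rfl⟩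
  obtain ⟨v, hvd⟩ : ∃ v, v = l ^ 3 + l + 1 := ⟨_, rfl⟩
  have h1 : l * (l ^ 2 - l + 1) ≤ (l ^ 2 + 1) * (ψ - φ) * v := by
    have h2 : 1 * v ≤ (l ^ 2 + 1) * ψ * v := by
      refine mul_le_mul_of_nonneg_right hψ ?_
      rw [hvd]
      exact hv.le
    have h3 : (l ^ 2 + 1) * (v * φ) ≤ (l ^ 2 + 1) * 1 := by
      refine mul_le_mul_of_nonneg_left ?_ (by positivity)
      rw [hvd]
      exact hφ
    have h4 : v = l ^ 3 + l + 1 := hvd
    nlinarith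
  rw [← hud] at hδ hu
  rw [← hvd] at hv
  have h2 : l * (l + 1) * (l ^ 2 + 1) * e * l =
      l * (l + 1) * (l ^ 2 + 1) * δ * l - (l + 1) * ((l ^ 2 + 1) * (ψ - φ)) := by
    linear_combination (-(l + 1) * (l ^ 2 + 1)) * hs
  have h3 : l * (l + 1) * (l ^ 2 + 1) * δ * l * (u * v) ≤ l * (l + 1) * (l ^ 2 + 1) * v := by
    have h4 : l * (l + 1) * (l ^ 2 + 1) * δ * l * (u * v) =
        (l * (l + 1) * (l ^ 2 + 1) * v) * (δ * (l * u)) := by ring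
    rw [h4]
    have h5 : (l * (l + 1) * (l ^ 2 + 1) * v) * (δ * (l * u)) ≤
        (l * (l + 1) * (l ^ 2 + 1) * v) * 1 :=
      mul_le_mul_of_nonneg_left hδ.le (by positivity)
    linarith
  have h4 : (l + 1) * u * (l * (l ^ 2 - l + 1)) ≤
      (l + 1) * u * ((l ^ 2 + 1) * (ψ - φ) * v) :=
    mul_le_mul_of_nonneg_left h1 (by positivity)
  have h5 : l * (l + 1) * (l ^ 2 + 1) * v - (l + 1) * u * (l * (l ^ 2 - l + 1)) ≤ 2 * (u * v) := by
    rw [hud, hvd]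
    have h6 : 2 * ((l ^ 3 + l ^ 2 + 1) * (l ^ 3 + l + 1)) -
        (l * (l + 1) * (l ^ 2 + 1) * (l ^ 3 + l + 1) -
          (l + 1) * (l ^ 3 + l ^ 2 + 1) * (l * (l ^ 2 - l + 1))) =
        2 * l ^ 6 + l ^ 4 + 5 * l ^ 3 + 2 * l + 2 := by ring
    have h7 : 0 ≤ 2 * l ^ 6 + l ^ 4 + 5 * l ^ 3 + 2 * l + 2 := by positivity
    linarith
  have h6 : (l * (l + 1) * (l ^ 2 + 1) * e * l) * (u * v) ≤ 2 * (u * v) := by
    rw [h2]
    linarith
  exact le_of_mul_le_mul_right h6 (by positivity)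

end P2B

open P2B in
theorem t_P2B : Stmt_P2B := by
  intro L a b e δ hL hP hb hKa hφ1
  have hl : (6 : ℝ) ≤ L := by exact_mod_cast hL
  have hsum := hP.sum
  have hδH := hP.small
  have hale := hP.a_le
  have he0 := hP.e_nonneg
  obtain ⟨l, hldef⟩ : ∃ l : ℝ, l = L := ⟨_, rfl⟩
  obtain ⟨φ, hφ⟩ : ∃ φ : ℝ, φ = l ^ 2 * a - (l - 1) := ⟨_, rfl⟩
  obtain ⟨ψ, hψ⟩ : ∃ ψ : ℝ, ψ = 1 - l ^ 2 * b := ⟨_, rfl⟩
  rw [← hldef] at hl hsum hδH hale hb hKa hφ1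
  rw [← hφ] at hφ1
  rw [← hldef, ← hψ]
  have hl0 : 0 < l := by linarith
  have hs : l ^ 2 * δ = ψ - φ + l ^ 2 * e := by
    have h1 : l ^ 2 * (a + b) = l ^ 2 * (1 / l + e - δ) := by rw [hsum]
    have h2 : l ^ 2 * (1 / l) = l := by
      field_simp
    have h3 : l ^ 2 * (1 / l + e - δ) = l ^ 2 * (1 / l) + l ^ 2 * e - l ^ 2 * δ := by ring
    rw [h3, h2] at h1
    rw [hφ, hψ]
    linarith
  have hψ1 : 1 ≤ (l ^ 2 + 1) * ψ := by
    have h1 : l ^ 2 * (b * (l ^ 2 + 1)) ≤ l ^ 2 * 1 := mul_le_mul_of_nonneg_left hb (sq_nonneg l)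
    rw [hψ]
    linarith
  have hsm : (ψ - φ) * (l ^ 3 + l ^ 2 + 1) < l := by
    have h1 : (ψ - φ) ≤ l ^ 2 * δ := by
      have : 0 ≤ l ^ 2 * e := by positivity
      linarith
    have h2 : (ψ - φ) * (l ^ 3 + l ^ 2 + 1) ≤ l ^ 2 * δ * (l ^ 3 + l ^ 2 + 1) :=
      mul_le_mul_of_nonneg_right h1 (by positivity)
    have h3 : l * (δ * (l * (l ^ 3 + l ^ 2 + 1))) < l * 1 := mul_lt_mul_of_pos_left hδH hl0
    linarith
  have hlow := phi_low hl hψ1 hsm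
  have hφ0 : 0 < φ := by
    have h1 : 0 < φ * ((l ^ 2 + 1) * (l ^ 3 + l ^ 2 + 1)) := by nlinarith
    exact (pos_iff_pos_of_mul_pos h1).2 (by positivity)
  have hφψ : φ ≤ ψ := by
    have h1 : (l * (l + 1) + 1) * φ ≤ 1 := by
      have h2 : l ^ 2 * ((l * (l + 1) + 1) * a) ≤ l ^ 2 * l :=
        mul_le_mul_of_nonneg_left hKa (sq_nonneg l)
      rw [hφ]
      linarith
    have h3 : (l ^ 2 + 1) * φ ≤ (l * (l + 1) + 1) * φ := by
      refine mul_le_mul_of_nonneg_right ?_ hφ0.le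
      nlinarith
    have h4 : (l ^ 2 + 1) * φ ≤ (l ^ 2 + 1) * ψ := by linarith
    exact le_of_mul_le_mul_left h4 (by positivity)
  -- step 1
  have hab : ∀ x : ℝ, x * l * (a + b) = x + x * l * (e - δ) := by
    intro x
    rw [hsum]
    field_simp
    ring
  have step1 : l * (l + 1) * ψ ≤ 1 + (l - 1) * b := by
    by_contra hc
    rw [not_le] at hc
    have hk : (((1 - L * (L ^ 3 + L ^ 2 + 1) : ℤ)) : ℝ) = 1 - l * (l ^ 3 + l ^ 2 + 1) := by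
      push_cast
      rw [← hldef]
    have he : (((1 - L * (L ^ 3 + L ^ 2 + 1) : ℤ) : ℝ) - 1) * e ≤ 2 / L := by
      rw [hk, ← hldef]
      have h1 : (0 : ℝ) ≤ 2 / l := by positivity
      have h2 : 0 ≤ l * (l ^ 3 + l ^ 2 + 1) * e := by positivity
      linarith
    have hy := y1 hl hale hφ1
    have hmin := use_min hP (1 - L * (L ^ 3 + L ^ 2 + 1)) (-(1 + L * (L + 1) * (L - 1)))
      (1 - L * (L + 1))
      (y := 1 - (l - 1) * a - l * (l + 1) * φ) (y' := l * (l + 1) * ψ - 1 - (l - 1) * b)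
      ⟨-(L ^ 3 + L ^ 2 + 1), by ring⟩ he (by linarith) (by linarith)
      (by
        rw [hk]
        push_cast
        rw [← hldef, hφ]
        ring)
      (by
        rw [hk]
        push_cast
        rw [← hldef, hψ]
        ring)
    rw [hk] at hmin
    have h1 := hab (l ^ 3 + l ^ 2 + 1)
    have h2 : 1 ≤ δ * (l * (l ^ 3 + l ^ 2 + 1)) := by
      rw [hφ, hψ] at hmin
      linarith
    linarith
  -- step 2
  have step2 : 1 ≤ δ * (l * (l + 1) * (l ^ 2 + 1)) := by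
    have hk : (((1 - L * ((L + 1) * (L ^ 2 + 1)) : ℤ)) : ℝ) =
        1 - l * ((l + 1) * (l ^ 2 + 1)) := by
      push_cast
      rw [← hldef]
    have he : (((1 - L * ((L + 1) * (L ^ 2 + 1)) : ℤ) : ℝ) - 1) * e ≤ 2 / L := by
      rw [hk, ← hldef]
      have h1 : (0 : ℝ) ≤ 2 / l := by positivity
      have h2 : 0 ≤ l * ((l + 1) * (l ^ 2 + 1)) * e := by positivity
      linarith
    have hy := y1 hl hale hφ1
    have hy' := y2 hl hb hψ1
    have hmin := use_min hP (1 - L * ((L + 1) * (L ^ 2 + 1)))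
      (-(1 + (L * (L + 1) + 1) * (L - 1))) (-(L * (L + 1)))
      (y := 1 - (l - 1) * a - (l * (l + 1) + 1) * φ)
      (y' := (l * (l + 1) + 1) * ψ - 1 - (l - 1) * b)
      ⟨-((L + 1) * (L ^ 2 + 1)), by ring⟩ he hy hy'
      (by
        rw [hk]
        push_cast
        rw [← hldef, hφ]
        ring)
      (by
        rw [hk]
        push_cast
        rw [← hldef, hψ]
        ring)
    rw [hk] at hmin
    have h1 := hab ((l + 1) * (l ^ 2 + 1))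
    rw [hφ, hψ] at hmin
    linarith
  -- step 3
  have step3 : δ * (l * (l + 1) * (l ^ 2 + 1)) ≤ 1 := by
    have hk : (((1 + L * ((L + 1) * (L ^ 2 + 1)) : ℤ)) : ℝ) =
        1 + l * ((l + 1) * (l ^ 2 + 1)) := by
      push_cast
      rw [← hldef]
    have he : (((1 + L * ((L + 1) * (L ^ 2 + 1)) : ℤ) : ℝ) - 1) * e ≤ 2 / L := by
      rw [hk, ← hldef, le_div_iff₀ hl0]
      have h1 := slack hl hδH hψ1 hφ1 hs
      linarith
    have hy := y3 hl hφ hlow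
    have hy' := y4 hl hψ hφ0.le hφ1 hφψ hsm step1
    have hmin := use_min hP (1 + L * ((L + 1) * (L ^ 2 + 1)))
      (1 + (L * (L + 1) + 1) * (L - 1)) (L * (L + 1))
      (y := (l + 1) * a - 1 + (l * (l + 1) + 1) * φ)
      (y' := (l + 1) * b + 1 - (l * (l + 1) + 1) * ψ)
      ⟨(L + 1) * (L ^ 2 + 1), by ring⟩ he hy hy'
      (by
        rw [hk]
        push_cast
        rw [← hldef, hφ]
        ring)
      (by
        rw [hk]
        push_cast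
        rw [← hldef, hψ]
        ring)
    rw [hk] at hmin
    have h1 := hab ((l + 1) * (l ^ 2 + 1))
    rw [hφ, hψ] at hmin
    linarith
  exact ⟨le_antisymm step3 step2, step1⟩

end

end G6
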