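import Pool.Agent.G6.St

/-!
# P2C: plane problem, case II, end
-/

namespace G6

open Finset MldGap

namespace P2C

/-- Bound for `ψ`. -/
theorem psi_bound (l φ ψ δ e : ℝ) (hl6 : 6 ≤ l) (hφ : (l ^ 3 + l + 1) * φ ≤ 1) (hφ0 : 0 < φ)
    (hδ0 : 0 < δ) (he0 : 0 ≤ e) (hψφ : ψ = φ + l ^ 2 * (δ - e))
    (hl2δ : ((l + 1) * (l ^ 2 + 1)) * (l ^ 2 * δ) = l) : (l ^ 2 + 2) * ψ < 2 := by
  have hl0 : 0 < l := by linarith
  have h1 : ψ ≤ φ + l ^ 2 * δ := by
    have := mul_nonneg (sq_nonneg l) he0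
    rw [hψφ, mul_sub]
    linarith
  have h2 : (l ^ 2 + 2) * φ < 1 := by
    have : (l ^ 2 + 2) * φ < (l ^ 3 + l + 1) * φ := by
      apply mul_lt_mul_of_pos_right _ hφ0
      nlinarith [mul_pos hl0 hl0]
    linarith
  have h3 : (l ^ 2 + 2) * (l ^ 2 * δ) < 1 := by
    have h4 : 0 < l ^ 2 * δ := by positivity
    have h5 : (l ^ 2 + 2) * (l ^ 2 * δ) * l < l := by
      calc (l ^ 2 + 2) * (l ^ 2 * δ) * l = ((l ^ 2 + 2) * l) * (l ^ 2 * δ) := by ring
        _ < ((l + 1) * (l ^ 2 + 1)) * (l ^ 2 * δ) := by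
          apply mul_lt_mul_of_pos_right _ h4
          nlinarith [mul_pos hl0 hl0]
        _ = l := hl2δ
    by_contra h6
    push Not at h6
    have h7 := mul_le_mul_of_nonneg_right h6 hl0.le
    linarith
  have h8 := mul_le_mul_of_nonneg_left h1 (show (0 : ℝ) ≤ l ^ 2 + 2 by positivity)
  have h9 : (l ^ 2 + 2) * (φ + l ^ 2 * δ) = (l ^ 2 + 2) * φ + (l ^ 2 + 2) * (l ^ 2 * δ) := by
    ring
  linarith

/-- Bound for `D e` (used for `i = 1`). -/
theorem De_bound (l φ ψ δ e : ℝ) (hl6 : 6 ≤ l) (hφ : (l ^ 3 + l + 1) * φ ≤ 1)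
    (hψ1 : 1 ≤ (l ^ 2 + 1) * ψ) (hψφ : ψ = φ + l ^ 2 * (δ - e))
    (hl2δ : ((l + 1) * (l ^ 2 + 1)) * (l ^ 2 * δ) = l) :
    (l ^ 3 + l + 1) * (l * ((l + 1) * (l ^ 2 + 1)) * e) ≤ l := by
  have hl0 : 0 < l := by linarith
  obtain ⟨T, hT⟩ : ∃ T : ℝ, T = (l + 1) * (l ^ 2 + 1) := ⟨_, rfl⟩
  have hT0 : 0 ≤ T := by rw [hT]; positivity
  rw [← hT] at hl2δ ⊢
  have h3 : l * (l * T * e) = l - T * (ψ - φ) := by
    rw [hψφ]
    linear_combination hl2δ
  have h4 : l + 1 ≤ T * ψ := by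
    have h : T * ψ = (l + 1) * ((l ^ 2 + 1) * ψ) := by rw [hT]; ring
    rw [h]
    have := mul_le_mul_of_nonneg_left hψ1 (show (0 : ℝ) ≤ l + 1 by linarith)
    linarith
  have h5 : l * (l * T * e) ≤ -1 + T * φ := by
    rw [h3, mul_sub]; linarith
  have h6 : (l ^ 3 + l + 1) * (T * φ) ≤ T := by
    have h := mul_le_mul_of_nonneg_left hφ hT0
    have h' : (l ^ 3 + l + 1) * (T * φ) = T * ((l ^ 3 + l + 1) * φ) := by ring
    rw [h']
    linarith
  have h7 : 0 ≤ l ^ 3 + l + 1 := by positivity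
  have h8 := mul_le_mul_of_nonneg_left h5 h7
  have h9 : l * ((l ^ 3 + l + 1) * (l * T * e)) ≤ l * l := by
    have h10 : l * ((l ^ 3 + l + 1) * (l * T * e)) = (l ^ 3 + l + 1) * (l * (l * T * e)) := by ring
    have h11 : (l ^ 3 + l + 1) * (-1 + T * φ) = -(l ^ 3 + l + 1) + (l ^ 3 + l + 1) * (T * φ) := by
      ring
    have h12 : T = l ^ 3 + l + 1 + l * l := by rw [hT]; ring
    rw [h10]
    linarith
  exact le_of_mul_le_mul_left h9 hl0

/-- The case `i = 1`: the slack. -/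
theorem slack_one (l X e : ℝ) (hl6 : 6 ≤ l) (hX : 0 ≤ X) (hle : l * e * l ≤ X)
    (h1 : (l ^ 3 + l + 1) * X ≤ l) : l * (l * e + (l + 1) * X) ≤ 2 := by
  have hl0 : 0 < l := by linarith
  have h10 : l * (l * e + (l + 1) * X) ≤ (l ^ 2 + l + 1) * X := by
    have : l * (l * e + (l + 1) * X) = l * e * l + (l ^ 2 + l) * X := by ring
    rw [this]
    have h : (l ^ 2 + l + 1) * X = X + (l ^ 2 + l) * X := by ring
    linarith
  have h11 : ((l ^ 2 + l + 1) * l) * X ≤ (2 * (l ^ 3 + l + 1)) * X := by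
    apply mul_le_mul_of_nonneg_right _ hX
    nlinarith [mul_pos hl0 hl0, mul_pos (mul_pos hl0 hl0) hl0]
  have h12 : l * ((l ^ 2 + l + 1) * X) ≤ l * 2 := by
    have ha : l * ((l ^ 2 + l + 1) * X) = ((l ^ 2 + l + 1) * l) * X := by ring
    have hb : (2 * (l ^ 3 + l + 1)) * X = 2 * ((l ^ 3 + l + 1) * X) := by ring
    rw [ha]
    linarith
  have h13 := le_of_mul_le_mul_left h12 hl0
  linarith

/-- The case `i ≥ 2`: the slack. -/
theorem slack_two (l X Y e ε : ℝ) (hl6 : 6 ≤ l) (hε0 : 0 ≤ ε)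
    (hεle : l ^ 2 * ((l + 1) * ε) ≤ 1) (hle : l * e * l ≤ X) (hX : X ≤ ε) (hY : Y ≤ 2 * ε) :
    l * (l * e + (l + 1) * Y) ≤ 2 := by
  have hl0 : 0 < l := by linarith
  have h4 : l * ((l + 1) * Y) ≤ l * ((l + 1) * (2 * ε)) := by
    apply mul_le_mul_of_nonneg_left _ hl0.le
    apply mul_le_mul_of_nonneg_left hY (by positivity)
  have h5 : l * ((l + 1) * ε) ≤ 1 / 6 := by
    have h6 : 0 ≤ l * ((l + 1) * ε) := by positivity
    have h7 : 6 * (l * ((l + 1) * ε)) ≤ l * (l * ((l + 1) * ε)) :=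
      mul_le_mul_of_nonneg_right hl6 h6
    have h8 : l * (l * ((l + 1) * ε)) = l ^ 2 * ((l + 1) * ε) := by ring
    linarith
  have h9 : 1 * ε ≤ (l * (l + 1)) * ε := by
    apply mul_le_mul_of_nonneg_right _ hε0
    nlinarith
  have h9' : (l * (l + 1)) * ε = l * ((l + 1) * ε) := by ring
  have h10 : l * ((l + 1) * (2 * ε)) = 2 * (l * ((l + 1) * ε)) := by ring
  have h11 : l * (l * e + (l + 1) * Y) = l * e * l + l * ((l + 1) * Y) := by ring
  rw [h11]
  linarith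

/-- The final inequality. -/
theorem final (l a b e δ ε X lam i : ℝ) (hl0 : 0 < l) (hδ0 : 0 < δ)
    (hsum : l * (a + b) = 1 + l * (e - δ)) (hεd : (l + 1) * ε = 1 - (l + 1) * a)
    (hfin : a + b + (l * e + (l + 1) * (i * X)) ≤
      (l + 1) * (i * lam - ε) + (l + 1) * (b - i * (lam - X))) : False := by
  have h1 : (l + 1) * (i * lam - ε) + (l + 1) * (b - i * (lam - X)) =
      (l + 1) * (i * X) + (l + 1) * b - (l + 1) * ε := by ring
  rw [h1, hεd] at hfin
  have h2 : 0 < l * δ := mul_pos hl0 hδ0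
  have h3 : l * (a + b) = l * a + l * b := by ring
  have h4 : l * (e - δ) = l * e - l * δ := by ring
  have h5 : (l + 1) * b = l * b + b := by ring
  have h6 : (l + 1) * a = l * a + a := by ring
  rw [h5, h6] at hfin
  rw [h3, h4] at hsum
  linarith

/-- The contradiction for `lam > 0`. -/
theorem no_pos (L : ℕ) (a b e δ l lam ψ φ ε D : ℝ) (hl : l = (L : ℝ)) (hl6 : 6 ≤ l)
    (hP : Plane L a b e δ) (hDdef : D = l * ((l + 1) * (l ^ 2 + 1)))
    (hφd : φ = l ^ 2 * a - (l - 1)) (hψd : ψ = 1 - l ^ 2 * b)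
    (hφ : (l ^ 3 + l + 1) * φ ≤ 1)
    (hφ0 : 0 < φ)
    (hψ1 : 1 ≤ (l ^ 2 + 1) * ψ)
    (hl2δ : ((l + 1) * (l ^ 2 + 1)) * (l ^ 2 * δ) = l)
    (hsum : l * (a + b) = 1 + l * (e - δ))
    (hψφ : ψ = φ + l ^ 2 * (δ - e))
    (hlamle : lam - D * e ≤ ψ - b)
    (hDa : D * a = (1 + (l * (l + 1) + 1) * (l - 1)) + lam)
    (hDb : D * b = l * (l + 1) + (D * e - lam))
    (hεd : (l + 1) * ε = 1 - (l + 1) * a) (hε0 : 0 ≤ ε)
    (hDe : D * e ≤ lam)
    (hpos : 0 < lam) : False := by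
  have hl0 : 0 < l := by linarith
  have he0 : 0 ≤ e := hP.e_nonneg
  have hδ0 : 0 < δ := hP.δ_pos
  have hb0 : 0 < b := hP.b_pos
  have hD0 : 0 < D := by rw [hDdef]; positivity
  have hDl2 : l ^ 2 ≤ D := by
    rw [hDdef]
    have h1 : l * (1 * (l ^ 2 + 1)) ≤ l * ((l + 1) * (l ^ 2 + 1)) := by
      apply mul_le_mul_of_nonneg_left _ hl0.le
      apply mul_le_mul_of_nonneg_right _ (by positivity)
      linarith
    have h2 : 1 * (l ^ 2 + 1) ≤ l * (1 * (l ^ 2 + 1)) := by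
      rw [one_mul]
      have : 1 * (l ^ 2 + 1) ≤ l * (l ^ 2 + 1) := by
        apply mul_le_mul_of_nonneg_right _ (by positivity)
        linarith
      linarith
    linarith
  have hDe0 : 0 ≤ D * e := mul_nonneg hD0.le he0
  have hle : l * e * l ≤ D * e := by
    have := mul_le_mul_of_nonneg_right hDl2 he0
    have h : l * e * l = l ^ 2 * e := by ring
    linarith
  -- the natural number i
  obtain ⟨i, hi1, hi2, hi3⟩ : ∃ i : ℕ, 1 ≤ i ∧ ε < i * lam ∧ i * lam ≤ ε + lam := by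
    refine ⟨⌊ε / lam⌋₊ + 1, by omega, ?_, ?_⟩
    · have := Nat.lt_floor_add_one (ε / lam)
      rw [div_lt_iff₀ hpos] at this
      push_cast
      exact this
    · have := Nat.floor_le (div_nonneg hε0 hpos.le)
      rw [le_div_iff₀ hpos] at this
      push_cast
      linarith
  -- bound for eps: l ^ 2 * (l + 1) * eps ≤ 1
  have hεl : l ^ 2 * ((l + 1) * ε) = 1 - (l + 1) * φ := by
    rw [hεd, hφd]; ring
  have hεle : l ^ 2 * ((l + 1) * ε) ≤ 1 := by
    rw [hεl]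
    have := mul_pos (show (0 : ℝ) < l + 1 by linarith) hφ0
    linarith
  have hψ2 : (l ^ 2 + 2) * ψ < 2 := psi_bound l φ ψ δ e hl6 hφ hφ0 hδ0 he0 hψφ hl2δ
  have hlb : l ^ 2 * b = 1 - ψ := by rw [hψd]; ring
  have hψb : ψ < 2 * b := by
    have h2 : l ^ 2 * ψ < l ^ 2 * (2 * b) := by
      have : l ^ 2 * (2 * b) = 2 * (1 - ψ) := by rw [← hlb]; ring
      rw [this]; linarith
    exact lt_of_mul_lt_mul_left h2 (by positivity)
  -- i = 1 or i ≥ 2
  have hkey : i * (lam - D * e) < b ∧ l * (l * e + (l + 1) * (i * (D * e))) ≤ 2 := by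
    rcases Nat.lt_or_ge i 2 with h | h
    · have hi : i = 1 := by omega
      subst hi
      rw [Nat.cast_one, one_mul, one_mul]
      constructor
      · linarith
      · have h1 := De_bound l φ ψ δ e hl6 hφ hψ1 hψφ hl2δ
        rw [← hDdef] at h1
        exact slack_one l (D * e) e hl6 hDe0 hle h1
    · have hi2r : (2 : ℝ) ≤ i := by exact_mod_cast h
      have hlε : lam ≤ ε := by
        have := mul_le_mul_of_nonneg_right hi2r hpos.le
        linarith
      have hiε : i * lam ≤ 2 * ε := by linarith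
      have h0 : 0 ≤ (i : ℝ) * (D * e) := by positivity
      constructor
      · have h1 : i * (lam - D * e) ≤ 2 * ε := by
          have h2 : i * (lam - D * e) = i * lam - i * (D * e) := by ring
          linarith
        have h3 : l ^ 2 * (2 * ε) < l ^ 2 * b := by
          rw [hlb]
          have h5 : l ^ 2 * ε * 7 ≤ 1 := by
            have h6 : 0 ≤ l ^ 2 * ε := by positivity
            have h7 := mul_le_mul_of_nonneg_left (show (7 : ℝ) ≤ l + 1 by linarith) h6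
            have h8 : l ^ 2 * ε * (l + 1) = l ^ 2 * ((l + 1) * ε) := by ring
            linarith
          have h7 : ψ < 1 / 2 := by
            by_contra h8
            push Not at h8
            have h9 := mul_le_mul_of_nonneg_left h8 (show (0 : ℝ) ≤ l ^ 2 + 2 by positivity)
            have h10 : 36 ≤ l ^ 2 := by nlinarith only [hl6]
            linarith
          linarith
        have h8 : 2 * ε < b := lt_of_mul_lt_mul_left h3 (by positivity)
        linarith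
      · have h1 : i * (D * e) ≤ 2 * ε := by
          have : (i : ℝ) * (D * e) ≤ i * lam := mul_le_mul_of_nonneg_left hDe (by positivity)
          linarith
        have h2 : D * e ≤ ε := by linarith
        exact slack_two l (D * e) (i * (D * e)) e ε hl6 hε0 hεle hle h2 h1
  obtain ⟨hk1, hk2⟩ := hkey
  -- the multiple
  have hmin := hP.min (((L : ℤ) + 1) * (1 + i * ((L : ℤ) * ((L + 1) * ((L : ℤ) ^ 2 + 1)))))
  have hdvd : (L : ℤ) ∣ ((L : ℤ) + 1) * (1 + i * ((L : ℤ) * ((L + 1) * ((L : ℤ) ^ 2 + 1)))) - 1 := by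
    refine ⟨1 + ((L : ℤ) + 1) * (i * ((L + 1) * ((L : ℤ) ^ 2 + 1))), ?_⟩
    ring
  have hmin2 := hmin hdvd
  push_cast at hmin2
  rw [← hl, ← hDdef] at hmin2
  have hk3 : ((l + 1) * (1 + i * D) - 1) * e = l * e + (l + 1) * (i * (D * e)) := by ring
  rw [hk3] at hmin2
  have hmin3 := hmin2 (by
    rw [le_div_iff₀ hl0, mul_comm]
    exact hk2)
  have hta : thr ((l + 1) * (1 + i * D) * a) ≤ (l + 1) * (i * lam - ε) := by
    apply thr_le (((L : ℤ) + 1) * i * (1 + (L * (L + 1) + 1) * (L - 1)) + 1)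
    · apply mul_pos (by linarith) (by linarith)
    · push_cast
      rw [← hl]
      linear_combination ((l + 1) * i) * hDa + hεd
  have htb : thr ((l + 1) * (1 + i * D) * b) ≤ (l + 1) * (b - i * (lam - D * e)) := by
    apply thr_le (((L : ℤ) + 1) * i * (L * (L + 1)))
    · apply mul_pos (by linarith) (by linarith)
    · push_cast
      rw [← hl]
      linear_combination ((l + 1) * i) * hDb
  exact final l a b e δ ε (D * e) lam i hl0 hδ0 hsum hεd (by linarith)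

end P2C

theorem t_P2C : Stmt_P2C := by
  intro L a b e δ hL hP hb ha hφ' hD' hψ'
  obtain ⟨l, hl⟩ : ∃ l : ℝ, l = (L : ℝ) := ⟨_, rfl⟩
  have hl6 : 6 ≤ l := by rw [hl]; exact_mod_cast hL
  rw [← hl] at hb ha hφ' hD' hψ'
  have hl0 : 0 < l := by linarith
  have hsum : l * (a + b) = 1 + l * (e - δ) := by
    rw [hP.sum, ← hl]
    field_simp
    ring
  have hDδ : l * ((l + 1) * (l ^ 2 + 1)) * δ = 1 := by
    linear_combination hD'
  obtain ⟨φ, hφd⟩ : ∃ φ : ℝ, φ = l ^ 2 * a - (l - 1) := ⟨_, rfl⟩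
  obtain ⟨ψ, hψd⟩ : ∃ ψ : ℝ, ψ = 1 - l ^ 2 * b := ⟨_, rfl⟩
  rw [← hφd] at hφ'
  rw [← hψd] at hψ'
  have hψφ : ψ = φ + l ^ 2 * (δ - e) := by
    rw [hφd, hψd]
    linear_combination -l * hsum
  have hψ1 : 1 ≤ (l ^ 2 + 1) * ψ := by
    rw [hψd]
    nlinarith [mul_pos hl0 hl0]
  obtain ⟨lam, hlamd⟩ : ∃ lam : ℝ, lam = (l * (l + 1) + 1) * φ - 1 + l * a := ⟨_, rfl⟩
  have hT : l * lam = ((l + 1) * (l ^ 2 + 1)) * φ - 1 := by
    rw [hlamd, hφd]; ring
  have hl2δ : ((l + 1) * (l ^ 2 + 1)) * (l ^ 2 * δ) = l := by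
    linear_combination l * hDδ
  have he0 : 0 ≤ e := hP.e_nonneg
  -- lam ≥ D e
  have hDe : l * ((l + 1) * (l ^ 2 + 1)) * e ≤ lam := by
    have h1 : (l + 1) * 1 ≤ (l + 1) * ((l ^ 2 + 1) * ψ) :=
      mul_le_mul_of_nonneg_left hψ1 (by linarith)
    have h2 : (l + 1) * ((l ^ 2 + 1) * ψ) =
        (l * lam + 1) + l - l * (l * ((l + 1) * (l ^ 2 + 1)) * e) := by
      rw [hψφ, hT]
      linear_combination hl2δ
    rw [h2] at h1
    have h3 : l * (l * ((l + 1) * (l ^ 2 + 1)) * e) ≤ l * lam := by linarith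
    exact le_of_mul_le_mul_left h3 hl0
  have hDe0 : 0 ≤ l * ((l + 1) * (l ^ 2 + 1)) * e := by positivity
  have hlam0 : 0 ≤ lam := le_trans hDe0 hDe
  have hT0 : 0 < (l + 1) * (l ^ 2 + 1) := by positivity
  have hφ0 : 0 < φ := by
    by_contra h
    push Not at h
    have := mul_nonneg hl0.le hlam0
    nlinarith
  have hDa : l * ((l + 1) * (l ^ 2 + 1)) * a = (1 + (l * (l + 1) + 1) * (l - 1)) + lam := by
    rw [hlamd, hφd]; ring
  have hDb : l * ((l + 1) * (l ^ 2 + 1)) * b =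
      l * (l + 1) + (l * ((l + 1) * (l ^ 2 + 1)) * e - lam) := by
    have h1 : l * ((l + 1) * (l ^ 2 + 1)) * (a + b) =
        (l + 1) * (l ^ 2 + 1) + l * ((l + 1) * (l ^ 2 + 1)) * e - 1 := by
      linear_combination ((l + 1) * (l ^ 2 + 1)) * hsum - hDδ
    linear_combination h1 - hDa
  have hlamle : lam - l * ((l + 1) * (l ^ 2 + 1)) * e ≤ ψ - b := by
    have h1 : lam - l * ((l + 1) * (l ^ 2 + 1)) * e =
        l * (l + 1) * ψ + ψ - 1 - l * b := by
      rw [hψd]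
      linear_combination hDb
    rw [h1]
    linarith
  obtain ⟨ε, hε⟩ : ∃ ε : ℝ, ε = 1 / (l + 1) - a := ⟨_, rfl⟩
  have hεd : (l + 1) * ε = 1 - (l + 1) * a := by
    rw [hε]
    have : l + 1 ≠ 0 := by positivity
    field_simp
  have hale := hP.a_le
  rw [← hl] at hale
  have hε0 : 0 ≤ ε := by
    by_contra h
    push Not at h
    nlinarith
  rcases hlam0.lt_or_eq with hpos | hzero
  · exact (P2C.no_pos L a b e δ l lam ψ φ ε _ hl hl6 hP rfl hφd hψd hφ' hφ0 hψ1 hl2δ hsum hψφ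
      hlamle hDa hDb hεd hε0 hDe hpos).elim
  · rw [← hzero] at hDe hT
    have hDpos : 0 < l * ((l + 1) * (l ^ 2 + 1)) := by positivity
    have he : e = 0 := by
      by_contra h
      have h1 : 0 < e := lt_of_le_of_ne he0 (Ne.symm h)
      have := mul_pos hDpos h1
      linarith
    have hTφ : ((l + 1) * (l ^ 2 + 1)) * φ = 1 := by linarith [mul_zero l]
    have hψT : ((l + 1) * (l ^ 2 + 1)) * ψ = l + 1 := by
      rw [hψφ, he]
      linear_combination hTφ + hl2δ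
    have hψT2 : (l ^ 2 + 1) * ψ = 1 := by
      have h1 : (l + 1) * ((l ^ 2 + 1) * ψ) = (l + 1) * 1 := by
        linear_combination hψT
      exact mul_left_cancel₀ (by positivity) h1
    refine ⟨he, ?_, ?_⟩
    · rw [← hl]
      have h1 : l ^ 2 * (b * (l ^ 2 + 1)) = l ^ 2 * 1 := by
        rw [hψd] at hψT2
        linear_combination -hψT2
      exact mul_left_cancel₀ (by positivity) h1
    · rw [← hl]
      have h1 : l ^ 2 * (a * ((l + 1) * (l ^ 2 + 1))) = l ^ 2 * l ^ 2 := by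
        rw [hφd] at hTφ
        linear_combination hTφ
      exact mul_left_cancel₀ (by positivity) h1

end G6
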