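import Pool.Agent.G6.St

/-!
# G6, module PB1: the plane problem, first constraint
-/

namespace G6

open Finset MldGap

noncomputable section

namespace PB1

theorem bounds {L : ℕ} {a b e δ : ℝ} (hL : 6 ≤ L) (h : Plane L a b e δ) :
    (L : ℝ) ^ 2 * e ≤ 2 / L ∧ (L : ℝ) - 1 < ((L : ℝ) ^ 2 + 1) * a := by
  have hl : (6 : ℝ) ≤ L := by exact_mod_cast hL
  have hl0 : (0 : ℝ) < L := by linarith
  have he : 0 ≤ 1 / ((L : ℝ) + 1) - a := by
    rw [sub_nonneg, le_div_iff₀ (by linarith)]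
    exact h.a_le
  have he0 := h.e_nonneg
  have hp : 0 < (L : ℝ) ^ 3 * (L + 1) := by positivity
  have hps := h.ps
  constructor
  · rw [le_div_iff₀ hl0]
    have h1 : e * ((L : ℝ) ^ 3 * (L + 1)) ≤ L + 3 := by nlinarith
    have h2 : (L : ℝ) ^ 2 * e * L * (L + 1) ≤ 2 * (L + 1) := by nlinarith
    exact le_of_mul_le_mul_right h2 (by linarith)
  · have h1 : (1 / ((L : ℝ) + 1) - a) * ((L : ℝ) ^ 3 * (L + 1)) ≤ L + 3 := by nlinarith
    have h2 : (1 / ((L : ℝ) + 1) - a) * ((L : ℝ) ^ 3 * (L + 1)) =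
        (L : ℝ) ^ 3 - a * ((L : ℝ) ^ 3 * (L + 1)) := by
      field_simp
    rw [h2] at h1
    have h3 : ((L : ℝ) ^ 2 + 1) * ((L : ℝ) ^ 3 - (L + 3)) ≤
        ((L : ℝ) ^ 2 + 1) * (a * ((L : ℝ) ^ 3 * (L + 1))) :=
      mul_le_mul_of_nonneg_left (by linarith) (by positivity)
    have h4 : ((L : ℝ) - 1) * ((L : ℝ) ^ 3 * (L + 1)) <
        ((L : ℝ) ^ 2 + 1) * ((L : ℝ) ^ 3 - (L + 3)) := by
      nlinarith [mul_pos hl0 hl0, mul_pos (mul_pos hl0 hl0) hl0,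
        mul_nonneg (mul_pos hl0 hl0).le (sub_nonneg.2 hl), mul_nonneg hl0.le (sub_nonneg.2 hl)]
    have h5 : ((L : ℝ) - 1) * ((L : ℝ) ^ 3 * (L + 1)) <
        (((L : ℝ) ^ 2 + 1) * a) * ((L : ℝ) ^ 3 * (L + 1)) := by
      calc _ < _ := h4
        _ ≤ _ := h3
        _ = _ := by ring
    exact lt_of_mul_lt_mul_right h5 hp.le

end PB1

theorem t_PB1 : Stmt_PB1 := by
  intro L a b e δ hL h
  have hl : (6 : ℝ) ≤ L := by exact_mod_cast hL
  have hl0 : (0 : ℝ) < L := by linarith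
  obtain ⟨h1, h2⟩ := PB1.bounds hL h
  by_contra h3
  push Not at h3
  have h4 := h.min (1 + (L : ℤ) ^ 2) ⟨(L : ℤ), by ring⟩ (by push_cast; linarith)
  push_cast at h4
  have h5 : thr ((1 + (L : ℝ) ^ 2) * a) ≤ ((L : ℝ) ^ 2 + 1) * a - (L - 1) :=
    thr_le ((L : ℤ) - 1) (by linarith) (by push_cast; ring)
  have h6 : thr ((1 + (L : ℝ) ^ 2) * b) ≤ b * ((L : ℝ) ^ 2 + 1) - 1 :=
    thr_le 1 (by linarith) (by push_cast; ring)
  have h7 : (L : ℝ) ^ 2 * (a + b) = L + (L : ℝ) ^ 2 * e - (L : ℝ) ^ 2 * δ := by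
    rw [h.sum]
    field_simp
  have h8 : 0 < (L : ℝ) ^ 2 * δ := mul_pos (by positivity) h.δ_pos
  nlinarith

end

end G6
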