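import Pool.Agent.G6.St

set_option autoImplicit false

/-!
# PC1: the plane problem, the first case
-/

namespace G6

open Finset MldGap

theorem t_PC1 : Stmt_PC1 := by
  intro L a b e δ hL hP ha
  by_contra hb
  push Not at hb
  have hLR : (6 : ℝ) ≤ L := by exact_mod_cast hL
  have hL0 : (0 : ℝ) < L := by linarith
  have h1 : 0 ≤ 1 / ((L : ℝ) + 1) - a := by
    rw [sub_nonneg, le_div_iff₀ (by linarith)]
    exact hP.a_le
  have h2 : e * ((L : ℝ) ^ 3 * (L + 1)) ≤ L + 3 := by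
    have h3 := hP.ps
    have h4 : 0 ≤ (1 / ((L : ℝ) + 1) - a) * ((L : ℝ) ^ 3 * (L + 1)) := mul_nonneg h1 (by positivity)
    rw [add_mul] at h3
    linarith
  have h3 : (L : ℝ) * (L + 1) * e ≤ 2 / L := by
    rw [le_div_iff₀ hL0]
    refine le_of_mul_le_mul_left ?_ hL0
    have h4 : (L : ℝ) * (L * (L + 1) * e * L) = e * ((L : ℝ) ^ 3 * (L + 1)) := by ring
    rw [h4]
    linarith
  have hm := hP.min (1 + (L : ℤ) * (L + 1)) ⟨L + 1, by ring⟩ (by push_cast; linarith)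
  have ta : thr (((1 + (L : ℤ) * (L + 1) : ℤ) : ℝ) * a) ≤ (L * (L + 1) + 1 : ℝ) * a - L :=
    thr_le (L : ℤ) (by linarith) (by push_cast; ring)
  have tb : thr (((1 + (L : ℤ) * (L + 1) : ℤ) : ℝ) * b) ≤ (L * (L + 1) + 1 : ℝ) * b - 1 :=
    thr_le 1 (by linarith) (by push_cast; ring)
  have h5 : (L : ℝ) * (L + 1) * (a + b) = (L + 1) + L * (L + 1) * (e - δ) := by
    rw [hP.sum]
    field_simp
    ring
  have h6 : 0 < (L : ℝ) * (L + 1) * δ := by
    have := hP.δ_pos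
    positivity
  push_cast at hm
  push_cast at ta tb
  nlinarith

end G6
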