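import Pool.Agent.G6.St

/-!
# PFA: the three families have reflections
-/

namespace G6

open Finset MldGap

noncomputable section

namespace PFA

theorem fr (n : ℤ) (q : ℝ) (hq : 1 < q) : Int.fract ((n : ℝ) - 1 / q) ≠ 0 := by
  intro h
  have h1 : ((n : ℝ) - 1 / q) - (⌊(n : ℝ) - 1 / q⌋ : ℝ) = 0 := h
  obtain ⟨z, hz⟩ : ∃ z : ℤ, z = ⌊(n : ℝ) - 1 / q⌋ := ⟨_, rfl⟩
  rw [← hz] at h1
  have hq0 : 0 < q := by linarith
  have h2 : 0 < 1 / q := by positivity
  have h3 : 1 / q < 1 := by rw [div_lt_one hq0]; exact hq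
  have h4 : (0 : ℝ) < ((n - z : ℤ) : ℝ) := by push_cast; linarith
  have h5 : ((n - z : ℤ) : ℝ) < 1 := by push_cast; linarith
  have h6 : 0 < n - z := by exact_mod_cast h4
  have h7 : n - z < 1 := by exact_mod_cast h5
  omega

/-- The criterion. -/
theorem bad {L : ℕ} {u v : ℝ} (k m n : ℤ) (q : ℝ) (hk : (L : ℤ) ∣ k) (hq : 1 < q)
    (h1 : k * u = m) (h2 : k * v = n - 1 / q) :
    ∃ k : ℤ, (L : ℤ) ∣ k ∧ ¬ (Int.fract (k * u) = 0 ↔ Int.fract (k * v) = 0) := by
  refine ⟨k, hk, fun h => ?_⟩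
  have h3 : Int.fract (k * u) = 0 := by rw [h1, Int.fract_intCast]
  have h4 := h.1 h3
  rw [h2] at h4
  exact fr n q hq h4

end PFA

/-- PFA -/
theorem t_PFA : Stmt_PFA := by
  intro L a b hL
  have hL' : (6 : ℝ) ≤ (L : ℝ) := by exact_mod_cast hL
  have hL0 : (L : ℝ) ≠ 0 := by linarith
  have hL1 : (L : ℝ) + 1 ≠ 0 := by linarith
  refine ⟨fun M hM ha hb => ⟨rfl, ?_⟩, fun hb ha => ⟨rfl, ?_⟩, fun hb ha => ⟨rfl, ?_⟩⟩
  · have hM' : (2 : ℝ) ≤ (M : ℝ) := by exact_mod_cast hM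
    have hM0 : (M : ℝ) ≠ 0 := by linarith
    refine PFA.bad ((L : ℤ) * (L + 1)) L 1 M (Dvd.intro _ rfl) (by linarith) ?_ ?_
    · push_cast
      rw [mul_assoc, mul_comm ((L : ℝ) + 1) a, ha, mul_one]
    · push_cast
      have h1 : (M : ℝ) * (1 - L * (L + 1) * b) / M = 1 / M := by rw [hb]
      rw [mul_div_cancel_left₀ _ hM0] at h1
      linarith
  · obtain ⟨k, hk, h⟩ := PFA.bad (L := L) (u := b) (v := a) ((L : ℤ) * (L * (L + 1) + 1)) L
      ((L : ℤ) ^ 2 + 1) L (Dvd.intro _ rfl) (by linarith)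
      (by
        push_cast
        rw [mul_assoc, mul_comm _ b, hb, mul_one])
      (by
        push_cast
        have h1 : (L : ℝ) * (L * (L + 1) + 1) ≠ 0 := by positivity
        have h2 : (1 / ((L : ℝ) + 1) - a) * (L * (L * (L + 1) + 1)) * (L * (L + 1)) = 1 :=
          Eq.trans (by ring) ha
        have h3 : (1 / ((L : ℝ) + 1) - a) * (L * (L * (L + 1) + 1)) = 1 / (L * (L + 1)) := by
          rw [eq_div_iff (by positivity)]
          exact h2
        have h4 : (L : ℝ) * (L * (L + 1) + 1) * a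
            = 1 / ((L : ℝ) + 1) * (L * (L * (L + 1) + 1)) - 1 / (L * (L + 1)) := by
          rw [← h3]
          ring
        rw [h4]
        field_simp
        ring)
    exact ⟨k, hk, fun h' => h h'.symm⟩
  · obtain ⟨k, hk, h⟩ := PFA.bad (L := L) (u := b) (v := a) ((L : ℤ) * (L ^ 2 + 1)) L
      ((L : ℤ) ^ 2 - L + 1) (L + 1) (Dvd.intro _ rfl) (by linarith)
      (by
        push_cast
        rw [mul_assoc, mul_comm _ b, hb, mul_one])
      (by
        push_cast
        have h2 : (L : ℝ) * (L ^ 2 + 1) * a * (L + 1) = L ^ 3 := by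
          have : (L : ℝ) * (L ^ 2 + 1) * a * (L + 1) = L * (a * ((L + 1) * (L ^ 2 + 1))) := by ring
          rw [this, ha]
          ring
        have h3 : (L : ℝ) * (L ^ 2 + 1) * a = L ^ 3 / (L + 1) := by
          rw [eq_div_iff hL1]
          exact h2
        rw [h3]
        field_simp
        ring)
    exact ⟨k, hk, fun h' => h h'.symm⟩

end

end G6
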