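import Pool.Agent.G6.St

/-!
PLA: the plane problem, assembly
-/

namespace G6

open Finset MldGap

noncomputable section

theorem t_PLA : Stmt_PLA := by
  intro hPB1 hPC1 hP11 hP12R hP12A hP12B hP2A hP2B hP2C hPFA L a b e δ hL hP
  have hl : (6 : ℝ) ≤ L := by exact_mod_cast hL
  have hb1 := hPB1 L a b e δ hL hP
  obtain ⟨f1, f2, f3⟩ := hPFA L a b hL
  rcases lt_or_ge (L : ℝ) ((L * (L + 1) + 1) * a) with h1 | h1
  · have hb := hPC1 L a b e δ hL hP h1
    have hδ : 0 < (L : ℝ) * (L + 1) * δ := by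
      have := hP.δ_pos
      positivity
    have hsm := hP.small
    obtain ⟨M, hM⟩ : ∃ M : ℕ, M = ⌊1 / ((L : ℝ) * (L + 1) * δ)⌋₊ := ⟨_, rfl⟩
    have hM1 : M * ((L : ℝ) * (L + 1) * δ) ≤ 1 := by
      rw [← le_div_iff₀ hδ, hM]
      exact Nat.floor_le (by positivity)
    have hM2 : 1 < ((M : ℝ) + 1) * ((L : ℝ) * (L + 1) * δ) := by
      rw [← div_lt_iff₀ hδ, hM]
      exact Nat.lt_floor_add_one _
    have hM3 : L ^ 2 ≤ M := by
      rw [hM]
      refine Nat.le_floor ?_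
      rw [le_div_iff₀ hδ]
      push_cast
      have h2 : (L : ℝ) ^ 2 * (L * (L + 1) * δ) * ((L : ℝ) ^ 3 + L ^ 2 + 1) ≤
          (L : ℝ) ^ 3 + L ^ 2 + 1 := by
        have h3 : (L : ℝ) ^ 2 * (L * (L + 1) * δ) * ((L : ℝ) ^ 3 + L ^ 2 + 1) =
            (L : ℝ) ^ 2 * (L + 1) * (δ * (L * ((L : ℝ) ^ 3 + L ^ 2 + 1))) := by ring
        rw [h3]
        have h4 : (L : ℝ) ^ 2 * (L + 1) * (δ * (L * ((L : ℝ) ^ 3 + L ^ 2 + 1))) ≤
            (L : ℝ) ^ 2 * (L + 1) * 1 := mul_le_mul_of_nonneg_left hsm.le (by positivity)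
        linarith
      have h5 : (0 : ℝ) < (L : ℝ) ^ 3 + L ^ 2 + 1 := by positivity
      have h6 : (L : ℝ) ^ 2 * (L * (L + 1) * δ) * ((L : ℝ) ^ 3 + L ^ 2 + 1) ≤
          1 * ((L : ℝ) ^ 3 + L ^ 2 + 1) := by linarith
      exact le_of_mul_le_mul_right h6 h5
    rcases lt_or_ge (((M : ℝ) + 1) * (L * (L + 1) * (1 / ((L : ℝ) + 1) - a))) a with h2 | h2
    · obtain ⟨g1, g2, g3⟩ := hP11 L M a b e δ hL hP hb hM3 hM1 hM2 h2
      rw [g1]
      refine f1 M ?_ g2 g3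
      have : 6 ^ 2 ≤ L ^ 2 := Nat.pow_le_pow_left hL 2
      omega
    · rcases hP12R L M a b e δ hL hP hb hM3 hM1 h2 with h3 | h3
      · obtain ⟨g1, g2, g3⟩ := hP12B L a b e δ hL hP hb (by
          rw [h3] at h2
          push_cast at h2
          exact h2)
        rw [g1]
        exact f2 g2 g3
      · exfalso
        refine hP12A L a b e δ hL hP hb ?_ ?_
        · rw [h3] at hM1
          push_cast at hM1
          exact hM1
        · rw [h3] at h2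
          push_cast at h2
          have h4 : (L : ℝ) ^ 2 + 1 + 1 = (L : ℝ) ^ 2 + 2 := by ring
          rw [h4] at h2
          exact h2
  · have g := hP2A L a b e δ hL hP hb1 h1
    obtain ⟨g1, g2⟩ := hP2B L a b e δ hL hP hb1 h1 g
    obtain ⟨g3, g4, g5⟩ := hP2C L a b e δ hL hP hb1 h1 g g1 g2
    rw [g3]
    exact f3 g4 g5

end

end G6
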