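import Pool.Agent.G6.St

set_option autoImplicit false

/-!
# PLN: from the stability to the plane problem
-/

namespace G6

open Finset MldGap

noncomputable section

namespace PLN

theorem syl_two_le (k : ℕ) : 2 ≤ sylvester k := MldGap.two_le_sylvester k

theorem syl_succ_pred (k : ℕ) : sylvester (k + 1) - 1 = sylvester k * (sylvester k - 1) := by
  have h := syl_two_le k
  obtain ⟨t, ht⟩ : ∃ t, sylvester k = t + 1 := ⟨sylvester k - 1, by omega⟩
  have h1 : sylvester (k + 1) = sylvester k ^ 2 - sylvester k + 1 := rfl
  rw [h1, ht]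
  have h2 : (t + 1) ^ 2 - (t + 1) = (t + 1) * t := by
    have : (t + 1) ^ 2 = (t + 1) * t + (t + 1) := by ring
    rw [this, Nat.add_sub_cancel]
  rw [h2]
  simp

theorem syl_seven {k : ℕ} (hk : 2 ≤ k) : 7 ≤ sylvester k := by
  induction k, hk using Nat.le_induction with
  | base => decide
  | succ n hn ih =>
    have h := syl_succ_pred n
    have h2 : 7 * 6 ≤ sylvester n * (sylvester n - 1) := Nat.mul_le_mul ih (by omega)
    omega

end PLN

open PLN in
theorem t_PLN : Stmt_PLN := by
  intro hDNS c h x hc hS hsm hep hep2 hps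
  obtain ⟨d1, -, d3, d4, d5, -, d7⟩ := hDNS
  have hs43 : 43 ≤ sylvester c := (d7 c hc).1
  have hLN : LL c + 1 = sylvester c := by unfold LL; omega
  have hL42 : 42 ≤ LL c := by omega
  have hLs : (sylvester c : ℝ) = (LL c : ℝ) + 1 := by
    rw [← hLN]; push_cast; ring
  have hLs' : (sylvester c : ℝ) - 1 = (LL c : ℝ) := by rw [hLs]; ring
  have hLr : (42 : ℝ) ≤ (LL c : ℝ) := by exact_mod_cast hL42
  have hLpos : (0 : ℝ) < (LL c : ℝ) := by linarith
  set L : ℝ := (LL c : ℝ) with hL
  -- the denominators
  have hd1 : ∀ i, (1 : ℝ) ≤ (dn h i : ℝ) := fun i => by exact_mod_cast d4 h i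
  have hd6 : ∀ i < h + c, 6 * (dn h i : ℝ) ≤ L := by
    intro i hi
    have h1 : dn h i ≤ sylvester (c - 1) := d5 h (c - 1) i (by omega)
    have h2 : sylvester c - 1 = sylvester (c - 1) * (sylvester (c - 1) - 1) := by
      have := syl_succ_pred (c - 1)
      rwa [show c - 1 + 1 = c by omega] at this
    have h3 : 7 ≤ sylvester (c - 1) := syl_seven (by omega)
    have h4 : 6 * dn h i ≤ LL c := by
      unfold LL
      rw [h2]
      calc 6 * dn h i ≤ (sylvester (c - 1) - 1) * sylvester (c - 1) :=
            Nat.mul_le_mul (by omega) h1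
        _ = _ := by ring
    rw [hL]
    exact_mod_cast h4
  have hxi : ∀ i, x i = 1 / (dn h i : ℝ) - ep h x i := fun i => by unfold ep; ring
  -- the sums
  set e : ℝ := ∑ i ∈ range (h + c), ep h x i with he
  have he0 : 0 ≤ e := sum_nonneg fun i hi => hep i (by rw [mem_range] at hi; omega)
  have hsum0 : ∑ i ∈ range (h + c), x i = (h : ℝ) + 1 - 1 / L - e := by
    have h1 := d1 h c
    rw [hLs'] at h1
    rw [he]
    unfold ep
    rw [sum_sub_distrib, h1]
    ring
  have hsum2 : ∑ i ∈ range (h + c + 2), x i =
      ∑ i ∈ range (h + c), x i + x (h + c) + x (h + c + 1) := by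
    rw [show h + c + 2 = (h + c + 1) + 1 by rfl, sum_range_succ, sum_range_succ]
  have hdc : dn h (h + c) = sylvester c := by
    unfold dn
    rw [if_neg (by omega)]
    congr 1
    omega
  have hepc : ep h x (h + c) = 1 / (L + 1) - x (h + c) := by
    unfold ep
    rw [hdc, hLs]
  refine ⟨hS.pos _ (by omega), hS.pos _ (by omega), he0, by linarith [hS.lt], ?_, ?_, ?_, ?_, ?_⟩
  · rw [hsum2, hsum0]
    ring
  · have h1 := hsm
    unfold Small HH at h1
    push_cast at h1
    exact h1
  · have h1 := hep (h + c) (by omega)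
    rw [hepc] at h1
    have h2 : x (h + c) ≤ 1 / (L + 1) := by linarith
    rw [le_div_iff₀ (by linarith)] at h2
    exact h2
  · have h1 := hps
    rw [sum_range_succ, hepc] at h1
    have h2 : (1 / (L + 1) - x (h + c) + e) = e + (1 / (L + 1) - x (h + c)) := by ring
    rw [h2]
    exact h1
  · intro k hk hke
    obtain ⟨z, hz⟩ := hk
    have hzr : (k : ℝ) - 1 = L * z := by
      have : ((k - 1 : ℤ) : ℝ) = (((LL c : ℕ) : ℤ) * z : ℤ) := by rw [hz]
      push_cast at this
      exact this
    have hthr : ∀ i ∈ range (h + c), thr (k * x i) ≤ x i - ((k : ℝ) - 1) * ep h x i := by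
      intro i hi
      rw [mem_range] at hi
      have hdi := hd1 i
      have hdp : (0 : ℝ) < (dn h i : ℝ) := by linarith
      have hepi := hep i (by omega)
      obtain ⟨q, hq⟩ := d3 h c i hi
      have hqr : L = (dn h i : ℝ) * q := by
        rw [hL]
        have : LL c = dn h i * q := hq
        exact_mod_cast this
      refine thr_le ((q : ℤ) * z) ?_ ?_
      · -- positivity
        rcases le_or_gt ((k : ℝ) - 1) 0 with hk1 | hk1
        · have h1 := hS.pos i (by omega)
          have h2 : ((k : ℝ) - 1) * ep h x i ≤ 0 := mul_nonpos_of_nonpos_of_nonneg hk1 hepi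
          linarith
        · have h1 : ep h x i ≤ e := by
            rw [he]
            exact single_le_sum (f := fun i => ep h x i)
              (fun j hj => hep j (by rw [mem_range] at hj; omega)) (mem_range.2 hi)
          have h2 : ((k : ℝ) - 1) * ep h x i ≤ 2 / L :=
            (mul_le_mul_of_nonneg_left h1 hk1.le).trans hke
          have h3 := hep2 i hi
          rw [hLs] at h3
          -- x i * dn > L / (L + 1)
          have h4 : x i * (dn h i : ℝ) = 1 - ep h x i * (dn h i : ℝ) := by
            rw [hxi i]
            field_simp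
          have h5 : L / (L + 1) < x i * (dn h i : ℝ) := by
            rw [h4, div_lt_iff₀ (by linarith)]
            nlinarith
          have h6 := hd6 i hi
          -- 2 / L * dn < L / (L+1)
          have h7 : 2 / L * (dn h i : ℝ) ≤ 1 / 3 := by
            rw [div_mul_eq_mul_div, div_le_iff₀ hLpos]
            linarith
          have h8 : (1 : ℝ) / 3 < L / (L + 1) := by
            rw [div_lt_div_iff₀ (by norm_num) (by linarith)]
            linarith
          have h9 : 2 / L * (dn h i : ℝ) < x i * (dn h i : ℝ) := by linarith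
          have h10 : 2 / L < x i := lt_of_mul_lt_mul_right h9 hdp.le
          linarith
      · push_cast
        have h1 : ((k : ℝ) - 1) * (1 / (dn h i : ℝ)) = q * z := by
          rw [hzr, hqr]
          field_simp
        have h2 : (k : ℝ) * x i = x i + ((k : ℝ) - 1) * (1 / (dn h i : ℝ)) -
            ((k : ℝ) - 1) * ep h x i := by
          have h3 : ep h x i = 1 / (dn h i : ℝ) - x i := rfl
          rw [h3]
          ring
        rw [h2, h1]
        ring
    have hm := hS.min k
    rw [hsum2, show h + c + 2 = (h + c + 1) + 1 by rfl, sum_range_succ, sum_range_succ] at hm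
    have hs := sum_le_sum hthr
    rw [sum_sub_distrib, ← mul_sum, ← he] at hs
    linarith

end

end G6
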