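import Pool.Agent.G6.St

/-!
# G6_PSI: the product inequality
-/

namespace G6

open Finset MldGap

theorem t_PSI : Stmt_PSI := by
  intro m h x hx k hk
  have hsum : ∑ i : Fin m, x i = ∑ i ∈ range m, x i := Fin.sum_univ_eq_sum_range x m
  have key := subset_ineq (ι := Fin m) (fun i => x i) (fun i => hx.pos i i.2)
    (fun i => (hx.lt_one i i.2).le) (fun _ => 1) (fun _ => by norm_num) (p := h + 1)
    (Nat.succ_pos h) (by
      have h1 := hx.lt
      have h2 : ∑ i : Fin m, (((1 : ℤ) : ℝ)) * x i = ∑ i ∈ range m, x i := by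
        rw [← hsum]
        exact Finset.sum_congr rfl fun i _ => by rw [Int.cast_one, one_mul]
      rw [h2]
      push_cast
      exact h1)
    (by
      intro q hq y hy hys
      have h1 : ∑ i : Fin m, thr ((q : ℤ) * x i) ≤ ∑ i : Fin m, ((q : ℝ) * x i - (y i : ℝ)) := by
        refine Finset.sum_le_sum fun i _ => ?_
        refine thr_le (y i) (sub_pos.2 (hy i)) ?_
        push_cast
        ring
      have h2 : ∑ i : Fin m, thr ((q : ℤ) * x i) = ∑ i ∈ range m, thr ((q : ℤ) * x i) :=
        Fin.sum_univ_eq_sum_range (fun i => thr ((q : ℤ) * x i)) m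
      have h3 := hx.min q
      have h4 : ∑ i : Fin m, ((q : ℝ) * x i - (y i : ℝ)) =
          (q : ℝ) * (∑ i ∈ range m, x i) - ((q : ℝ) - 1) * (h + 1) := by
        rw [Finset.sum_sub_distrib, ← Finset.mul_sum, hsum]
        congr 1
        have h5 : (∑ i : Fin m, (y i : ℝ)) = ((∑ i : Fin m, 1 * y i : ℤ) : ℝ) := by
          push_cast
          exact Finset.sum_congr rfl fun i _ => by rw [one_mul]
        rw [h5, hys]
        push_cast
        ring
      rw [h2, h4] at h1
      have h6 := hx.lt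
      have h7 : (2 : ℝ) ≤ q := by exact_mod_cast hq
      nlinarith)
    (univ.filter fun i : Fin m => (i : ℕ) < k)
  have e1 : ∀ f : ℕ → ℝ, ∑ i ∈ univ.filter (fun i : Fin m => (i : ℕ) < k), f i =
      ∑ i ∈ range k, f i := by
    intro f
    refine Finset.sum_bij (fun i _ => (i : ℕ)) ?_ ?_ ?_ ?_
    · intro i hi
      exact mem_range.2 (mem_filter.1 hi).2
    · intro i _ j _ hij
      exact Fin.ext hij
    · intro i hi
      have hi' := mem_range.1 hi
      exact ⟨⟨i, by omega⟩, mem_filter.2 ⟨mem_univ _, hi'⟩, rfl⟩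
    · intro i _
      rfl
  have e2 : ∏ i ∈ univ.filter (fun i : Fin m => (i : ℕ) < k), x i = ∏ i ∈ range k, x i := by
    refine Finset.prod_bij (fun i _ => (i : ℕ)) ?_ ?_ ?_ ?_
    · intro i hi
      exact mem_range.2 (mem_filter.1 hi).2
    · intro i _ j _ hij
      exact Fin.ext hij
    · intro i hi
      have hi' := mem_range.1 hi
      exact ⟨⟨i, by omega⟩, mem_filter.2 ⟨mem_univ _, hi'⟩, rfl⟩
    · intro i _
      rfl
  rw [e2] at key
  have e3 : ∑ i ∈ univ.filter (fun i : Fin m => (i : ℕ) < k), (((1 : ℤ) : ℝ)) * x i =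
      ∑ i ∈ range k, x i := by
    rw [← e1 x]
    exact Finset.sum_congr rfl fun i _ => by rw [Int.cast_one, one_mul]
  rw [e3] at key
  push_cast at key
  exact key

end G6
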