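import Pool.Agent.G6.St

/-!
# G6, module STG: one stage
-/

set_option autoImplicit false

namespace G6

open Finset MldGap

theorem t_STG : Stmt_STG := by
  intro hDNS m h j x hj hm hS hep hsm
  obtain ⟨hD1, -, hD3, hD4, -, hD6, -⟩ := hDNS
  obtain ⟨s, hs⟩ : ∃ s, s = sylvester j := ⟨_, rfl⟩
  have hs2 : 2 ≤ s := by
    have h1 := hD6 0 j (Nat.zero_le j)
    have h2 : sylvester 0 = 2 := rfl
    omega
  obtain ⟨n, hn⟩ : ∃ n, n = h + j := ⟨_, rfl⟩
  have hsum := hD1 h j
  have hdvd := hD3 h j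
  rw [← hs, ← hn] at hsum
  rw [← hn, ← hs] at hdvd
  rw [← hn] at hm hep hsm ⊢
  rw [← hs] at hsm ⊢
  by_contra hcon
  push Not at hcon
  have hsR : (2 : ℝ) ≤ (s : ℝ) := by exact_mod_cast hs2
  have hs0 : (0 : ℝ) < (s : ℝ) := by linarith
  obtain ⟨r, hr⟩ := Nat.exists_eq_add_of_le (Nat.succ_le_of_lt hm)
  have hsplit : ∀ f : ℕ → ℝ, ∑ i ∈ range m, f i =
      ∑ i ∈ range n, f i + f n + ∑ i ∈ range r, f (n + 1 + i) := by
    intro f
    rw [hr, Nat.succ_eq_add_one, Finset.sum_range_add, Finset.sum_range_succ]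
  have hmin := hS.min (s : ℤ)
  have hlt := hS.lt
  rw [hsplit] at hlt
  rw [hsplit, hsplit] at hmin
  have hxi : ∀ i, x i = 1 / (dn h i : ℝ) - ep h x i := by
    intro i
    unfold ep
    ring
  have h1 : ∀ i ∈ range n, thr (((s : ℤ) : ℝ) * x i) ≤ x i - ((s : ℝ) - 1) * ep h x i := by
    intro i hi
    have hi' := mem_range.1 hi
    obtain ⟨q, hq⟩ := hdvd i hi'
    have hd0 : (0 : ℝ) < (dn h i : ℝ) := by
      have := hD4 h i
      exact_mod_cast this
    have hq' : (s : ℝ) - 1 = (dn h i : ℝ) * (q : ℝ) := by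
      have h3 : s = dn h i * q + 1 := by omega
      rw [h3]
      push_cast
      ring
    refine thr_le (q : ℤ) ?_ ?_
    · have h4 := hsm i hi'
      have h5 : x i - ((s : ℝ) - 1) * ep h x i = (1 - ep h x i * dn h i * s) / dn h i := by
        rw [hxi i]
        field_simp
        ring
      rw [h5]
      exact div_pos (by linarith) hd0
    · have h6 : ((q : ℤ) : ℝ) = ((s : ℝ) - 1) / (dn h i : ℝ) := by
        rw [hq', mul_div_cancel_left₀ _ hd0.ne']
        push_cast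
        rfl
      rw [h6]
      have h7 := hxi i
      push_cast
      have h8 : ((s : ℝ) - 1) / (dn h i : ℝ) = ((s : ℝ) - 1) * (x i + ep h x i) := by
        rw [h7]
        ring
      rw [h8]
      ring
  have h2 : thr (((s : ℤ) : ℝ) * x n) ≤ (s : ℝ) * x n - 1 := by
    refine thr_le 1 ?_ ?_
    · rw [div_lt_iff₀ hs0] at hcon
      linarith
    · push_cast
      ring
  have h3 : ∀ i ∈ range r, thr (((s : ℤ) : ℝ) * x (n + 1 + i)) ≤ (s : ℝ) * x (n + 1 + i) := by
    intro i hi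
    have hi' := mem_range.1 hi
    have hp := hS.pos (n + 1 + i) (by omega)
    refine thr_le 0 (mul_pos hs0 hp) ?_
    push_cast
    ring
  have h4 := Finset.sum_le_sum h1
  have h5 := Finset.sum_le_sum h3
  rw [Finset.sum_sub_distrib, ← Finset.mul_sum] at h4
  rw [← Finset.mul_sum] at h5
  have h6 : ∑ i ∈ range n, x i = (h : ℝ) + 1 - 1 / ((s : ℝ) - 1) - ∑ i ∈ range n, ep h x i := by
    rw [← hsum, ← Finset.sum_sub_distrib]
    exact Finset.sum_congr rfl fun i _ => hxi i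
  have hA : (0 : ℝ) < (s : ℝ) - 1 := by linarith
  have h7 : x n + ∑ i ∈ range r, x (n + 1 + i) <
      1 / ((s : ℝ) - 1) + ∑ i ∈ range n, ep h x i := by linarith
  have h8 := mul_lt_mul_of_pos_left h7 hA
  have h9 : ((s : ℝ) - 1) * (1 / ((s : ℝ) - 1) + ∑ i ∈ range n, ep h x i) =
      1 + ((s : ℝ) - 1) * ∑ i ∈ range n, ep h x i := by
    rw [mul_add, mul_one_div_cancel hA.ne']
  rw [h9] at h8
  nlinarith [h8, hmin, h4, h5, h2]

end G6
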