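import Pool.Agent.G6.St

/-!
# G6, module TAI: the greedy tail
-/

set_option autoImplicit false

namespace G6

open Finset MldGap

namespace TAI

theorem gg_pos {t : ℝ} (ht : 0 < t) : 0 < gg t := by
  unfold gg
  positivity

theorem it_pos {t : ℝ} (ht : 0 < t) (j : ℕ) : 0 < gg^[j] t := by
  induction j with
  | zero => simpa using ht
  | succ j ih =>
    rw [Function.iterate_succ_apply']
    exact gg_pos ih

theorem gg_prod {t : ℝ} (ht : 0 < t) : t * (t / (1 + t)) = gg t := by
  unfold gg
  have : (1 : ℝ) + t ≠ 0 := by positivity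
  field_simp

theorem gg_sub {t : ℝ} (ht : 0 < t) : t - t / (1 + t) = gg t := by
  unfold gg
  have : (1 : ℝ) + t ≠ 0 := by positivity
  field_simp
  ring

end TAI

theorem t_TAI : Stmt_TAI := by
  intro hCEX n r a x y hx hanti hy hprod hR
  set P : ℝ := ∏ i ∈ range n, y i with hP
  set R : ℝ := a - ∑ i ∈ range n, y i with hRdef
  have hPpos : 0 < P := Finset.prod_pos (fun i hi => (hy i (Finset.mem_range.mp hi)).1)
  have h1P : (1 : ℝ) + P ≠ 0 := by positivity
  set q0 : ℝ := P * R / (1 + P) with hq0
  have hq0pos : 0 < q0 := by positivity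
  let Q : ℕ → ℝ := fun j => gg^[j] q0
  have hQpos : ∀ j, 0 < Q j := fun j => TAI.it_pos hq0pos j
  let z : ℕ → ℝ := fun i => if i < n then y i else if i = n then R / (1 + P) else
    Q (i - n - 1) / (1 + Q (i - n - 1))
  have hz1 : ∀ i < n, z i = y i := fun i hi => by simp only [z, if_pos hi]
  have hz2 : z n = R / (1 + P) := by simp only [z, lt_irrefl, if_false, if_true]
  have hz3 : ∀ j, z (n + 1 + j) = Q j / (1 + Q j) := by
    intro j
    have h1 : ¬ (n + 1 + j < n) := by omega
    have h2 : ¬ (n + 1 + j = n) := by omega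
    have h3 : n + 1 + j - n - 1 = j := by omega
    simp only [z, if_neg h1, if_neg h2, h3]
  have hmain : ∀ j, ∏ i ∈ range (n + 1 + j), z i = Q j ∧
      a - ∑ i ∈ range (n + 1 + j), z i = Q j := by
    intro j
    induction j with
    | zero =>
      have e1 : ∏ i ∈ range n, z i = P := Finset.prod_congr rfl
        (fun i hi => hz1 i (Finset.mem_range.mp hi))
      have e2 : ∑ i ∈ range n, z i = ∑ i ∈ range n, y i := Finset.sum_congr rfl
        (fun i hi => hz1 i (Finset.mem_range.mp hi))
      have e3 : Q 0 = q0 := rfl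
      rw [Nat.add_zero, Finset.prod_range_succ, Finset.sum_range_succ, e1, e2, e3, hz2, hq0]
      constructor
      · ring
      · have e4 : a - (∑ i ∈ range n, y i + R / (1 + P)) = R - R / (1 + P) := by
          rw [hRdef]; ring
        rw [e4]
        field_simp
        ring
    | succ j ih =>
      obtain ⟨i1, i2⟩ := ih
      have e0 : n + 1 + (j + 1) = (n + 1 + j) + 1 := by omega
      have e3 : Q (j + 1) = gg (Q j) := Function.iterate_succ_apply' gg j q0
      rw [e0, Finset.prod_range_succ, Finset.sum_range_succ, i1, hz3, e3]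
      constructor
      · exact TAI.gg_prod (hQpos j)
      · rw [← TAI.gg_sub (hQpos j)]
        linarith
  have hzpos : ∀ i, 0 < z i := by
    intro i
    rcases lt_trichotomy i n with h | h | h
    · rw [hz1 i h]; exact (hy i h).1
    · rw [h, hz2]; positivity
    · obtain ⟨j, rfl⟩ : ∃ j, i = n + 1 + j := ⟨i - n - 1, by omega⟩
      rw [hz3]
      have := hQpos j
      positivity
  have key := hCEX (n + r + 1) a x z hx hanti (fun i _ => hzpos i) hprod (by
    intro k hk
    rcases lt_or_ge k n with h | h
    · left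
      rw [hz1 k h]
      exact (hy k h).2
    · right
      obtain ⟨j, rfl⟩ : ∃ j, k = n + j := ⟨k - n, by omega⟩
      have e : n + j + 1 = n + 1 + j := by omega
      rw [e, (hmain j).1, (hmain j).2]) (n + r + 1) le_rfl
  have e : n + r + 1 = n + 1 + r := by omega
  have h1 := (hmain r).2
  rw [← e] at h1
  have h2 : gg^[r] q0 = Q r := rfl
  rw [h2, ← h1]
  linarith

end G6
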