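import Pool.Agent.G6.St

/-!
# G6, module THR: the comparison of `E` and `H`
-/

set_option autoImplicit false

namespace G6

open Finset MldGap

namespace THR

theorem syl_ge (c : ℕ) (hc : 3 ≤ c) : (43 : ℝ) ≤ sylvester c := by
  induction c, hc using Nat.le_induction with
  | base =>
    have : sylvester 3 = 43 := rfl
    rw [this]
    norm_num
  | succ n _ ih =>
    have h := sylvester_cast n
    nlinarith

end THR

theorem t_THR : Stmt_THR := by
  intro c w hc hw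
  have hs : (43 : ℝ) ≤ sylvester c := THR.syl_ge c hc
  have hL : ((LL c : ℕ) : ℝ) = (sylvester c : ℝ) - 1 := by
    unfold LL
    rw [Nat.cast_sub]
    · simp
    · have h1 : (1 : ℝ) ≤ sylvester c := by linarith
      exact_mod_cast h1
  have hH : ((HH (LL c) : ℕ) : ℝ) =
      ((sylvester c : ℝ) - 1) * (((sylvester c : ℝ) - 1) ^ 3 + ((sylvester c : ℝ) - 1) ^ 2 + 1) := by
    unfold HH
    push_cast
    rw [hL]
  rw [hH]
  have e1 := sylvester_cast c
  have e2 := sylvester_cast (c + 1)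
  obtain ⟨L, hLd⟩ : ∃ L : ℝ, L = (sylvester c : ℝ) - 1 := ⟨_, rfl⟩
  have hsL : (sylvester c : ℝ) = L + 1 := by rw [hLd]; ring
  have hL42 : 42 ≤ L := by rw [hLd]; linarith
  rw [hsL] at e1 hw
  have e3 : (sylvester (c + 2) : ℝ) - 1 = (L * (L + 1)) * (L * (L + 1) + 1) := by
    have : (sylvester (c + 2) : ℝ) = (sylvester (c + 1 + 1) : ℝ) := rfl
    have e4 : (sylvester (c + 1) : ℝ) = (L + 1) * (L + 1 - 1) + 1 := by linarith
    rw [this, e2, e4]
    ring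
  rw [e3, hsL]
  have hE : 0 < (L * (L + 1)) * (L * (L + 1) + 1) := by positivity
  have hHp : 0 < (L + 1 - 1) * ((L + 1 - 1) ^ 3 + (L + 1 - 1) ^ 2 + 1) := by
    have : L + 1 - 1 = L := by ring
    rw [this]; positivity
  rw [div_mul_eq_mul_div, le_div_iff₀ hE, one_mul]
  have h1 : (1 + 21 / 20 / (L + 1)) * ((L + 1 - 1) * ((L + 1 - 1) ^ 3 + (L + 1 - 1) ^ 2 + 1)) ≤
      w * ((L + 1 - 1) * ((L + 1 - 1) ^ 3 + (L + 1 - 1) ^ 2 + 1)) :=
    mul_le_mul_of_nonneg_right hw hHp.le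
  refine le_trans ?_ h1
  have h2 : (1 + 21 / 20 / (L + 1)) * ((L + 1 - 1) * ((L + 1 - 1) ^ 3 + (L + 1 - 1) ^ 2 + 1)) =
      ((20 * L + 41) * (L * (L ^ 3 + L ^ 2 + 1))) / (20 * (L + 1)) := by
    field_simp
    ring
  rw [h2, le_div_iff₀ (by positivity)]
  have h3 : 0 ≤ L ^ 3 - 39 * L ^ 2 - 40 * L + 21 := by nlinarith [mul_nonneg (sub_nonneg.mpr hL42) (sub_nonneg.mpr hL42), mul_nonneg (mul_nonneg (sub_nonneg.mpr hL42) (sub_nonneg.mpr hL42)) (sub_nonneg.mpr hL42)]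
  have h4 : 0 ≤ L * (L ^ 3 - 39 * L ^ 2 - 40 * L + 21) := mul_nonneg (by linarith) h3
  nlinarith [h4]

end G6
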