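import Pool.Agent.G6.St

/-!
# G6_UBD: the sum of the deviations (helper64)
-/

namespace G6

open Finset MldGap

noncomputable section

namespace UBD

/-- the real computation -/
theorem real_part (L u δ P R S : ℝ) (hL : 42 ≤ L) (hu : 0 ≤ u)
    (hδ : δ * (L * (L ^ 3 + L ^ 2 + 1)) < 1) (hR : R = 1 / (L * (L + 1)) + u) (hP0 : 0 < P)
    (hP1 : P ≤ 1 / (L * (L + 1))) (hP2 : 1 / (L * (L + 1)) * (1 - S) ≤ P)
    (hPδ : P * R ≤ δ * (1 + P)) (hS1 : S ≤ 1 / 2) (hS2 : S ≤ (L + 1) * u) :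
    u * (L ^ 3 * (L + 1)) ≤ L + 3 := by
  obtain ⟨K, hK⟩ : ∃ K : ℝ, K = L * (L + 1) := ⟨_, rfl⟩
  have hK0 : 0 < K := by
    rw [hK]
    positivity
  rw [← hK] at hR hP1 hP2
  have hR0 : 0 < R := by
    rw [hR]
    positivity
  have hδ0 : 0 < δ := by
    have h1 : 0 < δ * (1 + P) := lt_of_lt_of_le (mul_pos hP0 hR0) hPδ
    exact pos_of_mul_pos_left h1 (by linarith)
  have h1 : (1 - S) * (1 + K * u) ≤ K * (K + 1) * δ := by
    have e1 : 1 / K * (1 - S) * R ≤ P * R := mul_le_mul_of_nonneg_right hP2 hR0.le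
    have e2 : δ * (1 + P) ≤ δ * (1 + 1 / K) :=
      mul_le_mul_of_nonneg_left (by linarith) hδ0.le
    have e3 : K ^ 2 * (1 / K * (1 - S) * R) ≤ K ^ 2 * (δ * (1 + 1 / K)) :=
      mul_le_mul_of_nonneg_left (by linarith) (by positivity)
    have e4 : K ^ 2 * (1 / K * (1 - S) * R) = (1 - S) * (1 + K * u) := by
      rw [hR]
      field_simp
    have e5 : K ^ 2 * (δ * (1 + 1 / K)) = K * (K + 1) * δ := by
      field_simp
    rw [e4, e5] at e3
    exact e3
  obtain ⟨v, hv⟩ : ∃ v : ℝ, v = K * u := ⟨_, rfl⟩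
  have hv0 : 0 ≤ v := by
    rw [hv]
    positivity
  rw [← hv] at h1
  have h2 : L ^ 2 * (K * (K + 1) * δ) < L ^ 2 + L + 1 := by
    have e1 : L ^ 2 * (K * (K + 1)) ≤ (L ^ 2 + L + 1) * (L * (L ^ 3 + L ^ 2 + 1)) := by
      have e2 : (L ^ 2 + L + 1) * (L * (L ^ 3 + L ^ 2 + 1)) - L ^ 2 * (K * (K + 1)) =
          (L ^ 2 + L + 1) * L := by
        rw [hK]
        ring
      have e3 : 0 ≤ (L ^ 2 + L + 1) * L := by positivity
      linarith
    calc L ^ 2 * (K * (K + 1) * δ) = L ^ 2 * (K * (K + 1)) * δ := by ring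
      _ ≤ (L ^ 2 + L + 1) * (L * (L ^ 3 + L ^ 2 + 1)) * δ :=
          mul_le_mul_of_nonneg_right e1 hδ0.le
      _ = (L ^ 2 + L + 1) * (δ * (L * (L ^ 3 + L ^ 2 + 1))) := by ring
      _ < (L ^ 2 + L + 1) * 1 := mul_lt_mul_of_pos_left hδ (by positivity)
      _ = L ^ 2 + L + 1 := mul_one _
  have h3 : L ^ 2 * ((1 - S) * (1 + v)) < L ^ 2 + L + 1 :=
    lt_of_le_of_lt (mul_le_mul_of_nonneg_left h1 (by positivity)) h2
  -- the first crude bound
  have h4 : v ≤ 1.1 := by
    by_contra hcon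
    push Not at hcon
    have e1 : L ^ 2 * (1 / 2 * (1 + v)) ≤ L ^ 2 * ((1 - S) * (1 + v)) :=
      mul_le_mul_of_nonneg_left (mul_le_mul_of_nonneg_right (by linarith) (by linarith))
        (by positivity)
    nlinarith
  have h5 : L * ((L - v) * (1 + v)) < L ^ 2 + L + 1 := by
    have e1 : L - v ≤ L * (1 - S) := by
      have e2 : v = L * ((L + 1) * u) := by
        rw [hv, hK]
        ring
      rw [e2]
      nlinarith
    have e3 : L * ((L - v) * (1 + v)) ≤ L * (L * (1 - S) * (1 + v)) :=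
      mul_le_mul_of_nonneg_left (mul_le_mul_of_nonneg_right e1 (by linarith)) (by linarith)
    calc L * ((L - v) * (1 + v)) ≤ L * (L * (1 - S) * (1 + v)) := e3
      _ = L ^ 2 * ((1 - S) * (1 + v)) := by ring
      _ < _ := h3
  have h6 : L * (v * (L - 1 - v)) < L + 1 := by
    have e1 : L * ((L - v) * (1 + v)) = L ^ 2 + L * (v * (L - 1 - v)) := by ring
    rw [e1] at h5
    linarith
  have h7 : v ≤ 0.03 := by
    by_contra hcon
    push Not at hcon
    have e1 : L * (0.03 * (L - 2.1)) ≤ L * (v * (L - 1 - v)) := by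
      refine mul_le_mul_of_nonneg_left ?_ (by linarith)
      exact mul_le_mul hcon.le (by linarith) (by linarith) hv0
    nlinarith
  have h8 : L ^ 2 * v ≤ L + 3 := by
    by_contra hcon
    push Not at hcon
    have e1 : L * (v * (L - 1.03)) ≤ L * (v * (L - 1 - v)) := by
      refine mul_le_mul_of_nonneg_left ?_ (by linarith)
      exact mul_le_mul_of_nonneg_left (by linarith) hv0
    have e2 : L * (L * (v * (L - 1.03))) < L * (L + 1) :=
      mul_lt_mul_of_pos_left (by linarith) (by linarith)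
    have e3 : (L + 3) * (L - 1.03) < L ^ 2 * v * (L - 1.03) :=
      mul_lt_mul_of_pos_right hcon (by linarith)
    have e4 : L * (L * (v * (L - 1.03))) = L ^ 2 * v * (L - 1.03) := by ring
    rw [e4] at e2
    nlinarith
  calc u * (L ^ 3 * (L + 1)) = L ^ 2 * v := by
        rw [hv, hK]
        ring
    _ ≤ L + 3 := h8

/-- `1 - ∑ t i ≤ ∏ (1 - t i)` -/
theorem one_sub_le (t : ℕ → ℝ) (n : ℕ) (h0 : ∀ i < n, 0 ≤ t i) (h1 : ∀ i < n, t i ≤ 1) :
    1 - ∑ i ∈ range n, t i ≤ ∏ i ∈ range n, (1 - t i) ∧ 0 ≤ ∏ i ∈ range n, (1 - t i) ∧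
      ∏ i ∈ range n, (1 - t i) ≤ 1 := by
  induction n with
  | zero => simp
  | succ n ih =>
    obtain ⟨a1, a2, a3⟩ := ih (fun i hi => h0 i (by omega)) (fun i hi => h1 i (by omega))
    have b0 := h0 n (by omega)
    have b1 := h1 n (by omega)
    rw [Finset.sum_range_succ, Finset.prod_range_succ]
    refine ⟨?_, mul_nonneg a2 (by linarith), ?_⟩
    · nlinarith
    · nlinarith

end UBD

open UBD in
theorem t_UBD : Stmt_UBD := by
  intro hDNS hPSI c h x hc hhc hx hsm hep hep1 hep2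
  obtain ⟨d1, d2, d3, d4, d5, d6, d7⟩ := hDNS
  obtain ⟨s43, s8⟩ := d7 c hc
  -- the number `L`
  obtain ⟨L, hL⟩ : ∃ L : ℝ, L = (LL c : ℝ) := ⟨_, rfl⟩
  have hs : (sylvester c : ℝ) = L + 1 := by
    rw [hL]
    unfold LL
    rw [Nat.cast_sub (by omega)]
    push_cast
    ring
  have hs1 : (sylvester (c + 1) : ℝ) - 1 = L * (L + 1) := by
    have e1 : sylvester (c + 1) = sylvester c ^ 2 - sylvester c + 1 := rfl
    have e2 : sylvester c ≤ sylvester c ^ 2 := by nlinarith
    rw [e1]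
    push_cast [Nat.cast_sub e2]
    rw [hs]
    ring
  have hL42 : 42 ≤ L := by
    have : (43 : ℝ) ≤ (sylvester c : ℝ) := by exact_mod_cast s43
    linarith
  have hLc : 8 * (c : ℝ) + 8 ≤ L + 1 := by
    have : ((8 * c + 8 : ℕ) : ℝ) ≤ (sylvester c : ℝ) := by exact_mod_cast s8
    push_cast at this
    linarith
  rw [← hL]
  -- the numbers
  obtain ⟨t, ht⟩ : ∃ t : ℕ → ℝ, ∀ i, t i = dn h i * ep h x i := ⟨_, fun _ => rfl⟩
  have hdn : ∀ i, (1 : ℝ) ≤ dn h i := fun i => by exact_mod_cast d4 h i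
  have hxt : ∀ i, x i = 1 / (dn h i : ℝ) * (1 - t i) := by
    intro i
    have h0 : (dn h i : ℝ) ≠ 0 := by linarith [hdn i]
    rw [ht]
    unfold ep
    field_simp
    ring
  have ht0 : ∀ i < h + c + 1, 0 ≤ t i := by
    intro i hi
    rw [ht]
    exact mul_nonneg (by linarith [hdn i]) (hep i hi)
  have ht1 : ∀ i < h + c + 1, t i ≤ 1 := by
    intro i hi
    by_contra hcon
    push Not at hcon
    have e1 := hx.pos i (by omega)
    rw [hxt] at e1
    have e2 : 0 < 1 / (dn h i : ℝ) := by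
      have := hdn i
      positivity
    nlinarith
  obtain ⟨p1, p2, p3⟩ := one_sub_le t (h + c + 1) ht0 ht1
  have hprod : ∏ i ∈ range (h + c + 1), x i =
      1 / (L * (L + 1)) * ∏ i ∈ range (h + c + 1), (1 - t i) := by
    rw [Finset.prod_congr rfl fun i _ => hxt i, Finset.prod_mul_distrib]
    have e1 := d2 h (c + 1)
    rw [hs1, ← add_assoc] at e1
    rw [e1]
  have hsum : (h : ℝ) + 1 - ∑ i ∈ range (h + c + 1), x i =
      1 / (L * (L + 1)) + ∑ i ∈ range (h + c + 1), ep h x i := by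
    have e1 := d1 h (c + 1)
    rw [hs1, ← add_assoc] at e1
    have e2 : ∑ i ∈ range (h + c + 1), ep h x i = ∑ i ∈ range (h + c + 1), 1 / (dn h i : ℝ) -
        ∑ i ∈ range (h + c + 1), x i := by
      rw [← Finset.sum_sub_distrib]
      rfl
    rw [e2, e1]
    ring
  have hKpos : 0 < 1 / (L * (L + 1)) := by positivity
  -- the product inequality
  have hpsi := hPSI (h + c + 2) h x hx (h + c + 2) le_rfl
  rw [Finset.prod_range_succ, Finset.sum_range_succ] at hpsi
  have hsm' := hsm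
  unfold Small HH at hsm'
  rw [Finset.sum_range_succ] at hsm'
  push_cast at hsm'
  rw [← hL] at hsm'
  refine real_part L _ ((h : ℝ) + 1 - (∑ i ∈ range (h + c + 1), x i + x (h + c + 1)))
    (∏ i ∈ range (h + c + 1), x i) _ (∑ i ∈ range (h + c + 1), t i) hL42
    (Finset.sum_nonneg fun i hi => hep i (Finset.mem_range.1 hi)) hsm' hsum.symm.symm
    (Finset.prod_pos fun i hi => hx.pos i (by have := Finset.mem_range.1 hi; omega)) ?_ ?_ ?_ ?_ ?_
  · rw [hprod]
    nlinarith
  · rw [hprod]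
    exact mul_le_mul_of_nonneg_left p1 hKpos.le
  · linarith
  · -- the crude bound
    rw [Finset.sum_range_succ]
    have e1 : ∀ i ∈ range (h + c), t i ≤ 1 / (L + 1) := by
      intro i hi
      have e2 := hep1 i (Finset.mem_range.1 hi)
      rw [hs] at e2
      rw [ht, le_div_iff₀ (by linarith)]
      linarith
    have e3 := Finset.sum_le_card_nsmul _ _ _ e1
    rw [Finset.card_range, nsmul_eq_mul] at e3
    have e4 : t (h + c) ≤ 1 / 4 := by
      rw [ht]
      have e5 : dn h (h + c) = sylvester c := by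
        unfold dn
        rw [if_neg (by omega)]
        congr 1
        omega
      rw [e5]
      linarith
    have e6 : ((h + c : ℕ) : ℝ) * (1 / (L + 1)) ≤ 1 / 4 := by
      have e7 : (h : ℝ) ≤ c := by exact_mod_cast hhc
      push_cast
      rw [mul_one_div, div_le_iff₀ (by linarith)]
      linarith
    linarith
  · rw [Finset.mul_sum]
    refine Finset.sum_le_sum fun i hi => ?_
    rw [ht]
    have e1 : (dn h i : ℝ) ≤ L + 1 := by
      rw [← hs]
      exact_mod_cast d5 h c i (by have := Finset.mem_range.1 hi; omega)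
    exact mul_le_mul_of_nonneg_right e1 (hep i (Finset.mem_range.1 hi))

end

end G6
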