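import Pool.Agent.G6.DNS
import Pool.Agent.G6.PSI
import Pool.Agent.G6.CEX
import Pool.Agent.G6.TAI
import Pool.Agent.G6.GRO
import Pool.Agent.G6.THR
import Pool.Agent.G6.HLF
import Pool.Agent.G6.STG
import Pool.Agent.G6.CLO
import Pool.Agent.G6.CLA
import Pool.Agent.G6.CLB
import Pool.Agent.G6.CLC
import Pool.Agent.G6.ALL
import Pool.Agent.G6.UBD
import Pool.Agent.G6.PLN
import Pool.Agent.G6.PB1
import Pool.Agent.G6.PC1
import Pool.Agent.G6.P11
import Pool.Agent.G6.P12R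
import Pool.Agent.G6.P12A
import Pool.Agent.G6.P12B
import Pool.Agent.G6.P2A
import Pool.Agent.G6.P2B
import Pool.Agent.G6.P2C
import Pool.Agent.G6.PFA
import Pool.Agent.G6.PLA
import Pool.Agent.G6.END
import Pool.Agent.G6.MAI

/-!
# Sharp gaps without boundary, all dimensions: the bound for sorted families
-/

namespace G6

open Finset MldGap

noncomputable section

/-- The plane problem. -/
theorem plane {L : ℕ} {a b e δ : ℝ} (hL : 6 ≤ L) (h : Plane L a b e δ) : Bad L a b e :=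
  t_PLA t_PB1 t_PC1 t_P11 t_P12R t_P12A t_P12B t_P2A t_P2B t_P2C t_PFA L a b e δ hL h

/-- The bound for sorted families, all dimensions. -/
theorem main_bound (c h : ℕ) (x : ℕ → ℝ) (hc : 3 ≤ c) (hh : h ≤ c) (hx : SPt (h + c + 2) h x) :
    ∑ i ∈ range (h + c + 2), x i ≤ (h : ℝ) + 1 - 1 / (HH (LL c) : ℝ) :=
  t_MAI t_DNS t_PSI t_CEX t_TAI t_GRO t_THR t_HLF t_STG t_CLO t_CLA t_CLB t_CLC t_ALL t_UBD t_PLN
    (fun L a b e δ hL h => plane hL h) t_END c h x hc hh hx

end

end G6
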