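import Pool.Agent.G6.St

/-!
# DNS: sums, products and divisibility of the denominators
-/

namespace G6

open Finset MldGap

namespace DNS

theorem succ_sub (k : ℕ) : sylvester (k + 1) - 1 = sylvester k * (sylvester k - 1) := by
  have h := two_le_sylvester k
  simp only [sylvester]
  obtain ⟨t, ht⟩ : ∃ t, sylvester k = t + 1 := ⟨sylvester k - 1, by omega⟩
  rw [ht]
  have h1 : (t + 1) ^ 2 = (t + 1) * t + (t + 1) := by ring
  rw [h1]
  simp

theorem two_mul_le (k : ℕ) : sylvester k * 2 - 1 ≤ sylvester (k + 1) := by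
  have h := two_le_sylvester k
  have h1 := succ_sub k
  have h2 : sylvester k * 1 ≤ sylvester k * (sylvester k - 1) := Nat.mul_le_mul_left _ (by omega)
  have h3 := two_le_sylvester (k + 1)
  have h4 : 2 * (sylvester k - 1) ≤ sylvester k * (sylvester k - 1) := Nat.mul_le_mul_right _ h
  omega

theorem le_succ (k : ℕ) : sylvester k ≤ sylvester (k + 1) := by
  have h := two_le_sylvester k
  have h1 := two_mul_le k
  omega

theorem mono {i j : ℕ} (h : i ≤ j) : sylvester i ≤ sylvester j :=
  monotone_nat_of_le_succ le_succ h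

theorem dvd {i j : ℕ} (h : i < j) : sylvester i ∣ sylvester j - 1 := by
  induction j with
  | zero => omega
  | succ j ih =>
    rw [succ_sub]
    rcases Nat.lt_succ_iff_lt_or_eq.1 h with h1 | h1
    · exact Dvd.dvd.mul_left (ih h1) _
    · rw [h1]
      exact Dvd.intro _ rfl

theorem prod_inv (m : ℕ) :
    ∏ j ∈ range m, 1 / (sylvester j : ℝ) = 1 / ((sylvester m : ℝ) - 1) := by
  induction m with
  | zero => norm_num [sylvester]
  | succ m ih =>
    rw [prod_range_succ, ih, sylvester_cast]
    have h := sylvester_real m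
    have h1 : (sylvester m : ℝ) ≠ 0 := by linarith
    have h2 : (sylvester m : ℝ) - 1 ≠ 0 := by linarith
    field_simp

theorem dn_lt {h i : ℕ} (hi : i < h) : dn h i = 1 := by
  simp [dn, hi]

theorem dn_add (h i : ℕ) : dn h (h + i) = sylvester i := by
  simp [dn]

theorem dn_ge {h i : ℕ} (hi : h ≤ i) : dn h i = sylvester (i - h) := by
  simp [dn, hi]

theorem syl3 : sylvester 3 = 43 := by
  norm_num [sylvester]

end DNS

open DNS in
theorem t_DNS : Stmt_DNS := by
  refine ⟨fun h j => ?_, fun h j => ?_, fun h j i hi => ?_, fun h i => ?_, fun h j i hi => ?_,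
    fun i j hij => mono hij, fun c hc => ?_⟩
  · rw [sum_range_add]
    have h1 : ∑ i ∈ range h, 1 / (dn h i : ℝ) = h := by
      rw [sum_congr rfl (g := fun _ => (1 : ℝ))]
      · simp
      · intro i hi
        rw [dn_lt (mem_range.1 hi)]
        norm_num
    have h2 : ∑ i ∈ range j, 1 / (dn h (h + i) : ℝ) = ∑ i ∈ range j, 1 / (sylvester i : ℝ) :=
      sum_congr rfl fun i _ => by rw [dn_add]
    rw [h1, h2, sum_inv_sylvester]
    ring
  · rw [prod_range_add]
    have h1 : ∏ i ∈ range h, 1 / (dn h i : ℝ) = 1 := by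
      refine prod_eq_one fun i hi => ?_
      rw [dn_lt (mem_range.1 hi)]
      norm_num
    have h2 : ∏ i ∈ range j, 1 / (dn h (h + i) : ℝ) = ∏ i ∈ range j, 1 / (sylvester i : ℝ) :=
      prod_congr rfl fun i _ => by rw [dn_add]
    rw [h1, h2, prod_inv, one_mul]
  · rcases lt_or_ge i h with h1 | h1
    · rw [dn_lt h1]
      exact one_dvd _
    · rw [dn_ge h1]
      exact dvd (by omega)
  · rcases lt_or_ge i h with h1 | h1
    · rw [dn_lt h1]
    · rw [dn_ge h1]
      have := two_le_sylvester (i - h)
      omega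
  · rcases lt_or_ge i h with h1 | h1
    · rw [dn_lt h1]
      have := two_le_sylvester j
      omega
    · rw [dn_ge h1]
      exact mono (by omega)
  · induction c, hc using Nat.le_induction with
    | base => rw [syl3]; omega
    | succ c hc ih =>
      obtain ⟨h1, h2⟩ := ih
      have h3 := two_mul_le c
      omega

end G6
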