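import Pool.Agent.G6.St

/-!
P12R: arithmetic
-/

namespace G6

open Finset MldGap

noncomputable section

theorem t_P12R : Stmt_P12R := by
  intro L M a b e δ hL hP hb hM h1 ha
  by_contra hcon
  push Not at hcon
  have hM2 : L ^ 2 + 2 ≤ M := by
    have := hcon.1
    have := hcon.2
    omega
  have hl : (6 : ℝ) ≤ L := by exact_mod_cast hL
  have hm : (L : ℝ) ^ 2 + 2 ≤ M := by exact_mod_cast hM2
  have hs := hP.sum
  have he := hP.e_nonneg
  generalize (L : ℝ) = l at *
  generalize (M : ℝ) = m at *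
  obtain ⟨ε, hε⟩ : ∃ ε, ε = 1 / (l + 1) - a := ⟨_, rfl⟩
  rw [← hε] at ha
  have hl1 : (0 : ℝ) < l + 1 := by linarith
  have hl0 : (0 : ℝ) < l := by linarith
  have ha' : a = 1 / (l + 1) - ε := by linarith
  have hm0 : 0 < m := by nlinarith
  obtain ⟨K, hK⟩ : ∃ K, K = l * (l + 1) := ⟨_, rfl⟩
  rw [← hK] at hb h1 ha
  have hK0 : 0 < K := by rw [hK]; positivity
  have hε1 : 1 ≤ ε * ((l + 1) * ((m + 1) * K + 1)) := by
    rw [ha'] at ha
    have h2 := mul_le_mul_of_nonneg_left ha hl1.le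
    have h3 : (l + 1) * (1 / (l + 1) - ε) = 1 - (l + 1) * ε := by field_simp
    rw [h3] at h2
    linarith
  have hb' : b ≤ 1 / (K + 1) := by
    rw [le_div_iff₀ (by linarith)]
    exact hb
  have hδ : ε ≤ δ - 1 / (K * (K + 1)) := by
    have h2 : 1 / l - 1 / (l + 1) = 1 / K := by
      rw [hK]
      field_simp
      ring
    have h3 : 1 / K - 1 / (K + 1) = 1 / (K * (K + 1)) := by
      field_simp
      ring
    linarith
  have h4 : ε * (m * K * (K + 1)) ≤ K + 1 - m := by
    have h5 := mul_le_mul_of_nonneg_right hδ (show 0 ≤ m * K * (K + 1) by positivity)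
    have h6 : (δ - 1 / (K * (K + 1))) * (m * K * (K + 1)) = m * (K * δ) * (K + 1) - m := by
      field_simp
    have h7 : m * (K * δ) * (K + 1) ≤ 1 * (K + 1) := mul_le_mul_of_nonneg_right h1 (by linarith)
    linarith
  have hX : 0 < (l + 1) * ((m + 1) * K + 1) := by positivity
  have h8 : m * K * (K + 1) ≤ (K + 1 - m) * ((l + 1) * ((m + 1) * K + 1)) := by
    have h9 := mul_le_mul_of_nonneg_right h4 hX.le
    have h10 := mul_le_mul_of_nonneg_left hε1 (show 0 ≤ m * K * (K + 1) by positivity)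
    linarith
  have h11 : (K + 1 - m) * ((l + 1) * ((m + 1) * K + 1)) ≤
      (l - 1) * ((l + 1) * ((m + 1) * K + 1)) := by
    refine mul_le_mul_of_nonneg_right ?_ hX.le
    rw [hK]
    nlinarith
  have h12 : (l + 1) * (l * m * (K + 1)) ≤ (l + 1) * ((l - 1) * ((m + 1) * K + 1)) := by
    have h13 : m * K * (K + 1) = (l + 1) * (l * m * (K + 1)) := by
      rw [hK]
      ring
    rw [← h13]
    linarith
  have h14 := le_of_mul_le_mul_left h12 hl1
  have h15 : (l ^ 2 + 2) * (K + l) ≤ m * (K + l) :=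
    mul_le_mul_of_nonneg_right hm (by linarith)
  have h16 : l * K + l < (l ^ 2 + 2) * (K + l) := by
    have : l * K ≤ l ^ 2 * K := by nlinarith
    nlinarith
  nlinarith

end

end G6
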