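import Pool.Agent.G6.StB

/-!
RDA: the reduction to the base cases, all dimensions.
-/

namespace G6

open MldGap
open MldX (freeGap)

noncomputable section

namespace RDA

lemma syl_mono : Monotone sylvester := by
  refine monotone_nat_of_le_succ fun k => ?_
  have h := two_le_sylvester k
  have h1 : sylvester k * 2 ≤ sylvester k ^ 2 := by nlinarith
  show sylvester k ≤ sylvester k ^ 2 - sylvester k + 1
  omega

lemma fg_pos (d : ℕ) : 1 ≤ freeGap d := by
  cases d with
  | zero => exact le_rfl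
  | succ k =>
    unfold freeGap
    have h := two_le_sylvester k
    exact Nat.mul_pos (by omega) (by positivity)

lemma fg_mono : Monotone freeGap := by
  refine monotone_nat_of_le_succ fun k => ?_
  cases k with
  | zero => exact fg_pos 1
  | succ k =>
    have h : sylvester k - 1 ≤ sylvester (k + 1) - 1 :=
      Nat.sub_le_sub_right (syl_mono (Nat.le_succ k)) 1
    show (sylvester k - 1) * ((sylvester k - 1) ^ 3 + (sylvester k - 1) ^ 2 + 1) ≤
      (sylvester (k + 1) - 1) * ((sylvester (k + 1) - 1) ^ 3 + (sylvester (k + 1) - 1) ^ 2 + 1)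
    gcongr

lemma fg_three {d : ℕ} (hd : 1 ≤ d) : 3 ≤ freeGap d := fg_mono hd

lemma inner (hb : ∀ l d : ℕ, 1 ≤ d → 1 ≤ l → l ≤ d → G5.Base (l + d) l (freeGap d)) {m l : ℕ}
    (hl : 1 ≤ l) (hm : l ≤ m) {x : Fin m → ℝ} (hx : G5.CPt l x) (h1 : ∀ i, x i < 1) :
    ∑ i, x i ≤ (l : ℝ) - 1 / (freeGap (m - l) : ℝ) := by
  have hh := G5.RED.half hx h1
  obtain ⟨d, rfl⟩ : ∃ d, m = l + d := ⟨m - l, by omega⟩
  rw [Nat.add_sub_cancel_left]
  rcases Nat.eq_zero_or_pos d with rfl | hd
  · rw [show freeGap 0 = 1 from rfl]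
    rcases Nat.lt_or_ge l 2 with h2 | h2
    · obtain rfl : l = 1 := by omega
      exfalso
      have h0 : (0 : ℕ) < 1 + 0 := by omega
      have h3 := hx.refl ⟨0, h0⟩ 1 fun j hj => absurd (Fin.ext (by have := j.2; omega)) hj
      rw [Int.cast_one, one_mul, Int.fract_eq_self.2 ⟨(hx.pos _).le, h1 _⟩] at h3
      exact absurd h3 (hx.pos _).ne'
    · have h3 : (2 : ℝ) ≤ l := by exact_mod_cast h2
      push_cast at hh ⊢
      linarith
  · rcases Nat.lt_or_ge d l with h2 | h2
    · have h3 : (d : ℝ) + 1 ≤ l := by exact_mod_cast h2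
      have h4 : (3 : ℝ) ≤ freeGap d := by exact_mod_cast fg_three hd
      have h5 : 1 / (freeGap d : ℝ) ≤ 1 / 3 := one_div_le_one_div_of_le (by norm_num) h4
      push_cast at hh
      linarith
    · exact hb l d hd hl h2 x hx h1

lemma key (hb : ∀ l d : ℕ, 1 ≤ d → 1 ≤ l → l ≤ d → G5.Base (l + d) l (freeGap d)) :
    ∀ l m : ℕ, 1 ≤ l → l ≤ m →
    ∀ x : Fin m → ℝ, G5.CPt l x → ∑ i, x i ≤ (l : ℝ) - 1 / (freeGap (m - l) : ℝ) := by
  intro l
  induction l with
  | zero => intro m h; omega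
  | succ l ih =>
    intro m hl hm x hx
    by_cases h1 : ∀ i, x i < 1
    · exact inner hb hl hm hx h1
    · push Not at h1
      obtain ⟨i, hi⟩ := h1
      have hi1 : x i = 1 := le_antisymm (hx.le i) hi
      obtain ⟨m', rfl⟩ : ∃ m', m = m' + 1 := ⟨m - 1, by omega⟩
      have hy := G5.RED.remove hx hi1
      have hs : ∑ j, x j = 1 + ∑ j, x (i.succAbove j) := by
        rw [Fin.sum_univ_succAbove x i, hi1]
      rcases Nat.eq_zero_or_pos l with rfl | hl'
      · exfalso
        have h2 := hy.lt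
        have h3 : 0 ≤ ∑ j, x (i.succAbove j) := Finset.sum_nonneg fun j _ => (hx.pos _).le
        push_cast at h2
        linarith
      · have h2 := ih m' hl' (by omega) _ hy
        have e : m' + 1 - (l + 1) = m' - l := by omega
        rw [hs, e]
        push_cast
        linarith

end RDA

theorem t_RDA : Stmt_RDA := by
  intro hb n l hl m hm x hx
  have hp : (1 : ℝ) ≤ (freeGap (n - l) : ℝ) := by exact_mod_cast RDA.fg_pos (n - l)
  rcases Nat.lt_or_ge m l with h1 | h1
  · have h2 := G5.RED.sum_le hx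
    have h3 : (m : ℝ) + 1 ≤ l := by exact_mod_cast h1
    have h4 : 1 / (freeGap (n - l) : ℝ) ≤ 1 := by
      rw [div_le_one (by linarith)]
      exact hp
    linarith
  · have h2 := RDA.key hb l m hl h1 x hx
    have h3 : (freeGap (m - l) : ℝ) ≤ (freeGap (n - l) : ℝ) := by
      exact_mod_cast RDA.fg_mono (by omega : m - l ≤ n - l)
    have h5 : (1 : ℝ) ≤ (freeGap (m - l) : ℝ) := by exact_mod_cast RDA.fg_pos (m - l)
    have h4 : 1 / (freeGap (n - l) : ℝ) ≤ 1 / (freeGap (m - l) : ℝ) :=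
      one_div_le_one_div_of_le (lt_of_lt_of_le one_pos h5) h3
    linarith

end

end G6
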