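import Pool.Agent.MldGap.Level
import Pool.Agent.MldGap.Core

/-!
# Sharp gaps without boundary at closed points, in all dimensions: statements

THEOREM. For `2 ≤ n`, `1 ≤ l ≤ n` the number `l - 1 / freeGap (n - l)` is the largest minimal log
discrepancy `< l` of toric singularities (closed points) and of quotients `ℂⁿ / G` without boundary.
`Pool.Agent.G5` has the geometric part, the examples, and the arithmetic for `n - l ≤ 3` (certificates). Here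
the arithmetic for `d = n - l ≥ 4`.

Notation. `s₀, s₁, … = 2, 3, 7, 43, …` (`sylvester`), `c = d - 1 ≥ 3`, `L = s_c - 1 = s₀ ⋯ s_(c-1) ≥ 42`,
`K = L (L + 1) = s_(c+1) - 1`, `E = K (K + 1) = s_(c+2) - 1`, `H = L (L³ + L² + 1) = freeGap d`. We have to
show for `m = h + c + 2` coordinates `x i < 1` (level `l = h + 1`, `h ≤ c`), that
`δ := h + 1 - ∑ x i ≥ 1 / H`. Suppose `δ < 1 / H`.

First part: stability of the product inequality: `x i = 1 / dn i - ε i`, `0 ≤ ε i` small for all but the last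
two coordinates `a, b` (`dn = 1` (`h` times), then `2, 3, 7, …`). Second part: `(a, b)` solves a plane
problem with the parameter `L` and with the slack `e = ∑ ε i` (the structure `Plane`); this forces `e = 0`
and one of three explicit families, all of which have a reflection.

All statements are independent (they take the others as hypotheses if they say so).
-/

namespace G6

open Finset MldGap

noncomputable section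

/-- The representative of `t` modulo one in `(0, 1]`. -/
def thr (t : ℝ) : ℝ := t - ⌈t⌉ + 1

theorem thr_pos (t : ℝ) : 0 < thr t := by
  unfold thr
  have := Int.ceil_lt_add_one t
  linarith

theorem thr_le_one (t : ℝ) : thr t ≤ 1 := by
  unfold thr
  have := Int.le_ceil t
  linarith

/-- A positive representative is an upper bound. -/
theorem thr_le {t y : ℝ} (z : ℤ) (hy : 0 < y) (h : t = y + z) : thr t ≤ y := by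
  unfold thr
  have h1 : z + 1 ≤ ⌈t⌉ := by
    rw [Int.add_one_le_iff, Int.lt_ceil]
    linarith
  have h2 : ((z : ℝ) + 1) ≤ (⌈t⌉ : ℝ) := by exact_mod_cast h1
  linarith

theorem thr_eq {t y : ℝ} (z : ℤ) (hy : 0 < y) (hy1 : y ≤ 1) (h : t = y + z) : thr t = y := by
  unfold thr
  have h1 : ⌈t⌉ = z + 1 := by
    rw [Int.ceil_eq_iff]
    push_cast
    constructor <;> linarith
  rw [h1]
  push_cast
  linarith

/-- The arithmetic conditions (a copy of `G5.CPt` for families indexed by `ℕ`, sorted, all `< 1`):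
`m` coordinates, level `h + 1`. -/
structure SPt (m h : ℕ) (x : ℕ → ℝ) : Prop where
  pos : ∀ i < m, 0 < x i
  lt_one : ∀ i < m, x i < 1
  anti : ∀ i j, i ≤ j → j < m → x j ≤ x i
  lt : ∑ i ∈ range m, x i < h + 1
  min : ∀ k : ℤ, ∑ i ∈ range m, x i ≤ ∑ i ∈ range m, thr (k * x i)
  refl : ∀ i < m, ∀ k : ℤ, (∀ j < m, j ≠ i → Int.fract (k * x j) = 0) → Int.fract (k * x i) = 0

/-- `1` (`h` times), then `2, 3, 7, 43, …`. -/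
def dn (h i : ℕ) : ℕ := if i < h then 1 else sylvester (i - h)

/-- The deviation. -/
def ep (h : ℕ) (x : ℕ → ℝ) (i : ℕ) : ℝ := 1 / (dn h i : ℝ) - x i

/-- `L = s_c - 1`. -/
def LL (c : ℕ) : ℕ := sylvester c - 1

/-- The number `H = L (L³ + L² + 1)`. -/
def HH (L : ℕ) : ℕ := L * (L ^ 3 + L ^ 2 + 1)

/-- `δ < 1 / H`. -/
def Small (h c : ℕ) (x : ℕ → ℝ) : Prop :=
  ((h : ℝ) + 1 - ∑ i ∈ range (h + c + 2), x i) * (HH (LL c) : ℝ) < 1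

/-- The function `Q² / (1 + Q)`. -/
def gg (Q : ℝ) : ℝ := Q ^ 2 / (1 + Q)

/-! ## First part: stability -/

/-- DNS: sums and products of `dn`. PROOF. As `MldGap.sum_inv_den`, `sum_inv_sylvester` (in
`MldGap/Level.lean`) and induction with `sylvester_cast`; `s_i ∣ s_j - 1` for `i < j` (induction,
`s_(j+1) - 1 = s_j (s_j - 1)`). Last clause: `s₃ = 43`, and `s_(c+1) ≥ 2 s_c ≥ s_c + 8`. -/
def Stmt_DNS : Prop :=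
  (∀ h j : ℕ, ∑ i ∈ range (h + j), 1 / (dn h i : ℝ) = h + 1 - 1 / ((sylvester j : ℝ) - 1)) ∧
  (∀ h j : ℕ, ∏ i ∈ range (h + j), 1 / (dn h i : ℝ) = 1 / ((sylvester j : ℝ) - 1)) ∧
  (∀ h j i : ℕ, i < h + j → dn h i ∣ sylvester j - 1) ∧
  (∀ h i : ℕ, 1 ≤ dn h i) ∧
  (∀ h j i : ℕ, i ≤ h + j → dn h i ≤ sylvester j) ∧
  (∀ i j : ℕ, i ≤ j → sylvester i ≤ sylvester j) ∧
  (∀ c : ℕ, 3 ≤ c → 43 ≤ sylvester c ∧ 8 * c + 8 ≤ sylvester c)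

/-- PSI: the product inequality. PROOF. `MldGap.subset_ineq` for `ι = Fin m`, `x i = x ↑i`, `γ = 1`,
`p = h + 1`, `K = {i | ↑i < k}`. Its hypothesis `H`: let `2 ≤ k`, `y i < k x i`, `∑ y i = (k - 1) (h + 1)`.
Then `thr (k x i) ≤ k x i - y i` (`thr_le` with `z = y i`), so `∑ x i ≤ ∑ thr (k x i) ≤
k ∑ x i - (k - 1) (h + 1)` by `min`, so `(k - 1) (h + 1) ≤ (k - 1) ∑ x i`, contradiction to `lt`. -/
def Stmt_PSI : Prop :=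
  ∀ (m h : ℕ) (x : ℕ → ℝ), SPt m h x →
    ∀ k ≤ m, ∏ i ∈ range k, x i ≤ (h : ℝ) + 1 - ∑ i ∈ range k, x i

/-- CEX: the extremal lemma with caps. PROOF. Exactly as `MldGap.sum_le_gapSeq` (`MldGap/Seq.lean`; lemma
`weighted_nonneg` there). Strong induction on `k`: suppose the claim for all smaller numbers and
`∑ i < k + 1, x i > ∑ i < k + 1, y i`. Then `x k > y k` (induction for `k`), so the second alternative of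
`hcap` holds. For all `j ≤ k` the tail `∑ j ≤ i ≤ k, (x i - y i)` is positive, `x` is antitone and positive,
so `∑ (x i - y i) / x i ≥ 0`, `∏ y i / x i ≤ exp ∑ (y i / x i - 1) ≤ 1`, so `∏ y i ≤ ∏ x i`; but
`∏ x i ≤ a - ∑ x i < a - ∑ y i = ∏ y i`. -/
def Stmt_CEX : Prop :=
  ∀ (n : ℕ) (a : ℝ) (x y : ℕ → ℝ), (∀ i < n, 0 < x i) → (∀ i, i + 1 < n → x (i + 1) ≤ x i) →
    (∀ i < n, 0 < y i) → (∀ k ≤ n, ∏ i ∈ range k, x i ≤ a - ∑ i ∈ range k, x i) →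
    (∀ k < n, x k ≤ y k ∨ ∏ i ∈ range (k + 1), y i = a - ∑ i ∈ range (k + 1), y i) →
    ∀ k ≤ n, ∑ i ∈ range k, x i ≤ ∑ i ∈ range k, y i

/-- TAI: the greedy tail. PROOF. Let `P = ∏ i < n, y i > 0`, `R = a - ∑ i < n, y i > 0`, `Q j = gg^[j] (P R /
(1 + P))`. Let `z i = y i` for `i < n`, `z n = R / (1 + P)`, `z (n + 1 + j) = Q j / (1 + Q j)`. Then
`∏ i < n + 1 + j, z i = Q j = a - ∑ i < n + 1 + j, z i` by induction on `j` (`j = 0`: `P R / (1 + P) =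
R - R / (1 + P)`; `Q j * (Q j / (1 + Q j)) = gg (Q j) = Q j - Q j / (1 + Q j)`; `Function.iterate_succ_apply'`).
CEX for `n + r + 1`, `z`, `k = n + r + 1`: `∑ i < n + r + 1, x i ≤ a - Q r`. -/
def Stmt_TAI : Prop :=
  Stmt_CEX → ∀ (n r : ℕ) (a : ℝ) (x y : ℕ → ℝ), (∀ i < n + r + 1, 0 < x i) →
    (∀ i, i + 1 < n + r + 1 → x (i + 1) ≤ x i) → (∀ i < n, 0 < y i ∧ x i ≤ y i) →
    (∀ k ≤ n + r + 1, ∏ i ∈ range k, x i ≤ a - ∑ i ∈ range k, x i) →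
    0 < a - ∑ i ∈ range n, y i →
    gg^[r] ((∏ i ∈ range n, y i) * (a - ∑ i ∈ range n, y i) / (1 + ∏ i ∈ range n, y i)) ≤
      a - ∑ i ∈ range (n + r + 1), x i

/-- GRO: growth. PROOF. Induction on `r`. `gg` is increasing on the positive numbers. One step: let
`A = s_j - 1 ≥ 6`, `Q ≥ (1 + x) / A`; then `gg Q ≥ gg ((1 + x) / A) = (1 + x)² / (A (A + 1 + x))`, and
`(1 + x)² / (A (A + 1 + x)) ≥ (1 + (13/7) x) / (A (A + 1))` iff `(1 + x)² (A + 1) ≥ (1 + (13/7) x) (A + 1 + x)`,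
i.e. `(A + 1) (x / 7 + x²) ≥ x + (13/7) x²`, true since `A + 1 ≥ 7`. `s_(j+1) - 1 = A (A + 1)`. For the
iteration `(13/7)^(r+1) x = (13/7)^r ((13/7) x)` (`Function.iterate_succ_apply`). `s_j ≥ 7` for `j ≥ 2`. -/
def Stmt_GRO : Prop :=
  ∀ (j r : ℕ) (x Q : ℝ), 2 ≤ j → 0 ≤ x → (1 + x) / ((sylvester j : ℝ) - 1) ≤ Q →
    (1 + (13 / 7) ^ r * x) / ((sylvester (j + r) : ℝ) - 1) ≤ gg^[r] Q

/-- THR: the comparison of `E` and `H`. PROOF. `s_(c+2) - 1 = K (K + 1) = E`, `K = L (L + 1)`, so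
`E / H = (L⁴ + 2 L³ + 2 L² + L) / (L⁴ + L³ + L) = 1 + (L² + 2 L) / (L³ + L² + 1) ≤ 1 + (L + 1) / L²`
(`L⁴ + 2 L³ ≤ (L + 1) (L³ + L² + 1) = L⁴ + 2 L³ + L² + L + 1`) and `(L + 1) / L² ≤ (21/20) / (L + 1)`
(`20 (L + 1)² ≤ 21 L²` for `L ≥ 42`: `L² - 40 L - 20 ≥ 0`). -/
def Stmt_THR : Prop :=
  ∀ (c : ℕ) (w : ℝ), 3 ≤ c → 1 + (21 / 20) / (sylvester c : ℝ) ≤ w →
    1 ≤ w / ((sylvester (c + 2) : ℝ) - 1) * (HH (LL c) : ℝ)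

/-- HLF: the first coordinate after the ones is `≤ 1/2`. PROOF. Suppose `x h > 1/2`. Then `x i > 1/2` for
`i ≤ h` (`anti`), `thr (2 x i) ≤ 2 x i - 1` for `i ≤ h` (`thr_le`, `z = 1`) and `≤ 2 x i` for the others;
`min` with `k = 2` gives `∑ x i ≤ 2 ∑ x i - (h + 1)`, contradiction to `lt`. -/
def Stmt_HLF : Prop := ∀ (m h : ℕ) (x : ℕ → ℝ), h < m → SPt m h x → x h ≤ 1 / 2

/-- STG: one stage. PROOF. Let `A = s_j - 1`, `k = A + 1 = s_j`, `u = ∑ i < h + j, ep i`. For `i < h + j`: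
`dn i ∣ A`, `k x i = A / dn i + (x i - A ep i)` (`x i = 1 / dn i - ep i`), and `x i - A ep i > 0` since
`(A + 1) ep i dn i < 1`; so `thr (k x i) ≤ x i - A ep i` (`thr_le` with `z = A / dn i`). Suppose
`x (h + j) > 1 / s_j`. Then `thr (k x (h + j)) ≤ k x (h + j) - 1` and `thr (k x i) ≤ k x i` for `i > h + j`. With
`T = ∑ h + j ≤ i < m, x i` `min` gives `∑ i < h + j, x i + T ≤ ∑ i < h + j, x i - A u + k T - 1`, i.e.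
`1 + A u ≤ A T`. But `∑ i < h + j, x i = h + 1 - 1 / A - u` (DNS) and `lt` give `T < 1 / A + u`, so
`A T < 1 + A u`, contradiction. -/
def Stmt_STG : Prop :=
  Stmt_DNS → ∀ (m h j : ℕ) (x : ℕ → ℝ), 1 ≤ j → h + j < m → SPt m h x →
    (∀ i < h + j, 0 ≤ ep h x i) → (∀ i < h + j, ep h x i * dn h i * sylvester j < 1) →
    x (h + j) ≤ 1 / (sylvester j : ℝ)

/-- CLO: the ones. PROOF. Let `θ = 1 / s_c ≤ 1/43` and suppose `x (h - 1) ≤ 1 - θ`. TAI with `n = h + 1`,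
`r = c`, `a = h + 1`, `y i = 1` for `i < h - 1`, `y (h - 1) = 1 - θ`, `y h = 1/2` (`x h ≤ 1/2`):
`P = (1 - θ) / 2`, `R = 1/2 + θ`, `Q = P R / (1 + P) = (1 - θ) (1 + 2 θ) / (2 (3 - θ))`,
`6 Q = (1 - θ) (1 + 2 θ) / (1 - θ / 3) ≥ 1 + θ - 2 θ² ≥ 1 + (9/10) θ` (`θ ≤ 1/43`). GRO with `j = 2`
(`s₂ - 1 = 6`), `r = c ≥ 3`: `(13/7)^c ≥ (13/7)³ > 6`, so `δ ≥ (1 + 6 (9/10) θ) / (s_(c+2) - 1)`, and THR
gives `δ H ≥ 1`, contradiction to `Small`. -/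
def Stmt_CLO : Prop :=
  Stmt_CEX → Stmt_TAI → Stmt_GRO → Stmt_THR → Stmt_DNS → Stmt_PSI →
    ∀ (c h : ℕ) (x : ℕ → ℝ), 3 ≤ c → 1 ≤ h → SPt (h + c + 2) h x → Small h c x →
      x h ≤ 1 / 2 → 1 - 1 / (sylvester c : ℝ) < x (h - 1)

/-- CLA: the coordinate `1/2`. PROOF. Let `θ = 1 / s_c ≤ 1/43` and suppose `x h ≤ (1 - θ) / 2`. TAI with
`n = h + 1`, `r = c`, `y i = 1` (`i < h`), `y h = (1 - θ) / 2`: `P = (1 - θ) / 2`, `R = 1 - P = (1 + θ) / 2`,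
`6 Q = 6 P R / (1 + P) = (1 - θ²) / (1 - θ / 3) ≥ (1 - θ²) (1 + θ / 3) ≥ 1 + (3/10) θ` (`θ ≤ 1/43`:
`1/3 - θ - θ²/3 ≥ 3/10`). GRO with `j = 2`, `r = c`: `(13/7)³ (3/10) > 1.9 > 21/20`; THR. -/
def Stmt_CLA : Prop :=
  Stmt_CEX → Stmt_TAI → Stmt_GRO → Stmt_THR → Stmt_DNS → Stmt_PSI →
    ∀ (c h : ℕ) (x : ℕ → ℝ), 3 ≤ c → SPt (h + c + 2) h x → Small h c x →
      ep h x h * dn h h * sylvester c < 1

/-- CLB: the coordinates `1/3, 1/7, …` up to `1 / s_(c-1)`. PROOF. Let `θ = 1 / s_c`, `A = s_j - 1 ≥ 2`,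
`B = s_(j+1) - 1 = A s_j`, and suppose the contrary, `x (h + j) ≤ (1 - θ) / s_j`. TAI with `n = h + j + 1`,
`r = c - j ≥ 1`, `y i = 1 / dn i` (`i < h + j`), `y (h + j) = (1 - θ) / s_j`: `P = (1 - θ) / B`,
`R = 1 / A - (1 - θ) / s_j = 1 / B + θ / s_j = (1 + A θ) / B`, `Q = P R / (1 + P)`, `s_(j+2) - 1 = B (B + 1)`
and `B (B + 1) Q = (1 - θ) (1 + A θ) (B + 1) / (B + 1 - θ) ≥ (1 - θ) (1 + A θ) = 1 + (A - 1 - A θ) θ ≥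
1 + (9/10) θ` (`A - 1 - A θ ≥ 1 - 2 θ ≥ 9/10` since `A ≥ 2`). GRO with `j + 2`, `r = c - j ≥ 1`:
`(13/7) (9/10) > 21/20`; THR (`j + 2 + (c - j) = c + 2`). -/
def Stmt_CLB : Prop :=
  Stmt_CEX → Stmt_TAI → Stmt_GRO → Stmt_THR → Stmt_DNS → Stmt_PSI →
    ∀ (c h j : ℕ) (x : ℕ → ℝ), 3 ≤ c → 1 ≤ j → j < c → SPt (h + c + 2) h x → Small h c x →
      (∀ i < h + j, 0 ≤ ep h x i) → ep h x (h + j) * dn h (h + j) * sylvester c < 1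

/-- CLC: the coordinate `1 / s_c`. PROOF. Suppose `x (h + c) ≤ (3/4) / s_c`. TAI with `n = h + c + 1`,
`r = 0`, `y i = 1 / dn i` (`i < h + c`), `y (h + c) = (3/4) / (L + 1)`, `L = s_c - 1`, `K = L (L + 1)`:
`P = (3/4) / K`, `R = 1 / L - (3/4) / (L + 1) = (1 + L / 4) / K`, `K (K + 1) P R / (1 + P) ≥
(3/4) (1 + L / 4) ≥ 2` (`1 + P ≤ 1 + 1 / K`), `s_(c+2) - 1 = K (K + 1)`; THR. -/
def Stmt_CLC : Prop :=
  Stmt_CEX → Stmt_TAI → Stmt_THR → Stmt_DNS → Stmt_PSI →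
    ∀ (c h : ℕ) (x : ℕ → ℝ), 3 ≤ c → SPt (h + c + 2) h x → Small h c x →
      (∀ i < h + c, 0 ≤ ep h x i) → ep h x (h + c) * sylvester c < 1 / 4

/-- ALL: all stages. PROOF. `x i ≤ 1 = 1 / dn i` for `i < h`. HLF: `x h ≤ 1/2`. CLO (if `h ≥ 1`) and
`anti`: `ep i < 1 / s_c`, `dn i = 1` for `i < h`; CLA for `i = h`. Induction on `j`, `1 ≤ j ≤ c`: if `0 ≤ ep i`
and `ep i dn i s_c < 1` for all `i < h + j`, then STG (`s_j ≤ s_c`) gives `0 ≤ ep (h + j)`, and, if `j < c`, CLB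
gives `ep (h + j) dn s_c < 1`. -/
def Stmt_ALL : Prop :=
  Stmt_CEX → Stmt_TAI → Stmt_GRO → Stmt_THR → Stmt_DNS → Stmt_PSI → Stmt_HLF → Stmt_STG →
    Stmt_CLO → Stmt_CLA → Stmt_CLB →
    ∀ (c h : ℕ) (x : ℕ → ℝ), 3 ≤ c → SPt (h + c + 2) h x → Small h c x →
      (∀ i < h + c + 1, 0 ≤ ep h x i) ∧ (∀ i < h + c, ep h x i * dn h i * sylvester c < 1)

/-- UBD: the sum of the deviations. PROOF. Let `n = h + c + 1`, `u = ∑ i < n, ep i ≥ 0`, `P = ∏ i < n, x i`,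
`R = h + 1 - ∑ i < n, x i = 1 / K + u` (DNS), `y = x n` the last coordinate, `δ = R - y`. PSI for `k = n + 1`:
`P y ≤ δ`, so `P (R - δ) ≤ δ`, `δ ≥ P R / (1 + P)`. `x i = (1 / dn i) (1 - dn i ep i)`, so
`P = (1 / K) ∏ (1 - dn i ep i)`, `1 / K ≥ P ≥ (1 / K) (1 - S)`, `S = ∑ dn i ep i` (`0 ≤ dn i ep i ≤ 1` since
`0 < x i`; `Finset.prod_one_sub_le`-type induction). So `E δ ≥ (1 - S) (1 + K u)` if `S ≤ 1`
(`(K + 1) / (1 + P) ≥ K`), and `E δ < E / H ≤ 1 + (L + 1) / L²`. (1) Crude: `S ≤ (h + c) / s_c + 1/4 ≤ 1/2`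
(`8 (h + c) ≤ 16 c ≤ 2 s_c`; CLC), so `1 + K u < 2 (1 + (L + 1) / L²)`, `K u < 1.1`. (2) `S ≤ (L + 1) u`, so
`f (K u) < 1 + (L + 1) / L²` for `f (v) = (1 - v / L) (1 + v) = 1 + v (1 - 1 / L) - v² / L`. Let
`v₁ = (L + 3) / L²`. `f (v₁) ≥ 1 + (L + 1) / L²`: `(L + 3) (L³ - L² - L - 3) ≥ L⁴ + L³`, i.e.
`L³ ≥ 4 L² + 6 L + 9`. `f` is increasing for `v ≤ (L - 1) / 2`, so `K u < v₁`. -/
def Stmt_UBD : Prop :=
  Stmt_DNS → Stmt_PSI →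
    ∀ (c h : ℕ) (x : ℕ → ℝ), 3 ≤ c → h ≤ c → SPt (h + c + 2) h x → Small h c x →
      (∀ i < h + c + 1, 0 ≤ ep h x i) → (∀ i < h + c, ep h x i * dn h i * sylvester c < 1) →
      ep h x (h + c) * sylvester c < 1 / 4 →
      (∑ i ∈ range (h + c + 1), ep h x i) * ((LL c : ℝ) ^ 3 * (LL c + 1)) ≤ LL c + 3

/-! ## Second part: the plane problem -/

/-- The plane problem with the parameter `L` and the slack `e`. -/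
structure Plane (L : ℕ) (a b e δ : ℝ) : Prop where
  a_pos : 0 < a
  b_pos : 0 < b
  e_nonneg : 0 ≤ e
  δ_pos : 0 < δ
  sum : a + b = 1 / L + e - δ
  small : δ * (L * ((L : ℝ) ^ 3 + L ^ 2 + 1)) < 1
  a_le : a * (L + 1) ≤ 1
  ps : (1 / ((L : ℝ) + 1) - a + e) * ((L : ℝ) ^ 3 * (L + 1)) ≤ L + 3
  min : ∀ k : ℤ, (L : ℤ) ∣ k - 1 → ((k : ℝ) - 1) * e ≤ 2 / L →
    a + b + ((k : ℝ) - 1) * e ≤ thr (k * a) + thr (k * b)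

/-- PLN: from the stability to the plane problem. PROOF. `L = s_c - 1`, `a = x (h + c)`, `b = x (h + c + 1)`,
`e = ∑ i < h + c, ep i`, `δ = h + 1 - ∑ x i`. `sum`: `∑ i < h + c, x i = h + 1 - 1 / L - e` (DNS). `a_le`:
`0 ≤ ep (h + c)`, `dn h (h + c) = s_c = L + 1`. `ps`: `1 / (L + 1) - a = ep (h + c)`, so the factor is
`∑ i < h + c + 1, ep i`. `min`: let `k = 1 + L z`, `i < h + c`; `dn i ∣ L`,
`k x i = (L / dn i) z + (x i - (k - 1) ep i)`, and `x i - (k - 1) ep i > 0`: clear if `k ≤ 1`; if `k > 1`, then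
`(k - 1) ep i ≤ (k - 1) e ≤ 2 / L`, and `x i = (1 - dn i ep i) / dn i > (1 - 1 / s_c) / dn i =
(L / dn i) / (L + 1) ≥ 6 / (L + 1) > 2 / L`, since `dn i` divides `L` and `L / dn i ≥ 6`: `dn i ≤ s_(c-1)`,
`L = s_(c-1) (s_(c-1) - 1)`, `s_(c-1) ≥ 7`. So `thr (k x i) ≤ x i - (k - 1) ep i` (`thr_le`); sum over
`i < h + c` and use `min` of `SPt`. -/
def Stmt_PLN : Prop :=
  Stmt_DNS →
    ∀ (c h : ℕ) (x : ℕ → ℝ), 3 ≤ c → SPt (h + c + 2) h x → Small h c x →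
      (∀ i < h + c + 1, 0 ≤ ep h x i) → (∀ i < h + c, ep h x i * dn h i * sylvester c < 1) →
      (∑ i ∈ range (h + c + 1), ep h x i) * ((LL c : ℝ) ^ 3 * (LL c + 1)) ≤ LL c + 3 →
      Plane (LL c) (x (h + c)) (x (h + c + 1)) (∑ i ∈ range (h + c), ep h x i)
        ((h : ℝ) + 1 - ∑ i ∈ range (h + c + 2), x i)

/-- PB1. PROOF. Put `ε = 1 / (L + 1) - a ≥ 0`. Suppose `b (L² + 1) > 1`, `k = 1 + L²`. `(k - 1) e ≤ 2 / L`: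
`L² e ≤ L² (L + 3) / (L³ (L + 1)) ≤ 2 / L`. `k a = (L - 1) + y`, `y = 2 / (L + 1) - (L² + 1) ε`
(`(L² + 1) / (L + 1) = L - 1 + 2 / (L + 1)`); `y > 0`: `(L² + 1) ε ≤ (L² + 1) (L + 3) / (L³ (L + 1))` (`ps`,
`e ≥ 0`) and `(L² + 1) (L + 3) < 2 L³`, i.e. `L³ > 3 L² + L + 3`. `k b = 1 + y'`, `y' = (L² + 1) b - 1 > 0`.
`min` and `thr_le`: `a + b + L² e ≤ y + y'`, i.e. (the integers cancel)
`L² e ≤ L² (a + b) - (L - 1) - 1 = L² (1 / L + e - δ) - L = L² e - L² δ`, contradiction. -/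
def Stmt_PB1 : Prop :=
  ∀ (L : ℕ) (a b e δ : ℝ), 6 ≤ L → Plane L a b e δ → b * ((L : ℝ) ^ 2 + 1) ≤ 1

/-- PC1. PROOF. `K = L (L + 1)`. Suppose `b (K + 1) > 1`, `k = 1 + K`; `(k - 1) e ≤ 2 / L` as
`K e ≤ K (L + 3) / (L³ (L + 1)) = (L + 3) / L² ≤ 2 / L`. `k a = L + y`, `y = (K + 1) a - L > 0`,
`k b = 1 + y'`, `y' > 0`. `min`: `K e ≤ K (a + b) - L - 1 = K (1 / L + e - δ) - (L + 1) = K e - K δ`,
contradiction. -/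
def Stmt_PC1 : Prop :=
  ∀ (L : ℕ) (a b e δ : ℝ), 6 ≤ L → Plane L a b e δ → (L : ℝ) < (L * (L + 1) + 1) * a →
    b * (L * (L + 1) + 1 : ℝ) ≤ 1

/-- P11. Here `K = L (L + 1)`, `ε = 1 / (L + 1) - a ≥ 0`. PROOF. `μ := 1 - K b`, `b = (1 - μ) / K`,
`ν := K (ε + e) ≥ 0`; `K δ = μ + ν` (`sum`: `a + b = 1 / (L + 1) - ε + (1 - μ) / K`). `b (K + 1) ≤ 1` gives
`μ ≥ 1 / (K + 1)`, so `b ≤ μ`; `μ ≤ K δ < (L + 1) / (L³ + L² + 1)`.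
(1) `(M + 1) μ ≥ 1 + b`. Otherwise let `k = 1 + (M + 1) K`. `(M + 1) K e ≤ 2 / L`: `K e ≤ K δ - μ ≤ 1 / M -
1 / (K + 1)`, so `(M + 1) K e ≤ (M + 1) (K + 1 - M) / (M (K + 1)) ≤ (L² + 1) (L + 1) / (L² (K + 1)) ≤ 2 / L` (if
`K + 1 - M < 0` clear). `K a = L - K ε`, so `k a = (M + 1) L + (a - (M + 1) K ε)`, positive by hypothesis;
`k b = b + (M + 1) (1 - μ) = M + (1 + b - (M + 1) μ)`, positive. `min`:
`a + b + (M + 1) K e ≤ a - (M + 1) K ε + 1 + b - (M + 1) μ`, so `(M + 1) K δ ≤ 1`, contradiction.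
(2) `φ := 1 - M μ ≥ M ν ≥ 0` (`M (μ + ν) ≤ 1`). Suppose `φ > 0`. `ζ := μ - b ≥ 0`; `t := ⌊ζ / φ⌋ + 1` (natural),
`ζ < t φ ≤ ζ + φ`. `φ < b`: (1) is `μ (K (M + 1) + 1) ≥ K + 1`, so `φ ≤ (K + 1 - M) / (K (M + 1) + 1) ≤
(L + 1) / (K (L² + 1)) = 1 / (L (L² + 1))`, and `b = (1 - μ) / K ≥ (1 - (L + 1) / (L³ + L² + 1)) / K`, which is
larger. `k = 1 + (t M + 1) K`: `k b = b + (t M + 1) (1 - μ) = (t M + 1 - t) + (t φ - ζ)` (as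
`(t M + 1) μ = t (1 - φ) + μ`), `t φ - ζ > 0`; `k a = (t M + 1) L + (a - (t M + 1) K ε)`. Bound:
`(t M + 1) ν ≤ t φ + ν ≤ ζ + φ + ν ≤ ζ + 2 φ ≤ (L + 1) / (L³ + L² + 1) + 2 / (K + 1)`, which is `< 1 / (L + 3) < a`
(`ε ≤ (L + 3) / (L³ (L + 1))`) and `≤ 2 / L`; so `a - (t M + 1) K ε > 0`, `(k - 1) e ≤ 2 / L`. `min`:
`a + b + (t M + 1) K e ≤ a - (t M + 1) K ε + t φ - ζ`, so `b ≤ t φ - ζ ≤ φ`, contradiction to `φ < b`.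
(3) So `φ = 0`, `M μ = 1`, `M ν ≤ 0`, `ν = 0`, `ε = 0`, `e = 0`. -/
def Stmt_P11 : Prop :=
  ∀ (L M : ℕ) (a b e δ : ℝ), 6 ≤ L → Plane L a b e δ → b * (L * (L + 1) + 1 : ℝ) ≤ 1 →
    L ^ 2 ≤ M → M * (L * (L + 1) * δ) ≤ 1 → 1 < (M + 1) * (L * (L + 1) * δ) →
    (M + 1) * (L * (L + 1) * (1 / ((L : ℝ) + 1) - a)) < a →
    e = 0 ∧ a * (L + 1) = 1 ∧ M * (1 - L * (L + 1) * b) = 1

/-- P12R: arithmetic. PROOF. `K = L (L + 1)`, `E = K (K + 1)`, `ε = 1 / (L + 1) - a`. `a = 1 / (L + 1) - ε ≤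
(M + 1) K ε`, so `ε ((M + 1) K + 1) (L + 1) ≥ 1`. `sum`: `δ = ε + e + (1 / K - b)`, `1 / K - b ≥ 1 / K - 1 / (K + 1) =
1 / E`; so `ε ≤ δ - 1 / E ≤ 1 / (M K) - 1 / (K (K + 1)) = (K + 1 - M) / (K M (K + 1))`. So
`K M (K + 1) ≤ (L + 1) ((M + 1) K + 1) (K + 1 - M)`, `L M (K + 1) ≤ ((M + 1) K + 1) (K + 1 - M)`. If
`M ≥ L² + 2`, then `K + 1 - M ≤ L - 1` and `L M (K + 1) - (L - 1) ((M + 1) K + 1) =
M K + L M + K + 1 - L K - L > 0`, contradiction. -/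
def Stmt_P12R : Prop :=
  ∀ (L M : ℕ) (a b e δ : ℝ), 6 ≤ L → Plane L a b e δ → b * (L * (L + 1) + 1 : ℝ) ≤ 1 →
    L ^ 2 ≤ M → M * (L * (L + 1) * δ) ≤ 1 →
    a ≤ (M + 1) * (L * (L + 1) * (1 / ((L : ℝ) + 1) - a)) → M = L ^ 2 ∨ M = L ^ 2 + 1

/-- P12A. PROOF. `K, E, ε` as in P12R, `β := 1 / (K + 1) - b ≥ 0`, `W := β + ε + e = δ - 1 / E`,
`D₂ := L² (K + 1)`, `ω := 1 / (L + 1) - D₂ ε`. `W ≤ 1 / ((L² + 1) K) - 1 / E = L / ((L² + 1) E)`, so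
`D₂ W ≤ L² / ((L² + 1) (L + 1)) < 1 / (L + 1)`. `k = 1 - D₂`; `D₂ a = (L³ + L - 1) + ω` (`D₂ / (L + 1) = L³ + L - 1 +
1 / (L + 1)`), `D₂ b = L² - D₂ β`. `k a = -(L³ + L - 1) + (a - ω)`, `k b = - L² + (b + D₂ β)`; `a - ω > 0`: `ε ≥
1 / ((L + 1) ((L² + 2) K + 1))` as in P12R, so `(L + 1) ω ≤ 1 - D₂ / ((L² + 2) K + 1) = (L + 1)² / ((L² + 2) K + 1)
< 1 / 2`, and `a > 1 / (2 (L + 1))` (`ps`). `(k - 1) e = - D₂ e ≤ 2 / L`. `min`: `- D₂ e ≤ - ω + D₂ β`, so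
`ω ≤ D₂ (β + e)`, `1 / (L + 1) ≤ D₂ W`, contradiction. -/
def Stmt_P12A : Prop :=
  ∀ (L : ℕ) (a b e δ : ℝ), 6 ≤ L → Plane L a b e δ → b * (L * (L + 1) + 1 : ℝ) ≤ 1 →
    ((L : ℝ) ^ 2 + 1) * (L * (L + 1) * δ) ≤ 1 →
    a ≤ ((L : ℝ) ^ 2 + 2) * (L * (L + 1) * (1 / ((L : ℝ) + 1) - a)) → False

/-- P12B. PROOF. Notation of P12A (`K, E, ε, β ≥ 0, W = β + ε + e = δ - 1 / E, D₂, ω`; `D₂ a = (L³ + L - 1) + ω`,
`D₂ b = L² - D₂ β`). `Y := (L² + 1) K + 1 = L⁴ + L³ + L² + L + 1`; the hypothesis on `a` is `ε Y (L + 1) ≥ 1`.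
`δ < 1 / H`: `D₂ W < D₂ / H - D₂ / E = L (K + 1) / (L³ + L² + 1) - L / (L + 1) =
L² (L + 2) / ((L + 1) (L³ + L² + 1)) ≤ (1 / (L + 1)) (1 + 1 / L)` (`L³ (L + 2) ≤ (L + 1) (L³ + L² + 1)`).
So `ω ≥ - 1 / (L (L + 1))`, and `(L + 1) ω ≤ 1 - D₂ / Y = (L + 1) / Y`, `ω ≤ 1 / Y`. So `|ω| ≤ 1 / (L (L + 1)) < a`
(`a ≥ 1 / (L + 1) - (L + 3) / (L³ (L + 1))`).
`D₂ β < b`: `D₂ β ≤ D₂ W - D₂ ε < L² (L + 2) / ((L + 1) (L³ + L² + 1)) - L² (K + 1) / ((L + 1) Y) =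
L² (Y + L) / ((L + 1) (L³ + L² + 1) Y)`, `b = 1 / (K + 1) - β`, and `(D₂ + 1) β < 1 / (K + 1)` follows from
`(Y + L) (D₂ + 1) < (L + 1) (L³ + L² + 1) Y` (`D₂ + 1 = L⁴ + L³ + L² + 1`, `(L + 1) (L³ + L² + 1) =
L⁴ + 2 L³ + L² + L + 1`).
`k = 1 + D₂`: `k a = (L³ + L - 1) + (a + ω)`, `k b = L² + (b - D₂ β)`, both positive; `(k - 1) e = D₂ e ≤ D₂ W - D₂ ε
≤ b ≤ 2 / L`; `min`: `D₂ e ≤ ω - D₂ β`. `k = 1 - D₂`: `- D₂ e ≤ - ω + D₂ β`. So `ω = D₂ (β + e)`. Suppose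
`ω > 0`. `n := ⌊ε / ω⌋ + 1` (natural, `≥ 1`), `ε < n ω ≤ ε + ω`. `k = (L + 1) (1 + n D₂)`, `k - 1 = L + (L + 1) n D₂`,
divisible by `L` (`L ∣ D₂`). `(k - 1) e = L e + (L + 1) n D₂ e ≤ L e + (L + 1) n ω ≤ L e + (L + 1) (ε + ω) ≤ 2 / L`
(`ε, e ≤ W ≤ (1 + 1 / L) / (D₂ (L + 1))`, `ω ≤ 1 / Y`). `k a = (L + 1) (a + n ω) + integer = integer + 1 +
(L + 1) (n ω - ε)`, positive; `k b = integer + (L + 1) (b - n D₂ β)`, `n D₂ β ≤ n ω ≤ ε + ω < b`. `min`: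
`a + b + L e + (L + 1) n D₂ e ≤ (L + 1) (n ω - ε + b - n D₂ β) = (L + 1) (b - ε + n D₂ e)`, so
`a + b + L e ≤ (L + 1) (b - ε)`, i.e. (`a = 1 / (L + 1) - ε`) `1 / (L + 1) + L ε + L e ≤ L b`, but
`b = 1 / K - (δ - ε - e) < 1 / K + ε + e` (`sum`), contradiction. So `ω = 0`, `β = e = 0`. -/
def Stmt_P12B : Prop :=
  ∀ (L : ℕ) (a b e δ : ℝ), 6 ≤ L → Plane L a b e δ → b * (L * (L + 1) + 1 : ℝ) ≤ 1 →
    a ≤ ((L : ℝ) ^ 2 + 1) * (L * (L + 1) * (1 / ((L : ℝ) + 1) - a)) →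
    e = 0 ∧ b * (L * (L + 1) + 1 : ℝ) = 1 ∧
      (1 / ((L : ℝ) + 1) - a) * ((L + 1) * L ^ 2 * (L * (L + 1) + 1)) = 1

/-- P2A. PROOF. `φ := L² a - (L - 1)`, `ψ := 1 - L² b`, so `a = (L - 1 + φ) / L²`, `b = (1 - ψ) / L²`; `sum`:
`L² δ = ψ - φ + L² e`. `K = L (L + 1)`. `(K + 1) a ≤ L` is `(K + 1) φ ≤ 1` (`(K + 1) (L - 1) = L³ - 1`), `hb` is
`(L² + 1) ψ ≥ 1`; `small` gives `(ψ - φ) (L³ + L² + 1) ≤ (ψ - φ + L² e) (L³ + L² + 1) < L`. So `φ > 0`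
(`(L³ + L² + 1) / (L² + 1) > L`), and `e < δ < 1 / H` (`ψ > φ`, as `ψ ≥ 1 / (L² + 1) > 1 / (K + 1) ≥ φ`).
(D) For natural `q`, `1 ≤ q ≤ L`: `(L + 1 + q L²) φ ≤ 1` or `(L + 1 + q L²) ψ ≥ L + 1`. Otherwise
`k = 1 + L + q L²`, `(k - 1) e ≤ (L + L³) / H ≤ 2 / L`; `k a = (1 + q (L - 1)) + y`, `y = a + L a - 1 + q φ =
((L + 1 + q L²) φ - 1) / L² > 0`; `k b = q + y'`, `y' = (L + 1) b - q ψ = (L + 1 - (L + 1 + q L²) ψ) / L² > 0`. `min`: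
`(L + q L²) e ≤ (L + q L²) (a + b) - (1 + q (L - 1)) - q = (L + q L²) (1 / L + e - δ) - (1 + q L) =
(L + q L²) (e - δ)`, contradiction.
Suppose `(L³ + L + 1) φ > 1`. Let `q` be the least natural number `≥ 1` with `(L + 1 + q L²) φ > 1`; `q ≥ 2`
(`(K + 1) φ ≤ 1`), `q ≤ L`. Put `q = p + 1`, `1 ≤ p ≤ L - 1`: `(L + 1 + p L²) φ ≤ 1`, and by (D)
`(L + 1 + (p + 1) L²) ψ ≥ L + 1`. With `B = L + 1 + (p + 1) L²`, `A = L + 1 + p L²`: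
`ψ - φ ≥ (L + 1) / B - 1 / A = (L³ p + L) / (A B)`, so `(L² p + 1) (L³ + L² + 1) < A B`. But
`F (p) = (L² p + 1) (L³ + L² + 1) - A B ≥ 0` for `1 ≤ p ≤ L - 1`: `F` is concave in `p`,
`F (1) = L⁵ - L⁴ - 2 L³ - 2 L² - 2 L > 0`, `F (L - 1) = L⁵ - 3 L⁴ + L³ - 2 L > 0`. -/
def Stmt_P2A : Prop :=
  ∀ (L : ℕ) (a b e δ : ℝ), 6 ≤ L → Plane L a b e δ → b * ((L : ℝ) ^ 2 + 1) ≤ 1 →
    (L * (L + 1) + 1 : ℝ) * a ≤ L → ((L : ℝ) ^ 3 + L + 1) * (L ^ 2 * a - (L - 1)) ≤ 1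

/-- P2B. PROOF. Notation of P2A: `φ, ψ`, `L² δ = ψ - φ + L² e`, `(L² + 1) ψ ≥ 1`, `(ψ - φ) (L³ + L² + 1) < L`,
`φ > 0`, `ψ > φ`, `e ≤ δ`; `K = L (L + 1)`, `H = L + K L²`, `D = L + (K + 1) L² = K (L² + 1)`;
`(L³ + L + 1) φ ≤ 1` is the hypothesis. Note `H (a + b) = (1 + K L) (1 + L (e - δ))`, etc.
(1) `K ψ ≤ 1 + (L - 1) b`. Otherwise `k = 1 - H` (`(k - 1) e ≤ 0`): `k a = - (1 + K (L - 1)) + y`,
`y = 1 - (L - 1) a - K φ ≥ 2 / (L + 1) - K / (L³ + L + 1) > 0` (`2 (L³ + L + 1) > K (L + 1)`);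
`k b = (1 - K) + y'`, `y' = K ψ - 1 - (L - 1) b > 0`. `min`: `- H e ≤ - H (a + b) + (1 + K (L - 1)) + (K - 1)
= - H (a + b) + K L`, `H (a + b) = H / L + H (e - δ)`, `H / L = 1 + K L`: so `1 ≤ H δ`, contradiction.
(2) `1 ≤ D δ`: `k = 1 - D`: `k a = - (1 + (K + 1) (L - 1)) + y`, `y = 1 - (L - 1) a - (K + 1) φ > 0`
(`2 (L³ + L + 1) > (K + 1) (L + 1)`), `k b = - K + y'`, `y' = (K + 1) ψ - 1 - (L - 1) b > 0`
(`(K + 1) ψ ≥ 1 + L / (L² + 1)`, `b ≤ 1 / (L² + 1)`). `min`: `- D e ≤ - D (a + b) + (K + 1) L =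
- D (e - δ) - 1`.
(3) `D δ ≤ 1`: `k = 1 + D`: `k a = (1 + (K + 1) (L - 1)) + y`, `y = (L + 1) a - 1 + (K + 1) φ =
((L + 1 + L² (K + 1)) φ - 1) / L² > 0`: `φ > ψ - L / (L³ + L² + 1) ≥ (L² - L + 1) / ((L² + 1) (L³ + L² + 1))` and
`(L⁴ + L³ + L² + L + 1) (L² - L + 1) = L⁶ + L⁴ + L³ + L² + 1 > (L² + 1) (L³ + L² + 1)`; `k b = K + y'`,
`y' = (L + 1) b - (K + 1) ψ + 1 ≥ 2 b - ψ > 0` by (1) (`(L² + 2) ψ < 2`: `ψ < 1 / (L³ + L + 1) +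
L / (L³ + L² + 1)`). `D e ≤ 2 / L`: `D e = D δ - (D / L²) (ψ - φ) ≤ D / H - (L³ + 1) / (L³ + L + 1) =
L / (L³ + L² + 1) + L / (L³ + L + 1)`, because `ψ - φ ≥ 1 / (L² + 1) - 1 / (L³ + L + 1)` and
`D / L² = (L + 1) (L² + 1) / L`. `min`: `D e ≤ D (a + b) - (K + 1) L = 1 + D (e - δ)`. -/
def Stmt_P2B : Prop :=
  ∀ (L : ℕ) (a b e δ : ℝ), 6 ≤ L → Plane L a b e δ → b * ((L : ℝ) ^ 2 + 1) ≤ 1 →
    (L * (L + 1) + 1 : ℝ) * a ≤ L → ((L : ℝ) ^ 3 + L + 1) * (L ^ 2 * a - (L - 1)) ≤ 1 →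
    δ * (L * (L + 1) * ((L : ℝ) ^ 2 + 1)) = 1 ∧
      L * (L + 1) * (1 - (L : ℝ) ^ 2 * b) ≤ 1 + (L - 1) * b

/-- P2C. PROOF. Notation of P2B; `T = (L + 1) (L² + 1) = 1 + (K + 1) L`, `D = L T`, `D δ = 1`,
`ε = 1 / (L + 1) - a ≥ 0`, `λ := (K + 1) φ - 1 + L a`. `L λ = T φ - 1`. From `ψ = φ + L² (δ - e)`,
`(L² + 1) ψ ≥ 1`, `L² δ = L / T`: `(1 + L λ) / T + L / T - L² e ≥ (L + 1) / T`, so `λ ≥ D e ≥ 0`.
Suppose `λ > 0`. `D a = (1 + (K + 1) (L - 1)) + λ`, `D b = K + (D e - λ)`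
(`D (a + b) = D / L + D (e - δ) = T - 1 + D e`). `λ - D e ≤ ψ - b`: `λ - D e = (K + 1) ψ - 1 - L b`
(insert `φ = ψ - L² (δ - e)`, `L a = 1 + L (e - δ) - L b`, `L² (K + 1) = D - L`, `D δ = 1`) and
`K ψ ≤ 1 + (L - 1) b`. `i := ⌊ε / λ⌋ + 1` (natural, `≥ 1`), `ε < i λ ≤ ε + λ`.
`k = (L + 1) (1 + i D)`, `k - 1 = L + (L + 1) i D`. `i (λ - D e) < b`: if `i = 1`, then it is
`≤ ψ - b < b` (`(L² + 2) ψ < 2`); if `i ≥ 2`, then `λ ≤ ε`, `i λ ≤ 2 ε`, `ε = (1 / (L + 1) - φ) / L² ≤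
1 / (L² (L + 1))`, `2 ε < b = (1 - ψ) / L²`. `(k - 1) e ≤ 2 / L`: `(L + 1) i D e + L e`; if `i = 1`:
`D e = 1 - (D / L²) (ψ - φ) ≤ L / (L³ + L + 1)` (see P2B), `L e ≤ D e / L`; if `i ≥ 2`:
`i D e ≤ i λ ≤ 2 ε`. `k a = integer + (L + 1) (a + i λ) = integer + 1 + (L + 1) (i λ - ε)`, positive;
`k b = integer + (L + 1) (b - i (λ - D e))`, positive. `min`: `a + b + L e + (L + 1) i D e ≤
(L + 1) (a + b + i D e) - 1`, so `1 + L e ≤ L (a + b) = 1 + L (e - δ)`, contradiction.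
So `λ = 0`, `e = 0`, `T φ = 1`, `ψ = φ + L² δ = (L + 1) / T = 1 / (L² + 1)`, `b = (1 - ψ) / L² = 1 / (L² + 1)`,
`a = (L - 1 + 1 / T) / L²`, `(L - 1) T + 1 = L⁴`, `a T = L²`. -/
def Stmt_P2C : Prop :=
  ∀ (L : ℕ) (a b e δ : ℝ), 6 ≤ L → Plane L a b e δ → b * ((L : ℝ) ^ 2 + 1) ≤ 1 →
    (L * (L + 1) + 1 : ℝ) * a ≤ L → ((L : ℝ) ^ 3 + L + 1) * (L ^ 2 * a - (L - 1)) ≤ 1 →
    δ * (L * (L + 1) * ((L : ℝ) ^ 2 + 1)) = 1 →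
    L * (L + 1) * (1 - (L : ℝ) ^ 2 * b) ≤ 1 + (L - 1) * b →
    e = 0 ∧ b * ((L : ℝ) ^ 2 + 1) = 1 ∧ a * ((L + 1) * ((L : ℝ) ^ 2 + 1)) = L ^ 2

/-- The conclusion of the plane problem. -/
def Bad (L : ℕ) (a b e : ℝ) : Prop :=
  e = 0 ∧ ∃ k : ℤ, (L : ℤ) ∣ k ∧ ¬ (Int.fract (k * a) = 0 ↔ Int.fract (k * b) = 0)

/-- PFA: the three families have reflections. PROOF. `K = L (L + 1)`. (1) `a (L + 1) = 1`, `M (1 - K b) = 1`: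
`k = K`: `k a = L`, `k b = 1 - 1 / M`, fractional part `≠ 0` since `M ≥ 2`. (2) `b (K + 1) = 1`,
`(1 / (L + 1) - a) (L + 1) L² (K + 1) = 1`: `k = L (K + 1)`: `k b = L`, `k a = L (K + 1) / (L + 1) - 1 / (L (L + 1)) =
(L³ + L - 1) / L = L² + 1 - 1 / L`. (3) `b (L² + 1) = 1`, `a (L + 1) (L² + 1) = L²`: `k = L (L² + 1)`:
`k b = L`, `k a = L³ / (L + 1) = L² - L + 1 - 1 / (L + 1)`. -/
def Stmt_PFA : Prop :=
  ∀ (L : ℕ) (a b : ℝ), 6 ≤ L →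
    (∀ M : ℕ, 2 ≤ M → a * (L + 1) = 1 → M * (1 - L * (L + 1) * b) = 1 → Bad L a b 0) ∧
    (b * (L * (L + 1) + 1 : ℝ) = 1 →
      (1 / ((L : ℝ) + 1) - a) * ((L + 1) * L ^ 2 * (L * (L + 1) + 1)) = 1 → Bad L a b 0) ∧
    (b * ((L : ℝ) ^ 2 + 1) = 1 → a * ((L + 1) * ((L : ℝ) ^ 2 + 1)) = L ^ 2 → Bad L a b 0)

/-- PLA: the plane problem, assembly. PROOF. `K = L (L + 1)`. PB1: `b (L² + 1) ≤ 1`. Case
`L < (K + 1) a`: PC1. `M := ⌊1 / (K δ)⌋` (natural): `M K δ ≤ 1 < (M + 1) K δ`; `K δ < (L + 1) / (L³ + L² + 1) <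
1 / L²`, so `L² ≤ M`. If `(M + 1) K (1 / (L + 1) - a) < a`: P11 and PFA (1). Otherwise P12R: `M = L²`: P12B and
PFA (2); `M = L² + 1`: P12A. Case `(K + 1) a ≤ L`: P2A, P2B, P2C, PFA (3). -/
def Stmt_PLA : Prop :=
  Stmt_PB1 → Stmt_PC1 → Stmt_P11 → Stmt_P12R → Stmt_P12A → Stmt_P12B → Stmt_P2A → Stmt_P2B →
    Stmt_P2C → Stmt_PFA →
    ∀ (L : ℕ) (a b e δ : ℝ), 6 ≤ L → Plane L a b e δ → Bad L a b e

/-! ## Third part -/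

/-- END: the contradiction. PROOF. `e = ∑ i < h + c, ep i = 0` with `0 ≤ ep i`, so `x i = 1 / dn i` for
`i < h + c`. If `h ≥ 1`, then `x 0 = 1`, contradiction to `lt_one`. If `h = 0`: `L ∣ k`, `dn 0 i = s_i ∣ L`
(DNS), so `fract (k x i) = 0` for `i < c`. One of `fract (k x c) = 0`, `fract (k x (c + 1)) = 0` holds and the
other one not; `refl` for the index of the other one: contradiction. -/
def Stmt_END : Prop :=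
  Stmt_DNS →
    ∀ (c h : ℕ) (x : ℕ → ℝ), 3 ≤ c → SPt (h + c + 2) h x → (∀ i < h + c + 1, 0 ≤ ep h x i) →
      ¬ Bad (LL c) (x (h + c)) (x (h + c + 1)) (∑ i ∈ range (h + c), ep h x i)

/-- MAI: the bound for sorted families. PROOF. If `¬ Small` then the claim (`0 < H`). Otherwise ALL, CLC, UBD,
PLN, PLA (`LL c ≥ 42`), END. -/
def Stmt_MAI : Prop :=
  Stmt_DNS → Stmt_PSI → Stmt_CEX → Stmt_TAI → Stmt_GRO → Stmt_THR → Stmt_HLF → Stmt_STG → Stmt_CLO →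
    Stmt_CLA → Stmt_CLB → Stmt_CLC → Stmt_ALL → Stmt_UBD → Stmt_PLN →
    (∀ (L : ℕ) (a b e δ : ℝ), 6 ≤ L → Plane L a b e δ → Bad L a b e) → Stmt_END →
    ∀ (c h : ℕ) (x : ℕ → ℝ), 3 ≤ c → h ≤ c → SPt (h + c + 2) h x →
      ∑ i ∈ range (h + c + 2), x i ≤ (h : ℝ) + 1 - 1 / (HH (LL c) : ℝ)

end

end G6
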