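import Pool.Agent.G5.BCO
import Pool.Agent.G5.RED
import Pool.Agent.G6.St

set_option autoImplicit false

/-!
# Sharp gaps without boundary at closed points: the reduction, all dimensions
-/

namespace G6

open MldGap Finset
open MldX (freeGap)
open G5 (CPt Core Base)

noncomputable section

namespace REDA

theorem two_le (k : ℕ) : 2 ≤ sylvester k := by
  have h := MldGap.sylvester_real k
  exact_mod_cast h

theorem syl_mono (k : ℕ) : sylvester k ≤ sylvester (k + 1) := by
  have h := two_le k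
  have h1 : sylvester (k + 1) = sylvester k ^ 2 - sylvester k + 1 := rfl
  rw [h1]
  have h2 : sylvester k * 2 ≤ sylvester k ^ 2 := by
    rw [pow_two]
    exact Nat.mul_le_mul_left _ h
  omega

theorem fg_succ (k : ℕ) : freeGap (k + 1) = HH (LL k) := rfl

theorem fg_pos (k : ℕ) : 1 ≤ freeGap k := by
  cases k with
  | zero => exact le_rfl
  | succ k =>
    rw [fg_succ]
    have h := two_le k
    unfold HH LL
    exact Nat.mul_pos (by omega) (by positivity)

theorem HH_mono {a b : ℕ} (h : a ≤ b) : HH a ≤ HH b := by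
  unfold HH
  gcongr

theorem fg_step (k : ℕ) : freeGap k ≤ freeGap (k + 1) := by
  cases k with
  | zero => exact fg_pos 1
  | succ k =>
    rw [fg_succ, fg_succ]
    refine HH_mono ?_
    unfold LL
    have := syl_mono k
    omega

theorem fg_mono : Monotone freeGap := monotone_nat_of_le_succ fg_step

theorem fg_two {k : ℕ} (hk : 1 ≤ k) : 2 ≤ freeGap k := by
  have h := fg_mono hk
  have h1 : freeGap 1 = 3 := rfl
  omega

/-- The base cases from the bound for sorted families. -/
theorem base_of_sorted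
    (H : ∀ (c h : ℕ) (x : ℕ → ℝ), 3 ≤ c → h ≤ c → SPt (h + c + 2) h x →
      ∑ i ∈ range (h + c + 2), x i ≤ (h : ℝ) + 1 - 1 / (HH (LL c) : ℝ))
    {c h : ℕ} (hc : 3 ≤ c) (hh : h ≤ c) : Base (h + c + 2) (h + 1) (freeGap (c + 1)) := by
  intro x hx hx1
  obtain ⟨σ, hσ⟩ := G5.exists_sorted x
  have hy := hx.perm σ
  obtain ⟨X, hX⟩ : ∃ X : ℕ → ℝ, ∀ (i : ℕ) (hi : i < h + c + 2), X i = (x ∘ σ) ⟨i, hi⟩ :=
    ⟨fun i => if hi : i < h + c + 2 then (x ∘ σ) ⟨i, hi⟩ else 0, fun i hi => dif_pos hi⟩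
  have hsum : ∀ f : ℝ → ℝ, ∑ i ∈ range (h + c + 2), f (X i) =
      ∑ i : Fin (h + c + 2), f ((x ∘ σ) i) := by
    intro f
    rw [Finset.sum_range]
    exact Finset.sum_congr rfl fun i _ => by rw [hX i i.2]
  have hsum1 : ∑ i ∈ range (h + c + 2), X i = ∑ i, (x ∘ σ) i := hsum fun t => t
  have hS : SPt (h + c + 2) h X := by
    refine ⟨?_, ?_, ?_, ?_, ?_, ?_⟩
    · intro i hi
      rw [hX i hi]
      exact hy.pos _
    · intro i hi
      rw [hX i hi]
      exact hx1 _
    · intro i j hij hj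
      rw [hX i (by omega), hX j hj]
      exact hσ (by simpa [Fin.le_def] using hij)
    · rw [hsum1]
      have := hy.lt
      push_cast at this
      exact this
    · intro k
      rw [hsum1, hsum fun t => thr (k * t)]
      exact hy.min k
    · intro i hi k hk
      rw [hX i hi]
      refine hy.refl _ k fun j hj => ?_
      have := hk j j.2 (fun h' => hj (Fin.ext h'))
      rw [hX j j.2] at this
      exact this
  have h1 := H c h X hc hh hS
  rw [hsum1] at h1
  have h2 : ∑ i, (x ∘ σ) i = ∑ i, x i := Equiv.sum_comp σ x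
  rw [h2] at h1
  rw [fg_succ]
  push_cast
  exact h1

theorem inner
    (H : ∀ c h : ℕ, 3 ≤ c → h ≤ c → Base (h + c + 2) (h + 1) (freeGap (c + 1))) {m l : ℕ}
    (hl : 1 ≤ l) (hm : l ≤ m) {x : Fin m → ℝ} (hx : CPt l x) (h1 : ∀ i, x i < 1) :
    ∑ i, x i ≤ (l : ℝ) - 1 / (freeGap (m - l) : ℝ) := by
  rcases Nat.lt_or_ge (l + 3) m with h3 | h3
  swap
  · exact G5.RED.inner G5.base21 G5.base31 G5.base42 G5.base41 G5.base52 G5.base63 hl hm h3 hx h1
  · obtain ⟨d, rfl⟩ : ∃ d, m = l + d := ⟨m - l, by omega⟩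
    rw [Nat.add_sub_cancel_left]
    rcases Nat.lt_or_ge d l with h4 | h4
    · have h5 := G5.RED.half hx h1
      have h6 : (d : ℝ) + 1 ≤ l := by exact_mod_cast h4
      have h7 : (2 : ℝ) ≤ freeGap d := by exact_mod_cast fg_two (show 1 ≤ d by omega)
      have h8 : 1 / (freeGap d : ℝ) ≤ 1 / 2 := one_div_le_one_div_of_le (by norm_num) h7
      push_cast at h5
      linarith
    · obtain ⟨h, rfl⟩ : ∃ h, l = h + 1 := ⟨l - 1, by omega⟩
      obtain ⟨c, rfl⟩ : ∃ c, d = c + 1 := ⟨d - 1, by omega⟩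
      have e : h + 1 + (c + 1) = h + c + 2 := by omega
      revert x
      rw [e]
      intro x hx h1
      exact H c h (by omega) (by omega) x hx h1

theorem key
    (H : ∀ c h : ℕ, 3 ≤ c → h ≤ c → Base (h + c + 2) (h + 1) (freeGap (c + 1))) :
    ∀ l m : ℕ, 1 ≤ l → l ≤ m → ∀ x : Fin m → ℝ, CPt l x →
      ∑ i, x i ≤ (l : ℝ) - 1 / (freeGap (m - l) : ℝ) := by
  intro l
  induction l with
  | zero => intro m h; omega
  | succ l ih =>
    intro m hl hm x hx
    by_cases h1 : ∀ i, x i < 1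
    · exact inner H hl hm hx h1
    · push Not at h1
      obtain ⟨i, hi⟩ := h1
      have hi1 : x i = 1 := le_antisymm (hx.le i) hi
      obtain ⟨m', rfl⟩ : ∃ m', m = m' + 1 := ⟨m - 1, by omega⟩
      have hy := G5.RED.remove hx hi1
      have hs : ∑ j, x j = 1 + ∑ j, x (i.succAbove j) := by
        rw [Fin.sum_univ_succAbove x i, hi1]
      rcases Nat.eq_zero_or_pos l with rfl | hl'
      · exfalso
        have h2 := hy.lt
        have h3 : 0 ≤ ∑ j, x (i.succAbove j) := Finset.sum_nonneg fun j _ => (hx.pos _).le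
        push_cast at h2
        linarith
      · have h2 := ih m' hl' (by omega) _ hy
        have e : m' + 1 - (l + 1) = m' - l := by omega
        rw [hs, e]
        push_cast
        linarith

end REDA

/-- The arithmetic core in all dimensions. -/
theorem core_all
    (H : ∀ (c h : ℕ) (x : ℕ → ℝ), 3 ≤ c → h ≤ c → SPt (h + c + 2) h x →
      ∑ i ∈ range (h + c + 2), x i ≤ (h : ℝ) + 1 - 1 / (HH (LL c) : ℝ))
    (n l : ℕ) (hl : 1 ≤ l) : Core n l ((l : ℝ) - 1 / (freeGap (n - l) : ℝ)) := by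
  intro m hm x hx
  have hp : (1 : ℝ) ≤ freeGap (n - l) := by exact_mod_cast REDA.fg_pos (n - l)
  rcases Nat.lt_or_ge m l with h1 | h1
  · have h2 := G5.RED.sum_le hx
    have h3 : (m : ℝ) + 1 ≤ l := by exact_mod_cast h1
    have h4 : 1 / (freeGap (n - l) : ℝ) ≤ 1 := by
      rw [div_le_one (by linarith)]
      exact hp
    linarith
  · have h2 := REDA.key (fun c h hc hh => REDA.base_of_sorted H hc hh) l m hl h1 x hx
    have h3 : (freeGap (m - l) : ℝ) ≤ (freeGap (n - l) : ℝ) := by
      exact_mod_cast REDA.fg_mono (show m - l ≤ n - l by omega)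
    have h5 : (1 : ℝ) ≤ freeGap (m - l) := by exact_mod_cast REDA.fg_pos (m - l)
    have h4 : 1 / (freeGap (n - l) : ℝ) ≤ 1 / (freeGap (m - l) : ℝ) :=
      one_div_le_one_div_of_le (by linarith) h3
    linarith

end

end G6
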