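import Pool.Agent.G6.StB

/-!
SRT: from sorted families to `G5.Base`.
-/

namespace G6

open Finset MldGap
open MldX (freeGap)

noncomputable section

theorem t_SRT : Stmt_SRT := by
  intro hmain l d hd hl hld x0 hx0 hlt0
  obtain ⟨h, rfl⟩ : ∃ h, l = h + 1 := ⟨l - 1, by omega⟩
  obtain ⟨c, rfl⟩ : ∃ c, d = c + 1 := ⟨d - 1, by omega⟩
  obtain ⟨σ, hσ⟩ := G5.exists_sorted x0
  have hx := hx0.perm σ
  set y : Fin (h + 1 + (c + 1)) → ℝ := x0 ∘ σ with hy
  have hm : h + 1 + (c + 1) = h + c + 2 := by omega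
  let X : ℕ → ℝ := fun i => if hi : i < h + 1 + (c + 1) then y ⟨i, hi⟩ else 0
  have hX : ∀ i (hi : i < h + 1 + (c + 1)), X i = y ⟨i, hi⟩ := fun i hi => by simp [X, hi]
  have hsum : ∀ f : ℝ → ℝ, ∑ i ∈ range (h + c + 2), f (X i) = ∑ i, f (y i) := by
    intro f
    rw [← hm, Finset.sum_range]
    exact Finset.sum_congr rfl fun i _ => by rw [hX i.1 i.2]
  have hS : SPt (h + c + 2) h X := by
    refine ⟨fun i hi => ?_, fun i hi => ?_, fun i j hij hj => ?_, ?_, fun k => ?_, fun i hi k hk => ?_⟩
    · rw [hX i (by omega)]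
      exact hx.pos _
    · rw [hX i (by omega)]
      exact hlt0 _
    · rw [hX i (by omega), hX j (by omega)]
      exact hσ (by simpa [Fin.le_def] using hij)
    · have h1 := hx.lt
      have h2 := hsum id
      simp only [id] at h2
      rw [h2]
      push_cast at h1
      exact h1
    · have h1 := hx.min k
      have h2 := hsum id
      have h3 := hsum fun t => thr (k * t)
      simp only [id] at h2
      rw [h2, h3]
      exact h1
    · rw [hX i (by omega)]
      refine hx.refl ⟨i, by omega⟩ k fun j hj => ?_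
      have h1 := hk j.1 (by omega) fun h2 => hj (Fin.ext h2)
      rw [hX j.1 j.2] at h1
      exact h1
  have h1 := hmain c h X (by omega) (by omega) hS
  have h2 := hsum id
  simp only [id] at h2
  rw [h2] at h1
  have h3 : ∑ i, y i = ∑ i, x0 i := Equiv.sum_comp σ x0
  rw [h3] at h1
  have h4 : freeGap (c + 1) = HH (LL c) := rfl
  rw [h4]
  push_cast
  exact h1

end

end G6
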