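import Pool.Agent.G5.RED
import Pool.Agent.G5.BCO
import Pool.Agent.G6.St

/-!
# Sharp gaps without boundary, all dimensions: the interface to `Pool.Agent.G5`
-/

namespace G6

open Finset MldGap
open MldX (freeGap)

noncomputable section

/-- SRT: from sorted families to `G5.Base`. PROOF. `h = l - 1`, `c = d - 1`, `l + d = h + c + 2`,
`freeGap d = HH (LL c)` (`rfl` for `d = c + 1`). `G5.exists_sorted`, `G5.CPt.perm` (`G5/BCO.lean`) give a permutation
`σ` with `x ∘ σ` antitone; put `X i = x (σ ⟨i, _⟩)` for `i < m`, `0` otherwise; `SPt m h X`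
(`Finset.sum_range`; `G5.thr` and `G6.thr` are equal by `rfl`; the sums over `Fin m` do not change by
`Equiv.sum_comp`). -/
def Stmt_SRT : Prop :=
  (∀ (c h : ℕ) (x : ℕ → ℝ), 3 ≤ c → h ≤ c → SPt (h + c + 2) h x →
      ∑ i ∈ range (h + c + 2), x i ≤ (h : ℝ) + 1 - 1 / (HH (LL c) : ℝ)) →
    ∀ l d : ℕ, 4 ≤ d → 1 ≤ l → l ≤ d → G5.Base (l + d) l (freeGap d)

/-- RDA: the reduction to the base cases, all dimensions. PROOF. As `G5/RED.lean`. (a) For all
`1 ≤ l ≤ m`, `CPt l x`: `∑ x i ≤ l - 1 / freeGap (m - l)`, by induction on `l`: if some `x i = 1`, remove it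
(`G5.RED.remove`). If all `x i < 1` and `d = m - l`: if `d = 0`, `m = l`: for `m = 1` `refl` gives a
contradiction, for `m ≥ 2` `2 ∑ x i ≤ m` (`G5.RED.half`) is enough (`m / 2 ≤ m - 1`); if `1 ≤ d` and `l ≤ d` use the
hypothesis (`m = l + d`); if `1 ≤ d < l`, then `2 ∑ x i ≤ l + d ≤ 2 l - 1 ≤ 2 l - 2 / freeGap d` since
`freeGap d ≥ 3`. (b) `freeGap` is monotone and `≥ 1` (`sylvester` is monotone). Then as the end of
`G5.t_RED`. -/
def Stmt_RDA : Prop :=
  (∀ l d : ℕ, 1 ≤ d → 1 ≤ l → l ≤ d → G5.Base (l + d) l (freeGap d)) →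
    ∀ n l : ℕ, 1 ≤ l → G5.Core n l ((l : ℝ) - 1 / (freeGap (n - l) : ℝ))

end

end G6
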